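import Pool.Agent.Q22.AC.Step

/-!
# A field with two commuting derivations in which differential equations in one unknown have solutions
-/

namespace Pool.Agent.Q22.AC

/-- a field of characteristic zero with two commuting derivations -/
structure DFld where
  K : Type
  [fld : Field K]
  [cz : CharZero K]
  D1 : K → K
  D2 : K → K
  h1 : IsDer D1
  h2 : IsDer D2
  comm : ∀ x, D1 (D2 x) = D2 (D1 x)

attribute [instance] DFld.fld DFld.cz

theorem exists_next (A : DFld) : ∃ B : DFld, ∃ j : A.K →+* B.K,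
    (∀ x, B.D1 (j x) = j (A.D1 x)) ∧ (∀ x, B.D2 (j x) = j (A.D2 x)) ∧
    ∀ Φ : DP A.K, Φ.vars.Nonempty → ∃ y : B.K,
      MvPolynomial.eval₂Hom j (fun p => B.D1^[p.1] (B.D2^[p.2] y)) Φ = 0 := by
  obtain ⟨D1', D2', h1, h2, h3, h4, h5, h6⟩ := step A.K A.D1 A.D2 A.h1 A.h2 A.comm
  let B : DFld :=
    { K := NF A.K
      fld := inferInstance
      cz := charZero_BB
      D1 := D1'
      D2 := D2'
      h1 := h1
      h2 := h2
      comm := h3 }
  exact ⟨B, ii A.K, h4, h5, h6⟩

/-- the next field -/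
noncomputable def next (A : DFld) : DFld := (exists_next A).choose

/-- the embedding -/
noncomputable def jj (A : DFld) : A.K →+* (next A).K := (exists_next A).choose_spec.choose

theorem jj_spec (A : DFld) : (∀ x, (next A).D1 (jj A x) = jj A (A.D1 x)) ∧
    (∀ x, (next A).D2 (jj A x) = jj A (A.D2 x)) ∧
    ∀ Φ : DP A.K, Φ.vars.Nonempty → ∃ y : (next A).K,
      MvPolynomial.eval₂Hom (jj A) (fun p => (next A).D1^[p.1] ((next A).D2^[p.2] y)) Φ = 0 :=
  (exists_next A).choose_spec.choose_spec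

/-- the chain -/
noncomputable def seq (A : DFld) : ℕ → DFld
  | 0 => A
  | n + 1 => next (seq A n)

/-- the fields of the chain -/
abbrev G (A : DFld) (n : ℕ) : Type := (seq A n).K

/-- the transition maps -/
noncomputable def tr (A : DFld) (n : ℕ) : G A n →+* G A (n + 1) := jj (seq A n)

/-- the transition maps -/
noncomputable def F (A : DFld) (i j : ℕ) (h : i ≤ j) : G A i →+* G A j :=
  Nat.leRec (motive := fun m _ => G A i →+* G A m) (RingHom.id _) (fun m _ g => (tr A m).comp g) h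

theorem F_self (A : DFld) (i : ℕ) (x : G A i) : F A i i le_rfl x = x := by
  rw [F, Nat.leRec_self]
  rfl

theorem F_succ (A : DFld) (i j : ℕ) (h : i ≤ j) (x : G A i) :
    F A i (j + 1) (h.trans (Nat.le_succ j)) x = tr A j (F A i j h x) := by
  rw [F, Nat.leRec_succ _ _ h]
  rfl

theorem F_trans (A : DFld) (i j : ℕ) (hij : i ≤ j) (x : G A i) : ∀ (k : ℕ) (hjk : j ≤ k),
    F A j k hjk (F A i j hij x) = F A i k (hij.trans hjk) x := by
  intro k hjk
  induction k, hjk using Nat.le_induction with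
  | base => rw [F_self]
  | succ k hjk ih => rw [F_succ A j k hjk, ih, F_succ A i k (hij.trans hjk)]

instance (A : DFld) : DirectedSystem (G A) (fun i j h => F A i j h) where
  map_self i x := F_self A i x
  map_map k j i hij hjk x := F_trans A i j hij x k hjk

theorem F_D1 (A : DFld) (i : ℕ) (x : G A i) : ∀ (j : ℕ) (h : i ≤ j),
    (seq A j).D1 (F A i j h x) = F A i j h ((seq A i).D1 x) := by
  intro j h
  induction j, h using Nat.le_induction with
  | base => rw [F_self, F_self]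
  | succ j h ih =>
    rw [F_succ A i j h, F_succ A i j h, ← ih]
    exact (jj_spec (seq A j)).1 _

theorem F_D2 (A : DFld) (i : ℕ) (x : G A i) : ∀ (j : ℕ) (h : i ≤ j),
    (seq A j).D2 (F A i j h x) = F A i j h ((seq A i).D2 x) := by
  intro j h
  induction j, h using Nat.le_induction with
  | base => rw [F_self, F_self]
  | succ j h ih =>
    rw [F_succ A i j h, F_succ A i j h, ← ih]
    exact (jj_spec (seq A j)).2.1 _

/-- the limit -/
abbrev Lim (A : DFld) : Type := DirectLimit (G A) (F A)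

/-- the maps to the limit -/
noncomputable def toLim (A : DFld) (n : ℕ) : G A n →+* Lim A := DirectLimit.Ring.of (G A) (F A) n

theorem exists_toLim (A : DFld) (x : Lim A) : ∃ n y, toLim A n y = x := by
  obtain ⟨n, y, h⟩ := DirectLimit.exists_eq_mk (F A) x
  exact ⟨n, y, h.symm⟩

theorem exists_toLim₂ (A : DFld) (x x' : Lim A) : ∃ n y y', toLim A n y = x ∧ toLim A n y' = x' := by
  obtain ⟨n, y, y', h, h'⟩ := DirectLimit.exists_eq_mk₂ (F A) x x'
  exact ⟨n, y, y', h.symm, h'.symm⟩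

theorem toLim_F (A : DFld) (i j : ℕ) (h : i ≤ j) (x : G A i) :
    toLim A j (F A i j h x) = toLim A i x :=
  DirectLimit.mk_apply i j x h

theorem toLim_tr (A : DFld) (i : ℕ) (x : G A i) : toLim A (i + 1) (tr A i x) = toLim A i x := by
  rw [← toLim_F A i (i + 1) (Nat.le_succ i) x, F_succ A i i le_rfl, F_self]

/-- the derivations of the limit -/
noncomputable def E1 (A : DFld) : Lim A → Lim A :=
  DirectLimit.map (F A) (F A) (fun i x => (seq A i).D1 x) (fun i j h x => (F_D1 A i x j h).symm)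

/-- the derivations of the limit -/
noncomputable def E2 (A : DFld) : Lim A → Lim A :=
  DirectLimit.map (F A) (F A) (fun i x => (seq A i).D2 x) (fun i j h x => (F_D2 A i x j h).symm)

theorem E1_toLim (A : DFld) (n : ℕ) (x : G A n) : E1 A (toLim A n x) = toLim A n ((seq A n).D1 x) := rfl

theorem E2_toLim (A : DFld) (n : ℕ) (x : G A n) : E2 A (toLim A n x) = toLim A n ((seq A n).D2 x) := rfl

theorem E1_der (A : DFld) : IsDer (E1 A) := by
  constructor
  · intro a b
    obtain ⟨n, x, y, rfl, rfl⟩ := exists_toLim₂ A a b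
    rw [← map_add, E1_toLim, (seq A n).h1.add, map_add, E1_toLim, E1_toLim]
  · intro a b
    obtain ⟨n, x, y, rfl, rfl⟩ := exists_toLim₂ A a b
    rw [← map_mul, E1_toLim, (seq A n).h1.mul, map_add, map_mul, map_mul, E1_toLim, E1_toLim]

theorem E2_der (A : DFld) : IsDer (E2 A) := by
  constructor
  · intro a b
    obtain ⟨n, x, y, rfl, rfl⟩ := exists_toLim₂ A a b
    rw [← map_add, E2_toLim, (seq A n).h2.add, map_add, E2_toLim, E2_toLim]
  · intro a b
    obtain ⟨n, x, y, rfl, rfl⟩ := exists_toLim₂ A a b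
    rw [← map_mul, E2_toLim, (seq A n).h2.mul, map_add, map_mul, map_mul, E2_toLim, E2_toLim]

theorem E_comm (A : DFld) (a : Lim A) : E1 A (E2 A a) = E2 A (E1 A a) := by
  obtain ⟨n, x, rfl⟩ := exists_toLim A a
  rw [E2_toLim, E1_toLim, E1_toLim, E2_toLim, (seq A n).comm]

theorem E_iter (A : DFld) (n : ℕ) (x : G A n) (k l : ℕ) :
    (E1 A)^[k] ((E2 A)^[l] (toLim A n x)) = toLim A n ((seq A n).D1^[k] ((seq A n).D2^[l] x)) := by
  have h1 : ∀ l, (E2 A)^[l] (toLim A n x) = toLim A n ((seq A n).D2^[l] x) := by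
    intro l
    induction l with
    | zero => rfl
    | succ l ih => rw [Function.iterate_succ_apply', ih, E2_toLim, Function.iterate_succ_apply']
  rw [h1]
  induction k with
  | zero => rfl
  | succ k ih => rw [Function.iterate_succ_apply', ih, E1_toLim, Function.iterate_succ_apply']

theorem exists_descend (A : DFld) (Φ : DP (Lim A)) : ∃ n, ∃ Ψ : DP (G A n),
    MvPolynomial.map (toLim A n) Ψ = Φ := by
  induction Φ using MvPolynomial.induction_on with
  | C a =>
    obtain ⟨n, x, rfl⟩ := exists_toLim A a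
    exact ⟨n, MvPolynomial.C x, MvPolynomial.map_C _ _⟩
  | add p q hp hq =>
    obtain ⟨n, P, rfl⟩ := hp
    obtain ⟨m, Q, rfl⟩ := hq
    refine ⟨max n m, MvPolynomial.map (F A n _ (le_max_left n m)) P +
      MvPolynomial.map (F A m _ (le_max_right n m)) Q, ?_⟩
    have e1 : (toLim A (max n m)).comp (F A n _ (le_max_left n m)) = toLim A n :=
      RingHom.ext fun x => toLim_F A _ _ _ x
    have e2 : (toLim A (max n m)).comp (F A m _ (le_max_right n m)) = toLim A m :=
      RingHom.ext fun x => toLim_F A _ _ _ x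
    rw [map_add, MvPolynomial.map_map, MvPolynomial.map_map, e1, e2]
  | mul_X p i hp =>
    obtain ⟨n, P, rfl⟩ := hp
    exact ⟨n, P * MvPolynomial.X i, by rw [map_mul, MvPolynomial.map_X]⟩

theorem tr_spec (A : DFld) (n : ℕ) (Φ : DP (G A n)) (h : Φ.vars.Nonempty) : ∃ y : G A (n + 1),
    MvPolynomial.eval₂Hom (tr A n) (fun p => (seq A (n + 1)).D1^[p.1] ((seq A (n + 1)).D2^[p.2] y)) Φ = 0 :=
  (jj_spec (seq A n)).2.2 Φ h

/-- **The limit is closed.** -/
theorem Lim_closed (A : DFld) (Φ : DP (Lim A)) (h : Φ.vars.Nonempty) : ∃ y : Lim A,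
    MvPolynomial.eval₂Hom (RingHom.id _) (fun p => (E1 A)^[p.1] ((E2 A)^[p.2] y)) Φ = 0 := by
  obtain ⟨n, Ψ, rfl⟩ := exists_descend A Φ
  have h1 : Ψ.vars.Nonempty := h.mono (MvPolynomial.vars_map _ _)
  obtain ⟨y, hy⟩ := tr_spec A n Ψ h1
  refine ⟨toLim A (n + 1) y, ?_⟩
  have h2 := congrArg (toLim A (n + 1)) hy
  rw [map_zero, MvPolynomial.map_eval₂Hom] at h2
  rw [← h2]
  simp only [MvPolynomial.coe_eval₂Hom, MvPolynomial.eval₂_map]
  refine MvPolynomial.eval₂Hom_congr ?_ ?_ rfl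
  · exact RingHom.ext fun x => (toLim_tr A n x).symm
  · funext p
    exact E_iter A (n + 1) y p.1 p.2

theorem Lim_E1 (A : DFld) (n : ℕ) (p : G A n) (c : ℤ) (h : (seq A n).D1 p = c) :
    E1 A (toLim A n p) = c := by
  rw [E1_toLim, h]
  exact map_intCast (toLim A n) c

theorem Lim_E2 (A : DFld) (n : ℕ) (p : G A n) (c : ℤ) (h : (seq A n).D2 p = c) :
    E2 A (toLim A n p) = c := by
  rw [E2_toLim, h]
  exact map_intCast (toLim A n) c

/-- **A closed field with two commuting derivations.** -/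
theorem exists_closed : ∃ A : DFld, (∃ p q : A.K, A.D1 p = 1 ∧ A.D2 p = 0 ∧ A.D1 q = 0 ∧ A.D2 q = 1) ∧
    ∀ Φ : DP A.K, Φ.vars.Nonempty → ∃ y : A.K,
      MvPolynomial.eval₂Hom (RingHom.id _) (fun v => A.D1^[v.1] (A.D2^[v.2] y)) Φ = 0 := by
  have h0 : IsDer (fun _ : ℚ => (0 : ℚ)) := ⟨fun _ _ => by simp, fun _ _ => by simp⟩
  obtain ⟨D1, a1, a2, a3⟩ := exists_ext (σ := Bool) h0 (fun b => if b then 1 else 0)
  obtain ⟨D2, b1, b2, b3⟩ := exists_ext (σ := Bool) h0 (fun b => if b then 0 else 1)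
  have hcomm : ∀ x, D1 (D2 x) - D2 (D1 x) = 0 := by
    refine der_unique (a1.comm_der b1) ?_ ?_
    · intro a
      rw [a2, b2]
      simp [a1.zero, b1.zero]
    · intro i
      rw [a3, b3]
      cases i <;> simp [a1.zero, b1.zero, a1.one, b1.one]
  let A : DFld :=
    { K := BB ℚ Bool
      fld := inferInstance
      cz := charZero_BB
      D1 := D1
      D2 := D2
      h1 := a1
      h2 := b1
      comm := fun x => sub_eq_zero.1 (hcomm x) }
  have hcz : CharZero (Lim A) := charZero_of_injective_ringHom (toLim A 0).injective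
  let L : DFld :=
    { K := Lim A
      fld := inferInstance
      cz := hcz
      D1 := E1 A
      D2 := E2 A
      h1 := E1_der A
      h2 := E2_der A
      comm := E_comm A }
  refine ⟨L, ⟨toLim A 0 (emb ℚ Bool (MvPolynomial.X true)),
      toLim A 0 (emb ℚ Bool (MvPolynomial.X false)), ?_, ?_, ?_, ?_⟩, Lim_closed A⟩
  · exact (Lim_E1 A 0 _ 1 (((a3 true) : _).trans (by simp; rfl))).trans (by simp)
  · exact (Lim_E2 A 0 _ 0 (((b3 true) : _).trans (by simp; rfl))).trans (by simp)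
  · exact (Lim_E1 A 0 _ 0 (((a3 false) : _).trans (by simp; rfl))).trans (by simp)
  · exact (Lim_E2 A 0 _ 1 (((b3 false) : _).trans (by simp; rfl))).trans (by simp)

/-- the differential polynomial functions of one variable -/
inductive IsDP (A : DFld) : (A.K → A.K) → Prop
  | const (c : A.K) : IsDP A (fun _ => c)
  | var : IsDP A (fun y => y)
  | add (f g : A.K → A.K) : IsDP A f → IsDP A g → IsDP A (fun y => f y + g y)
  | mul (f g : A.K → A.K) : IsDP A f → IsDP A g → IsDP A (fun y => f y * g y)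
  | d1 (f : A.K → A.K) : IsDP A f → IsDP A (fun y => A.D1 (f y))
  | d2 (f : A.K → A.K) : IsDP A f → IsDP A (fun y => A.D2 (f y))

/-- the value of a differential polynomial -/
noncomputable def ev (A : DFld) (y : A.K) : DP A.K →+* A.K :=
  MvPolynomial.eval₂Hom (RingHom.id _) (fun v => A.D1^[v.1] (A.D2^[v.2] y))

theorem ev_C (A : DFld) (y c : A.K) : ev A y (MvPolynomial.C c) = c := by
  rw [ev, MvPolynomial.eval₂Hom_C]; rfl

theorem ev_X (A : DFld) (y : A.K) (v : ℕ × ℕ) : ev A y (MvPolynomial.X v) = A.D1^[v.1] (A.D2^[v.2] y) := by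
  rw [ev, MvPolynomial.eval₂Hom_X']

theorem comm_iter (A : DFld) (k : ℕ) (x : A.K) : A.D2 (A.D1^[k] x) = A.D1^[k] (A.D2 x) := by
  induction k with
  | zero => rfl
  | succ k ih => rw [Function.iterate_succ_apply', ← A.comm, ih, Function.iterate_succ_apply']

theorem exists_d1 (A : DFld) (Φ : DP A.K) : ∃ Ψ : DP A.K, ∀ y, ev A y Ψ = A.D1 (ev A y Φ) := by
  induction Φ using MvPolynomial.induction_on with
  | C a => exact ⟨MvPolynomial.C (A.D1 a), fun y => by rw [ev_C, ev_C]⟩
  | add p q hp hq =>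
    obtain ⟨P, hP⟩ := hp
    obtain ⟨Q, hQ⟩ := hq
    exact ⟨P + Q, fun y => by rw [map_add, map_add, A.h1.add, hP, hQ]⟩
  | mul_X p i hp =>
    obtain ⟨P, hP⟩ := hp
    refine ⟨p * MvPolynomial.X (i.1 + 1, i.2) + MvPolynomial.X i * P, fun y => ?_⟩
    rw [map_mul, map_add, map_mul, map_mul, A.h1.mul, hP, ev_X, ev_X, Function.iterate_succ_apply']

theorem exists_d2 (A : DFld) (Φ : DP A.K) : ∃ Ψ : DP A.K, ∀ y, ev A y Ψ = A.D2 (ev A y Φ) := by
  induction Φ using MvPolynomial.induction_on with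
  | C a => exact ⟨MvPolynomial.C (A.D2 a), fun y => by rw [ev_C, ev_C]⟩
  | add p q hp hq =>
    obtain ⟨P, hP⟩ := hp
    obtain ⟨Q, hQ⟩ := hq
    exact ⟨P + Q, fun y => by rw [map_add, map_add, A.h2.add, hP, hQ]⟩
  | mul_X p i hp =>
    obtain ⟨P, hP⟩ := hp
    refine ⟨p * MvPolynomial.X (i.1, i.2 + 1) + MvPolynomial.X i * P, fun y => ?_⟩
    rw [map_mul, map_add, map_mul, map_mul, A.h2.mul, hP, ev_X, ev_X, Function.iterate_succ_apply',
      comm_iter]

theorem IsDP.exists_poly {A : DFld} {f : A.K → A.K} (h : IsDP A f) : ∃ Φ : DP A.K, ∀ y, f y = ev A y Φ := by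
  induction h with
  | const c => exact ⟨MvPolynomial.C c, fun y => by rw [ev_C]⟩
  | var => exact ⟨MvPolynomial.X (0, 0), fun y => by rw [ev_X]; rfl⟩
  | add f g _ _ hf hg =>
    obtain ⟨P, hP⟩ := hf
    obtain ⟨Q, hQ⟩ := hg
    exact ⟨P + Q, fun y => by simp only [map_add, hP, hQ]⟩
  | mul f g _ _ hf hg =>
    obtain ⟨P, hP⟩ := hf
    obtain ⟨Q, hQ⟩ := hg
    exact ⟨P * Q, fun y => by simp only [map_mul, hP, hQ]⟩
  | d1 f _ hf =>
    obtain ⟨P, hP⟩ := hf
    obtain ⟨Q, hQ⟩ := exists_d1 A P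
    exact ⟨Q, fun y => by simp only [hP, hQ]⟩
  | d2 f _ hf =>
    obtain ⟨P, hP⟩ := hf
    obtain ⟨Q, hQ⟩ := exists_d2 A P
    exact ⟨Q, fun y => by simp only [hP, hQ]⟩

/-- every differential polynomial function which is not constant has a root -/
def Closed (A : DFld) : Prop := ∀ f, IsDP A f → (∃ a b, f a ≠ f b) → ∃ y, f y = 0

/-- **There is a closed field with two commuting derivations.** -/
theorem exists_closed' : ∃ A : DFld,
    (∃ p q : A.K, A.D1 p = 1 ∧ A.D2 p = 0 ∧ A.D1 q = 0 ∧ A.D2 q = 1) ∧ Closed A := by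
  obtain ⟨A, h1, h2⟩ := exists_closed
  refine ⟨A, h1, fun f hf hne => ?_⟩
  obtain ⟨Φ, hΦ⟩ := hf.exists_poly
  obtain ⟨y, hy⟩ := h2 Φ (by
    by_contra hcon
    rw [Finset.not_nonempty_iff_eq_empty] at hcon
    obtain ⟨a, b, hab⟩ := hne
    apply hab
    rw [hΦ, hΦ]
    exact MvPolynomial.eval₂Hom_congr' rfl (fun v hv _ => by simp [hcon] at hv) rfl)
  exact ⟨y, by rw [hΦ]; exact hy⟩

end Pool.Agent.Q22.AC
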