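import Mathlib

/-!
# Extension of derivations to the algebraic closure of a rational function field
-/

namespace Pool.Agent.Q22.AC

open Polynomial TensorProduct

/-- `D` is a derivation of the commutative ring `B`. -/
structure IsDer {B : Type*} [CommRing B] (D : B → B) : Prop where
  add : ∀ a b, D (a + b) = D a + D b
  mul : ∀ a b, D (a * b) = a * D b + b * D a

namespace IsDer

variable {B : Type*} [CommRing B] {D D' : B → B}

theorem zero (h : IsDer D) : D 0 = 0 := by
  have := h.add 0 0
  rw [add_zero] at this
  exact left_eq_add.1 this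

theorem one (h : IsDer D) : D 1 = 0 := by
  have := h.mul 1 1
  rw [one_mul, one_mul] at this
  exact left_eq_add.1 this

theorem neg (h : IsDer D) (a : B) : D (-a) = -D a := by
  have := h.add a (-a)
  rw [add_neg_cancel, h.zero] at this
  exact (neg_eq_of_add_eq_zero_right this.symm).symm

theorem sub (h : IsDer D) (a b : B) : D (a - b) = D a - D b := by
  rw [sub_eq_add_neg, h.add, h.neg, sub_eq_add_neg]

theorem natCast (h : IsDer D) (n : ℕ) : D n = 0 := by
  induction n with
  | zero => rw [Nat.cast_zero, h.zero]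
  | succ n ih => rw [Nat.cast_succ, h.add, ih, h.one, add_zero]

theorem natMul (h : IsDer D) (n : ℕ) (a : B) : D (n * a) = n * D a := by
  rw [h.mul, h.natCast, mul_zero, add_zero]

theorem sum (h : IsDer D) {ι : Type*} (s : Finset ι) (f : ι → B) :
    D (∑ i ∈ s, f i) = ∑ i ∈ s, D (f i) := by
  classical
  induction s using Finset.induction_on with
  | empty => rw [Finset.sum_empty, Finset.sum_empty, h.zero]
  | insert a s ha ih => rw [Finset.sum_insert ha, Finset.sum_insert ha, h.add, ih]

theorem pow (h : IsDer D) (a : B) (n : ℕ) : D (a ^ n) = n * a ^ (n - 1) * D a := by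
  induction n with
  | zero => rw [pow_zero, h.one]; simp
  | succ n ih =>
    rw [pow_succ, h.mul, ih]
    rcases Nat.eq_zero_or_pos n with h0 | h0
    · subst h0; simp
    · obtain ⟨m, rfl⟩ : ∃ m, n = m + 1 := ⟨n - 1, by omega⟩
      simp only [Nat.add_sub_cancel]
      push_cast
      ring

/-- the difference of two derivations -/
theorem sub_der (h : IsDer D) (h' : IsDer D') : IsDer (fun a => D a - D' a) :=
  ⟨fun a b => by rw [h.add, h'.add]; ring, fun a b => by rw [h.mul, h'.mul]; ring⟩

/-- the commutator of two derivations -/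
theorem comm_der (h : IsDer D) (h' : IsDer D') : IsDer (fun a => D (D' a) - D' (D a)) :=
  ⟨fun a b => by rw [h'.add, h.add, h.add, h'.add]; ring,
    fun a b => by rw [h'.mul, h.add, h.mul, h.mul, h.mul, h'.add, h'.mul, h'.mul]; ring⟩

end IsDer

/-- the derivative of the value of a polynomial with constant coefficients -/
theorem der_eval {B : Type*} [Field B] {E : B → B} (hE : IsDer E) (b : B) (g : B[X])
    (h : ∀ i, E (g.coeff i) = 0) : E (g.eval b) = g.derivative.eval b * E b := by
  rw [eval_eq_sum, derivative_eval, Polynomial.sum, Polynomial.sum, hE.sum, Finset.sum_mul]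
  refine Finset.sum_congr rfl fun i _ => ?_
  rw [hE.mul, h i, hE.pow]
  ring

/-- elements which are algebraic over the constants of a derivation are constants -/
theorem der_eq_zero_of_root {B : Type*} [Field B] [CharZero B] {E : B → B} (hE : IsDer E) (b : B) :
    ∀ (n : ℕ) (g : B[X]), g.natDegree ≤ n → g ≠ 0 → (∀ i, E (g.coeff i) = 0) → g.eval b = 0 →
      E b = 0 := by
  intro n
  induction n with
  | zero =>
    intro g hg hg0 _ hb
    exfalso
    rw [eq_C_of_natDegree_eq_zero (Nat.le_zero.1 hg), eval_C] at hb
    apply hg0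
    rw [eq_C_of_natDegree_eq_zero (Nat.le_zero.1 hg), hb, C_0]
  | succ n ih =>
    intro g hg hg0 hc hb
    have h1 := der_eval hE b g hc
    rw [hb, hE.zero] at h1
    by_cases h2 : g.derivative.eval b = 0
    · by_cases h3 : g.derivative = 0
      · exfalso
        have h4 := derivative_eq_zero.1 h3
        rw [eq_C_of_natDegree_eq_zero h4, eval_C] at hb
        apply hg0
        rw [eq_C_of_natDegree_eq_zero h4, hb, C_0]
      · refine ih g.derivative ?_ h3 ?_ h2
        · exact (natDegree_derivative_le g).trans (by omega)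
        · intro i
          rw [coeff_derivative, hE.mul, hc]
          have h5 : E ((i : B) + 1) = 0 := by
            have := hE.natCast (i + 1)
            push_cast at this
            exact this
          rw [h5]
          simp
    · rcases mul_eq_zero.1 h1.symm with h | h
      · exact absurd h h2
      · exact h

/-- extension of derivations along formally étale maps -/
theorem ext_aux {S B : Type*} [CommRing S] [Field B] [Algebra S B] [Algebra.FormallyEtale S B]
    (d : S → B) (hadd : ∀ a b, d (a + b) = d a + d b)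
    (hmul : ∀ a b, d (a * b) = algebraMap S B a * d b + algebraMap S B b * d a) :
    ∃ D : B → B, IsDer D ∧ ∀ s, D (algebraMap S B s) = d s := by
  let D0 : Derivation ℤ S B :=
    Derivation.mk' (AddMonoidHom.mk' d hadd).toIntLinearMap (by
      intro f g
      change d (f * g) = f • d g + g • d f
      rw [hmul, Algebra.smul_def, Algebra.smul_def])
  let L : B ⊗[S] (Ω[S⁄ℤ]) →ₗ[B] B := LinearMap.liftBaseChange B D0.liftKaehlerDifferential
  let D : B → B := fun b => L ((KaehlerDifferential.tensorKaehlerEquivOfFormallyEtale ℤ S B).symm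
    (KaehlerDifferential.D ℤ B b))
  refine ⟨D, ⟨fun a b => ?_, fun a b => ?_⟩, fun s => ?_⟩
  · simp only [D, map_add]
  · simp only [D, Derivation.leibniz, map_add, map_smul, smul_eq_mul]
  · simp only [D, L]
    rw [KaehlerDifferential.tensorKaehlerEquivOfFormallyEtale_symm_D_algebraMap]
    rw [LinearMap.liftBaseChange_tmul, one_smul, Derivation.liftKaehlerDifferential_comp_D]
    rfl

section

variable (K σ : Type) [Field K]

/-- the algebraic closure of the field of rational functions -/
abbrev BB := AlgebraicClosure (FractionRing (MvPolynomial σ K))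

/-- the embedding of the polynomial ring -/
noncomputable def emb : MvPolynomial σ K →+* BB K σ := algebraMap _ _

theorem emb_injective : Function.Injective (emb K σ) := by
  have h : (emb K σ) = (algebraMap (FractionRing (MvPolynomial σ K)) (BB K σ)).comp
      (algebraMap (MvPolynomial σ K) (FractionRing (MvPolynomial σ K))) :=
    IsScalarTower.algebraMap_eq _ _ _
  rw [h]
  exact (algebraMap (FractionRing (MvPolynomial σ K)) (BB K σ)).injective.comp
    (IsFractionRing.injective _ _)

variable {K σ}

theorem charZero_BB [CharZero K] : CharZero (BB K σ) :=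
  charZero_of_injective_algebraMap (algebraMap K (BB K σ)).injective

theorem root_of (b : BB K σ) : ∃ g : (MvPolynomial σ K)[X], g ≠ 0 ∧
    (g.map (emb K σ)).eval b = 0 := by
  have h : Algebra.IsAlgebraic (MvPolynomial σ K) (BB K σ) := by
    have h1 : Algebra.IsAlgebraic (MvPolynomial σ K) (FractionRing (MvPolynomial σ K)) :=
      IsLocalization.isAlgebraic _ (nonZeroDivisors (MvPolynomial σ K))
    exact Algebra.IsAlgebraic.trans (MvPolynomial σ K) (FractionRing (MvPolynomial σ K)) (BB K σ)
  obtain ⟨g, hg, hb⟩ := h.isAlgebraic b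
  refine ⟨g, hg, ?_⟩
  rw [eval_map]
  exact hb

/-- a derivation which vanishes on the constants and the variables vanishes on polynomials -/
theorem der_poly {E : BB K σ → BB K σ} (hE : IsDer E)
    (hK : ∀ a : K, E (emb K σ (MvPolynomial.C a)) = 0) (f : MvPolynomial σ K)
    (hX : ∀ i ∈ f.vars, E (emb K σ (MvPolynomial.X i)) = 0) : E (emb K σ f) = 0 := by
  rw [f.as_sum, map_sum, hE.sum]
  refine Finset.sum_eq_zero fun m hm => ?_
  have h1 : ∀ s : Finset σ, (∀ i ∈ s, i ∈ f.vars) →
      E (emb K σ (∏ i ∈ s, MvPolynomial.X i ^ m i)) = 0 := by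
    classical
    intro s
    induction s using Finset.induction_on with
    | empty => intro _; rw [Finset.prod_empty, map_one, hE.one]
    | insert a s ha ih =>
      intro hs
      rw [Finset.prod_insert ha, map_mul, hE.mul, ih (fun i hi => hs i (Finset.mem_insert_of_mem hi)),
        map_pow, hE.pow, hX a (hs a (Finset.mem_insert_self a s))]
      simp
  rw [MvPolynomial.monomial_eq, map_mul, hE.mul, hK, Finsupp.prod, h1]
  · simp
  · intro i hi
    exact (MvPolynomial.mem_vars_iff_mem_support i).2 ⟨m, hm, hi⟩

/-- a derivation which vanishes on the polynomial ring is zero -/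
theorem der_unique [CharZero K] {E : BB K σ → BB K σ} (hE : IsDer E)
    (hK : ∀ a : K, E (emb K σ (MvPolynomial.C a)) = 0) (hX : ∀ i, E (emb K σ (MvPolynomial.X i)) = 0)
    (b : BB K σ) : E b = 0 := by
  have : CharZero (BB K σ) := charZero_BB
  obtain ⟨g, hg, hb⟩ := root_of b
  refine der_eq_zero_of_root hE b _ (g.map (emb K σ)) le_rfl ?_ ?_ hb
  · rwa [ne_eq, Polynomial.map_eq_zero_iff (emb_injective K σ)]
  · intro i
    rw [coeff_map]
    exact der_poly hE hK _ fun i _ => hX i

/-- the ring homomorphism given by a derivation -/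
noncomputable def tsz {δ : K → K} (hδ : IsDer δ) : K →+* TrivSqZeroExt (BB K σ) (BB K σ) where
  toFun a := (emb K σ (MvPolynomial.C a), emb K σ (MvPolynomial.C (δ a)))
  map_one' := by
    refine TrivSqZeroExt.ext ?_ ?_
    · change emb K σ (MvPolynomial.C 1) = 1
      simp
    · change emb K σ (MvPolynomial.C (δ 1)) = 0
      simp [hδ.one]
  map_zero' := by
    refine TrivSqZeroExt.ext ?_ ?_
    · change emb K σ (MvPolynomial.C 0) = 0
      simp
    · change emb K σ (MvPolynomial.C (δ 0)) = 0
      simp [hδ.zero]
  map_add' a b := by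
    refine TrivSqZeroExt.ext ?_ ?_
    · change emb K σ (MvPolynomial.C (a + b)) = emb K σ (MvPolynomial.C a) + emb K σ (MvPolynomial.C b)
      simp
    · change emb K σ (MvPolynomial.C (δ (a + b))) = emb K σ (MvPolynomial.C (δ a)) + emb K σ (MvPolynomial.C (δ b))
      simp [hδ.add]
  map_mul' a b := by
    refine TrivSqZeroExt.ext ?_ ?_
    · change emb K σ (MvPolynomial.C (a * b)) = emb K σ (MvPolynomial.C a) * emb K σ (MvPolynomial.C b)
      simp
    · change emb K σ (MvPolynomial.C (δ (a * b))) = emb K σ (MvPolynomial.C a) * emb K σ (MvPolynomial.C (δ b)) +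
        emb K σ (MvPolynomial.C (δ a)) * emb K σ (MvPolynomial.C b)
      rw [hδ.mul]
      simp only [map_add, map_mul]
      ring

/-- **Extension of derivations.** -/
theorem exists_ext [CharZero K] {δ : K → K} (hδ : IsDer δ) (m : σ → BB K σ) :
    ∃ D : BB K σ → BB K σ, IsDer D ∧
      (∀ a : K, D (emb K σ (MvPolynomial.C a)) = emb K σ (MvPolynomial.C (δ a))) ∧
      ∀ i, D (emb K σ (MvPolynomial.X i)) = m i := by
  have : CharZero (FractionRing (MvPolynomial σ K)) :=
    charZero_of_injective_algebraMap (algebraMap K (FractionRing (MvPolynomial σ K))).injective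
  obtain ⟨v, hv⟩ : ∃ v : σ → TrivSqZeroExt (BB K σ) (BB K σ),
      ∀ i, (v i).fst = emb K σ (MvPolynomial.X i) ∧ (v i).snd = m i :=
    ⟨fun i => TrivSqZeroExt.inl (emb K σ (MvPolynomial.X i)) + TrivSqZeroExt.inr (m i),
      fun i => by simp⟩
  obtain ⟨ψ, hψ⟩ : ∃ ψ : MvPolynomial σ K →+* TrivSqZeroExt (BB K σ) (BB K σ),
      ψ = MvPolynomial.eval₂Hom (tsz hδ) v := ⟨_, rfl⟩
  have hC : ∀ a, ψ (MvPolynomial.C a) = tsz hδ a := by
    intro a; rw [hψ, MvPolynomial.eval₂Hom_C]
  have hXX : ∀ i, ψ (MvPolynomial.X i) = v i := by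
    intro a; rw [hψ, MvPolynomial.eval₂Hom_X']
  have hfst : ∀ f, (ψ f).fst = emb K σ f := by
    intro f
    induction f using MvPolynomial.induction_on with
    | C a => rw [hC]; rfl
    | add p q hp hq => rw [map_add, TrivSqZeroExt.fst_add, hp, hq, map_add]
    | mul_X p i hp =>
      rw [map_mul, TrivSqZeroExt.fst_mul, hp, map_mul, hXX, (hv i).1]
  have h1 : Algebra.FormallyEtale (MvPolynomial σ K) (FractionRing (MvPolynomial σ K)) :=
    Algebra.FormallyEtale.of_isLocalization (nonZeroDivisors (MvPolynomial σ K))
  have h2 : Algebra.FormallyEtale (FractionRing (MvPolynomial σ K)) (BB K σ) :=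
    Algebra.FormallyEtale.of_isSeparable _ _
  have h3 : Algebra.FormallyEtale (MvPolynomial σ K) (BB K σ) :=
    Algebra.FormallyEtale.comp (MvPolynomial σ K) (FractionRing (MvPolynomial σ K)) (BB K σ)
  obtain ⟨D, hD, hs⟩ := ext_aux (S := MvPolynomial σ K) (B := BB K σ) (fun f => (ψ f).snd)
    (fun f g => by rw [map_add, TrivSqZeroExt.snd_add])
    (fun f g => by
      rw [map_mul, TrivSqZeroExt.snd_mul, hfst, hfst]
      simp only [MulOpposite.smul_eq_mul_unop, MulOpposite.unop_op]
      change emb K σ f * _ + _ * emb K σ g = emb K σ f * _ + emb K σ g * _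
      ring)
  refine ⟨D, hD, fun a => ?_, fun i => ?_⟩
  · refine (hs _).trans ?_
    rw [hC]; rfl
  · refine (hs _).trans ?_
    rw [hXX, (hv i).2]

end

end Pool.Agent.Q22.AC
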