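import Mathlib
import Pool.Agent.Results.MP_4b1745_al.OneVariable

/-!
# Generalized polynomial identities of division rings of infinite dimension over the centre
-/

namespace Pool.Agent.Q22.AC.Gpi

open TensorProduct Finset
open Pool.Agent.Results.MP_4b1745_al.OneVariable (FreeOver evalAt const var induct lift_const lift_var)

section mu

variable (P D : Type) [Field P] [Ring D] [Algebra P D]

/-- the elementary operators -/
noncomputable def mu : D ⊗[P] D →ₗ[P] D →ₗ[P] D :=
  TensorProduct.lift (LinearMap.mk₂ P (fun a b => (LinearMap.mulRight P b).comp (LinearMap.mulLeft P a))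
    (fun a a' b => by ext u; simp [add_mul])
    (fun c a b => by ext u; simp)
    (fun a b b' => by ext u; simp [mul_add])
    (fun c a b => by ext u; simp))

variable {P D}

theorem mu_tmul (a b u : D) : mu P D (a ⊗ₜ b) u = a * u * b := by
  simp [mu]

/-- the slice by a functional -/
noncomputable def sl {M : Type} [AddCommGroup M] [Module P M] (φ : D →ₗ[P] P) : M ⊗[P] D →ₗ[P] M :=
  (TensorProduct.rid P M).toLinearMap.comp (LinearMap.lTensor M φ)

theorem sl_tmul {M : Type} [AddCommGroup M] [Module P M] (φ : D →ₗ[P] P) (m : M) (b : D) :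
    sl φ (m ⊗ₜ[P] b) = φ b • m := by
  simp [sl]

/-- an element all of whose slices vanish is zero -/
theorem slices {M : Type} [AddCommGroup M] [Module P M] (τ : M ⊗[P] D)
    (h : ∀ φ : D →ₗ[P] P, sl φ τ = 0) : τ = 0 := by
  classical
  have B := Module.Basis.ofVectorSpace P D
  obtain ⟨b, rfl⟩ := TensorProduct.eq_repr_basis_right B τ
  have hb : b = 0 := by
    ext i
    have h1 := h (B.coord i)
    rw [Finsupp.sum, map_sum] at h1
    by_cases hi : i ∈ b.support
    · rw [sum_eq_single i] at h1
      · rw [sl_tmul, Module.Basis.coord_apply, Module.Basis.repr_self, Finsupp.single_eq_same, one_smul] at h1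
        exact h1
      · intro j _ hj
        rw [sl_tmul, Module.Basis.coord_apply, Module.Basis.repr_self, Finsupp.single_eq_of_ne hj.symm,
          zero_smul]
      · intro h2
        exact absurd hi h2
    · exact Finsupp.notMem_support_iff.1 hi
  rw [hb, Finsupp.sum_zero_index]

variable (hdiv : ∀ x : D, x ≠ 0 → ∃ y, y * x = 1 ∧ x * y = 1)
  (hcen : ∀ x : D, (∀ y, x * y = y * x) → ∃ c : P, algebraMap P D c = x)
  (hinf : ¬ Module.Finite P D)

include hdiv hcen hinf

/-- elementary operators of finite rank are zero -/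
theorem finite_rank [DecidableEq D] {ι : Type} (b : ι → D) (hb : LinearIndependent P b) :
    ∀ (s : Finset ι) (a : ι → D) (V : Submodule P D), Module.Finite P V →
      (∀ u, ∑ i ∈ s, a i * u * b i ∈ V) → ∀ i ∈ s, a i = 0 := by
  classical
  intro s
  induction s using Finset.strongInduction with
  | H s ih =>
    intro a V hV h i0 hi0
    by_contra ha
    obtain ⟨c, hc, -⟩ := hdiv _ ha
    let V' : Submodule P D := V.map (LinearMap.mulLeft P c)
    have hV' : Module.Finite P V' := Module.Finite.map V _
    have h' : ∀ u, ∑ i ∈ s, (c * a i) * u * b i ∈ V' := by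
      intro u
      refine ⟨_, h u, ?_⟩
      rw [LinearMap.mulLeft_apply, mul_sum]
      refine sum_congr rfl fun i _ => ?_
      simp only [mul_assoc]
    have hcomm : ∀ r : D, ∀ i ∈ s, r * (c * a i) = (c * a i) * r := by
      intro r i hi
      by_cases hii : i = i0
      · rw [hii, hc, mul_one, one_mul]
      · let V'' : Submodule P D := V'.map (LinearMap.mulLeft P r) ⊔ V'
        have hV'' : Module.Finite P V'' := by
          have := Module.Finite.map V' (LinearMap.mulLeft P r)
          exact Submodule.finite_sup _ _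
        have h2 := ih (s.erase i0) (erase_ssubset hi0) (fun i => r * (c * a i) - (c * a i) * r) V'' hV'' (by
          intro u
          have h3 : ∑ i ∈ s.erase i0, (r * (c * a i) - (c * a i) * r) * u * b i =
              r * (∑ i ∈ s, (c * a i) * u * b i) - ∑ i ∈ s, (c * a i) * (r * u) * b i := by
            rw [mul_sum, ← sum_sub_distrib, ← add_sum_erase s _ hi0]
            have h4 : r * (c * a i0 * u * b i0) - c * a i0 * (r * u) * b i0 = 0 := by
              rw [hc, one_mul, one_mul, mul_assoc, sub_self]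
            rw [h4, zero_add]
            refine sum_congr rfl fun i _ => ?_
            noncomm_ring
          rw [h3]
          refine Submodule.sub_mem _ ?_ ?_
          · exact Submodule.mem_sup_left ⟨_, h' u, rfl⟩
          · exact Submodule.mem_sup_right (h' (r * u))) i (mem_erase.2 ⟨hii, hi⟩)
        exact sub_eq_zero.1 h2
    have hp : ∀ i ∈ s, ∃ p : P, algebraMap P D p = c * a i := fun i hi =>
      hcen _ fun y => (hcomm y i hi).symm
    choose! p hp using hp
    obtain ⟨β, hβ⟩ : ∃ β : D, β = ∑ i ∈ s, p i • b i := ⟨_, rfl⟩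
    have hβ0 : β ≠ 0 := by
      intro h0
      have h1 := (linearIndependent_iff'.1 hb) s p (hβ ▸ h0) i0 hi0
      have h2 := hp i0 hi0
      rw [h1, map_zero, hc] at h2
      have h3 : a i0 = 0 := by rw [← mul_one (a i0), ← h2, mul_zero]
      exact ha h3
    have hu : ∀ u : D, u * β ∈ V' := by
      intro u
      have h1 := h' u
      have h2 : ∑ i ∈ s, (c * a i) * u * b i = u * β := by
        rw [hβ, mul_sum]
        refine sum_congr rfl fun i hi => ?_
        rw [← hp i hi, Algebra.commutes, mul_assoc, mul_smul_comm, ← Algebra.smul_def, mul_smul_comm]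
      rwa [h2] at h1
    obtain ⟨β', -, hβ'⟩ := hdiv β hβ0
    obtain ⟨β'', hβ'', -⟩ := hdiv β hβ0
    apply hinf
    have hsurj : Function.Surjective ((LinearMap.mulRight P β').domRestrict V') := by
      intro u
      refine ⟨⟨u * β, hu u⟩, ?_⟩
      rw [LinearMap.domRestrict_apply, LinearMap.mulRight_apply, mul_assoc, hβ', mul_one]
    exact Module.Finite.of_surjective _ hsurj

theorem mu_finite_rank (τ : D ⊗[P] D) (V : Submodule P D) (hV : Module.Finite P V)
    (h : ∀ u, mu P D τ u ∈ V) : τ = 0 := by
  classical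
  have B := Module.Basis.ofVectorSpace P D
  obtain ⟨b, rfl⟩ := TensorProduct.eq_repr_basis_right B τ
  have h1 := finite_rank hdiv hcen hinf B B.linearIndependent b.support b V hV (by
    intro u
    have := h u
    rw [Finsupp.sum, map_sum, LinearMap.sum_apply] at this
    simpa only [mu_tmul] using this)
  rw [Finsupp.sum]
  refine sum_eq_zero fun i hi => ?_
  rw [h1 i hi, zero_tmul]

theorem mu_injective (τ : D ⊗[P] D) (h : ∀ u, mu P D τ u = 0) : τ = 0 :=
  mu_finite_rank hdiv hcen hinf τ ⊥ inferInstance fun u => by rw [h u]; exact Submodule.zero_mem _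

omit hdiv hcen hinf

/-- the substitution of `u` in the first two factors -/
noncomputable def U1 (u : D) : (D ⊗[P] D) ⊗[P] D →ₗ[P] D ⊗[P] D :=
  LinearMap.rTensor D ((mu P D).flip u)

theorem U1_tmul (u : D) (τ : D ⊗[P] D) (s : D) : U1 u (τ ⊗ₜ[P] s) = (mu P D τ u) ⊗ₜ[P] s := by
  simp [U1]

/-- the substitution of `u` in the last two factors -/
noncomputable def U2 (u : D) : D ⊗[P] (D ⊗[P] D) →ₗ[P] D ⊗[P] D :=
  LinearMap.lTensor D ((mu P D).flip u)

theorem U2_tmul (u : D) (p : D) (τ : D ⊗[P] D) : U2 u (p ⊗ₜ[P] τ) = p ⊗ₜ[P] (mu P D τ u) := by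
  simp [U2]

/-- `a u b w s` -/
noncomputable def G1 (α : (D ⊗[P] D) ⊗[P] D) (u w : D) : D := mu P D (U1 u α) w

/-- `p w a u b` -/
noncomputable def G2 (β : D ⊗[P] (D ⊗[P] D)) (u w : D) : D := mu P D (U2 u β) w

theorem sl_U2 (φ : D →ₗ[P] P) (β : D ⊗[P] (D ⊗[P] D)) :
    ∃ V : Submodule P D, Module.Finite P V ∧ ∀ u, sl φ (U2 u β) ∈ V := by
  induction β using TensorProduct.induction_on with
  | zero => exact ⟨⊥, inferInstance, fun u => by rw [map_zero, map_zero]; exact Submodule.zero_mem _⟩
  | tmul p τ =>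
    refine ⟨Submodule.span P {p}, inferInstance, fun u => ?_⟩
    rw [U2_tmul, sl_tmul]
    exact Submodule.smul_mem _ _ (Submodule.mem_span_singleton_self p)
  | add x y hx hy =>
    obtain ⟨V, hV, h1⟩ := hx
    obtain ⟨W, hW, h2⟩ := hy
    refine ⟨V ⊔ W, Submodule.finite_sup _ _, fun u => ?_⟩
    rw [map_add, map_add]
    exact Submodule.add_mem _ (Submodule.mem_sup_left (h1 u)) (Submodule.mem_sup_right (h2 u))

theorem mu_sl (φ : D →ₗ[P] P) (α : (D ⊗[P] D) ⊗[P] D) (u : D) :
    mu P D (sl φ α) u = sl φ (U1 u α) := by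
  induction α using TensorProduct.induction_on with
  | zero => simp
  | tmul τ s => rw [U1_tmul, sl_tmul, sl_tmul, map_smul, LinearMap.smul_apply]
  | add x y hx hy => rw [map_add, map_add, LinearMap.add_apply, hx, hy, map_add, map_add]

include hdiv hcen hinf

/-- **separation of the two orders** -/
theorem separate (α : (D ⊗[P] D) ⊗[P] D) (β : D ⊗[P] (D ⊗[P] D))
    (h : ∀ u w, G1 α u w + G2 β u w = 0) : α = 0 := by
  apply slices
  intro φ
  obtain ⟨V, hV, hβ⟩ := sl_U2 φ β
  refine mu_finite_rank hdiv hcen hinf _ V hV fun u => ?_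
  have h1 : U1 u α + U2 u β = 0 := by
    apply mu_injective hdiv hcen hinf
    intro w
    rw [map_add, LinearMap.add_apply]
    exact h u w
  have h3 : sl φ (U1 u α) = -sl φ (U2 u β) := by
    rw [eq_neg_iff_add_eq_zero, ← map_add, h1, map_zero]
  rw [mu_sl, h3]
  exact Submodule.neg_mem _ (hβ u)

omit hdiv hcen hinf

theorem mu_rmul (c : D) (ε : D ⊗[P] D) (u : D) :
    mu P D (LinearMap.lTensor D (LinearMap.mulRight P c) ε) u = mu P D ε u * c := by
  induction ε using TensorProduct.induction_on with
  | zero => simp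
  | tmul a b => rw [LinearMap.lTensor_tmul, mu_tmul, mu_tmul, LinearMap.mulRight_apply, mul_assoc (a * u)]
  | add x y hx hy => rw [map_add, map_add, LinearMap.add_apply, hx, hy, map_add, LinearMap.add_apply, add_mul]

theorem G1_add (α α' : (D ⊗[P] D) ⊗[P] D) (u w : D) : G1 (α + α') u w = G1 α u w + G1 α' u w := by
  rw [G1, map_add, map_add, LinearMap.add_apply]; rfl

theorem G2_add (α α' : D ⊗[P] (D ⊗[P] D)) (u w : D) : G2 (α + α') u w = G2 α u w + G2 α' u w := by
  rw [G2, map_add, map_add, LinearMap.add_apply]; rfl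

theorem G1_zero (u w : D) : G1 (0 : (D ⊗[P] D) ⊗[P] D) u w = 0 := by
  rw [G1, map_zero, map_zero, LinearMap.zero_apply]

theorem G2_zero (u w : D) : G2 (0 : D ⊗[P] (D ⊗[P] D)) u w = 0 := by
  rw [G2, map_zero, map_zero, LinearMap.zero_apply]

theorem G1_sum {ι : Type} (s : Finset ι) (α : ι → (D ⊗[P] D) ⊗[P] D) (u w : D) :
    G1 (∑ i ∈ s, α i) u w = ∑ i ∈ s, G1 (α i) u w := by
  classical
  induction s using Finset.induction_on with
  | empty => rw [sum_empty, sum_empty, G1_zero]
  | insert b s hb ih => rw [sum_insert hb, sum_insert hb, G1_add, ih]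

theorem G2_sum {ι : Type} (s : Finset ι) (β : ι → D ⊗[P] (D ⊗[P] D)) (u w : D) :
    G2 (∑ i ∈ s, β i) u w = ∑ i ∈ s, G2 (β i) u w := by
  classical
  induction s using Finset.induction_on with
  | empty => rw [sum_empty, sum_empty, G2_zero]
  | insert b s hb ih => rw [sum_insert hb, sum_insert hb, G2_add, ih]

theorem G1_smul (c : P) (α : (D ⊗[P] D) ⊗[P] D) (u w : D) : G1 (c • α) u w = c • G1 α u w := by
  rw [G1, map_smul, map_smul, LinearMap.smul_apply]; rfl

theorem G1_tmul (ε : D ⊗[P] D) (s u w : D) : G1 (ε ⊗ₜ[P] s) u w = mu P D ε u * w * s := by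
  rw [G1, U1_tmul, mu_tmul]

theorem G1_rmul (c : D) (α : (D ⊗[P] D) ⊗[P] D) (u w : D) :
    G1 (LinearMap.lTensor (D ⊗[P] D) (LinearMap.mulRight P c) α) u w = G1 α u w * c := by
  induction α using TensorProduct.induction_on with
  | zero => rw [map_zero, G1_zero, zero_mul]
  | tmul τ s => rw [LinearMap.lTensor_tmul, G1_tmul, G1_tmul, LinearMap.mulRight_apply, mul_assoc (mu P D τ u * w)]
  | add x y hx hy => rw [map_add, G1_add, hx, hy, G1_add, add_mul]

theorem G2_tmul (p : D) (ε : D ⊗[P] D) (u w : D) : G2 (p ⊗ₜ[P] ε) u w = p * w * mu P D ε u := by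
  rw [G2, U2_tmul, mu_tmul]

theorem G2_rmul (c : D) (β : D ⊗[P] (D ⊗[P] D)) (u w : D) :
    G2 (LinearMap.lTensor D (LinearMap.lTensor D (LinearMap.mulRight P c)) β) u w = G2 β u w * c := by
  induction β using TensorProduct.induction_on with
  | zero => rw [map_zero, G2_zero, zero_mul]
  | tmul p ε => rw [LinearMap.lTensor_tmul, G2_tmul, G2_tmul, mu_rmul, mul_assoc (p * w)]
  | add x y hx hy => rw [map_add, G2_add, hx, hy, G2_add, add_mul]

theorem G2_assoc (ε : D ⊗[P] D) (s u w : D) :
    G2 (TensorProduct.assoc P D D D (ε ⊗ₜ[P] s)) u w = mu P D ε w * u * s := by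
  induction ε using TensorProduct.induction_on with
  | zero => rw [zero_tmul, map_zero, G2_zero, map_zero, LinearMap.zero_apply, zero_mul, zero_mul]
  | tmul a b =>
    rw [TensorProduct.assoc_tmul, G2_tmul, mu_tmul, mu_tmul]
    noncomm_ring
  | add x y hx hy => rw [add_tmul, map_add, G2_add, hx, hy, map_add, LinearMap.add_apply, add_mul, add_mul]

/-! ### words -/

variable (P) in
/-- the word `a x s_1 x ⋯ x s_l` (the list is reversed) -/
noncomputable def toF (a : D) : List D → FreeOver P D Unit
  | [] => const P D Unit a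
  | s :: t => toF a t * var P D Unit () * const P D Unit s

/-- the value of a word -/
def va (a : D) : List D → D → D
  | [], _ => a
  | s :: t, z => va a t z * z * s

/-- weighted linearisation -/
def EE (c : ℕ → P) (a : D) : List D → D → D → D
  | [], _, _ => 0
  | s :: t, z, w => EE c a t z w * z * s + c t.length • (va a t z * w * s)

/-- second linearisation, `u` before `w` -/
def L1 (c : ℕ → P) (a : D) : List D → D → D → D → D
  | [], _, _, _ => 0
  | s :: t, z, u, w => L1 c a t z u w * z * s + c t.length • (EE (fun _ => (1 : P)) a t z u * w * s)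

/-- second linearisation, `w` before `u` -/
def L2 (c : ℕ → P) (a : D) : List D → D → D → D → D
  | [], _, _, _ => 0
  | s :: t, z, u, w => L2 c a t z u w * z * s + EE c a t z w * u * s

theorem eval_toF (a : D) (t : List D) (z : D) : evalAt (fun _ => z) (toF P a t) = va a t z := by
  induction t with
  | nil => rw [toF, evalAt, lift_const]; rfl
  | cons s t ih => rw [toF, map_mul, map_mul, ih, evalAt, lift_var, lift_const]; rfl

theorem va_smul (c : P) (a : D) (t : List D) (z : D) : va (c • a) t z = c • va a t z := by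
  induction t with
  | nil => rfl
  | cons s t ih => rw [va, ih, va, smul_mul_assoc, smul_mul_assoc]

theorem toF_smul (c : P) (a : D) (t : List D) : toF P (c • a) t = c • toF P a t := by
  induction t with
  | nil => rw [toF, toF, map_smul]
  | cons s t ih => rw [toF, ih, toF, smul_mul_assoc, smul_mul_assoc]

theorem EE_one_self (a : D) (t : List D) (z : D) : EE (fun _ => (1 : P)) a t z z = (t.length : P) • va a t z := by
  induction t with
  | nil => simp [EE]
  | cons s t ih =>
    rw [EE, ih, va, List.length_cons]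
    push_cast
    rw [add_smul, smul_mul_assoc, smul_mul_assoc]

theorem L1_self (c : ℕ → P) (a : D) (t : List D) (z w : D) :
    L1 c a t z z w = EE (fun j => c j * j) a t z w := by
  induction t with
  | nil => rfl
  | cons s t ih =>
    rw [L1, EE, ih, EE_one_self, smul_mul_assoc, smul_mul_assoc, smul_smul]

theorem EE_add (c c' : ℕ → P) (a : D) (t : List D) (z w : D) :
    EE (fun j => c j + c' j) a t z w = EE c a t z w + EE c' a t z w := by
  induction t with
  | nil => simp [EE]
  | cons s t ih => rw [EE, EE, EE, ih, add_smul]; noncomm_ring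

theorem EE_smul (r : P) (c : ℕ → P) (a : D) (t : List D) (z w : D) :
    EE (fun j => r * c j) a t z w = r • EE c a t z w := by
  induction t with
  | nil => simp [EE]
  | cons s t ih => rw [EE, EE, ih, smul_add, smul_mul_assoc, smul_mul_assoc, smul_smul]

theorem EE_zero (c : ℕ → P) (a : D) (t : List D) (h : ∀ j < t.length, c j = 0) (z w : D) :
    EE c a t z w = 0 := by
  induction t with
  | nil => rfl
  | cons s t ih =>
    rw [EE, ih (fun j hj => h j (hj.trans (by simp))), h t.length (by simp), zero_smul, zero_mul, zero_mul,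
      add_zero]

theorem exists_EE (c : ℕ → P) (a : D) (t : List D) (z : D) :
    ∃ ε : D ⊗[P] D, ∀ u, EE c a t z u = mu P D ε u := by
  induction t with
  | nil => exact ⟨0, fun u => by simp [EE]⟩
  | cons s t ih =>
    obtain ⟨ε, hε⟩ := ih
    refine ⟨LinearMap.lTensor D (LinearMap.mulRight P (z * s)) ε + c t.length • (va a t z ⊗ₜ[P] s), fun u => ?_⟩
    rw [map_add, LinearMap.add_apply, mu_rmul, map_smul, LinearMap.smul_apply, mu_tmul, EE, hε, mul_assoc]

theorem exists_L1 (c : ℕ → P) (a : D) (t : List D) (z : D) :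
    ∃ α : (D ⊗[P] D) ⊗[P] D, ∀ u w, L1 c a t z u w = G1 α u w := by
  induction t with
  | nil => exact ⟨0, fun u w => by rw [G1_zero]; rfl⟩
  | cons s t ih =>
    obtain ⟨α, hα⟩ := ih
    obtain ⟨ε, hε⟩ := exists_EE (fun _ => (1 : P)) a t z
    refine ⟨LinearMap.lTensor (D ⊗[P] D) (LinearMap.mulRight P (z * s)) α + c t.length • (ε ⊗ₜ[P] s),
      fun u w => ?_⟩
    rw [G1_add, G1_rmul, G1_smul, G1_tmul, L1, hα, hε, mul_assoc]

theorem exists_L2 (c : ℕ → P) (a : D) (t : List D) (z : D) :
    ∃ β : D ⊗[P] (D ⊗[P] D), ∀ u w, L2 c a t z u w = G2 β u w := by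
  induction t with
  | nil => exact ⟨0, fun u w => by rw [G2_zero]; rfl⟩
  | cons s t ih =>
    obtain ⟨β, hβ⟩ := ih
    obtain ⟨ε, hε⟩ := exists_EE c a t z
    refine ⟨LinearMap.lTensor D (LinearMap.lTensor D (LinearMap.mulRight P (z * s))) β +
      TensorProduct.assoc P D D D (ε ⊗ₜ[P] s), fun u w => ?_⟩
    rw [G2_add, G2_rmul, G2_assoc, L2, hβ, hε, mul_assoc]

/-! ### jets -/

/-- `g` is a polynomial with the first two coefficients `v0` and `v1` -/
def IsJet (g : ℕ → D) (v0 v1 : D) : Prop :=
  ∃ p : Polynomial D, p.coeff 0 = v0 ∧ p.coeff 1 = v1 ∧ ∀ n : ℕ, g n = p.eval (n : D)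

theorem IsJet.const (a : D) : IsJet (fun _ => a) a 0 :=
  ⟨Polynomial.C a, by simp, by simp, fun n => by simp⟩

theorem IsJet.lin (z w : D) : IsJet (fun n => z + n * w) z w :=
  ⟨Polynomial.C z + Polynomial.C w * Polynomial.X, by simp, by simp, fun n => by
    simp only [Polynomial.eval_add, Polynomial.eval_C, Polynomial.eval_mul_X, (Nat.cast_commute n w).eq]⟩

theorem IsJet.add {g h : ℕ → D} {v0 v1 w0 w1 : D} (hg : IsJet g v0 v1) (hh : IsJet h w0 w1) :
    IsJet (fun n => g n + h n) (v0 + w0) (v1 + w1) := by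
  obtain ⟨p, h0, h1, h2⟩ := hg
  obtain ⟨q, k0, k1, k2⟩ := hh
  exact ⟨p + q, by rw [Polynomial.coeff_add, h0, k0], by rw [Polynomial.coeff_add, h1, k1],
    fun n => by simp only [Polynomial.eval_add, h2, k2]⟩

theorem IsJet.mul {g h : ℕ → D} {v0 v1 w0 w1 : D} (hg : IsJet g v0 v1) (hh : IsJet h w0 w1) :
    IsJet (fun n => g n * h n) (v0 * w0) (v0 * w1 + v1 * w0) := by
  obtain ⟨p, h0, h1, h2⟩ := hg
  obtain ⟨q, k0, k1, k2⟩ := hh
  refine ⟨p * q, by rw [Polynomial.mul_coeff_zero, h0, k0], by rw [Polynomial.mul_coeff_one, h0, h1, k0, k1],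
    fun n => ?_⟩
  simp only [h2, k2]
  exact (Polynomial.eval₂_mul_noncomm (RingHom.id D) (n : D) fun k => Nat.commute_cast _ n).symm

theorem IsJet.smul {g : ℕ → D} {v0 v1 : D} (c : P) (hg : IsJet g v0 v1) :
    IsJet (fun n => c • g n) (c • v0) (c • v1) := by
  obtain ⟨p, h0, h1, h2⟩ := hg
  refine ⟨c • p, by rw [Polynomial.coeff_smul, h0], by rw [Polynomial.coeff_smul, h1], fun n => ?_⟩
  simp only [h2, Polynomial.eval_smul]

theorem IsJet.sum {ι : Type} (s : Finset ι) (g : ι → ℕ → D) (v0 v1 : ι → D)
    (h : ∀ i ∈ s, IsJet (g i) (v0 i) (v1 i)) :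
    IsJet (fun n => ∑ i ∈ s, g i n) (∑ i ∈ s, v0 i) (∑ i ∈ s, v1 i) := by
  classical
  induction s using Finset.induction_on with
  | empty => simpa using IsJet.const (0 : D)
  | insert a s ha ih =>
    simp only [sum_insert ha]
    exact (h a (mem_insert_self a s)).add (ih fun i hi => h i (mem_insert_of_mem hi))

theorem poly_const [CharZero P] (N : ℕ) (c : ℕ → P) (v : P)
    (h : ∀ n : ℕ, ∑ d ∈ range (N + 1), (n : P) ^ d * c d = v) : ∀ d, 1 ≤ d → d ≤ N → c d = 0 := by
  intro d hd hdN
  obtain ⟨q, hq⟩ : ∃ q : Polynomial P, q = ∑ d ∈ range (N + 1), Polynomial.C (c d) * Polynomial.X ^ d -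
    Polynomial.C v := ⟨_, rfl⟩
  have h0 : q = 0 := by
    refine Polynomial.eq_zero_of_infinite_isRoot q ?_
    refine (Set.infinite_range_of_injective (Nat.cast_injective (R := P))).mono ?_
    rintro _ ⟨n, rfl⟩
    rw [Set.mem_ofPred_eq, Polynomial.IsRoot.def, hq, Polynomial.eval_sub, Polynomial.eval_C,
      Polynomial.eval_finsetSum, ← h n, sub_eq_zero]
    refine sum_congr rfl fun d _ => ?_
    rw [Polynomial.eval_mul, Polynomial.eval_C, Polynomial.eval_pow, Polynomial.eval_X, mul_comm]
  have h1 : q.coeff d = c d := by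
    rw [hq, Polynomial.coeff_sub, Polynomial.coeff_C, if_neg (by omega), sub_zero,
      Polynomial.finsetSum_coeff, sum_eq_single d]
    · rw [Polynomial.coeff_C_mul_X_pow, if_pos rfl]
    · intro e _ he
      rw [Polynomial.coeff_C_mul_X_pow, if_neg he.symm]
    · intro he
      rw [mem_range] at he
      omega
  rw [← h1, h0, Polynomial.coeff_zero]

/-- constant polynomials over `D` -/
theorem poly_constD [CharZero P] (N : ℕ) (c : ℕ → D) (v : D)
    (h : ∀ n : ℕ, ∑ d ∈ range (N + 1), ((n : P) ^ d) • c d = v) : ∀ d, 1 ≤ d → d ≤ N → c d = 0 := by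
  intro d hd hdN
  rw [← Module.forall_dual_apply_eq_zero_iff P]
  intro φ
  refine poly_const N (fun d => φ (c d)) (φ v) (fun n => ?_) d hd hdN
  rw [← h n, map_sum]
  refine sum_congr rfl fun d _ => ?_
  rw [map_smul, smul_eq_mul]

theorem cast_pow_smul (n d : ℕ) (x : D) : x * (n : D) ^ d = ((n : P) ^ d) • x := by
  rw [Algebra.smul_def, map_pow, map_natCast, ← Nat.cast_pow, (Nat.cast_commute (n ^ d) x).eq]

theorem IsJet.zero [CharZero P] {g : ℕ → D} {v0 v1 : D} (h : IsJet g v0 v1) (h0 : ∀ n, g n = 0) : v1 = 0 := by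
  obtain ⟨p, _, h1, h2⟩ := h
  rw [← h1]
  refine poly_constD (P := P) (p.natDegree + 1) p.coeff 0 (fun n => ?_) 1 le_rfl (by omega)
  rw [← h0 n, h2, Polynomial.eval_eq_sum_range' (n := p.natDegree + 1 + 1) (by omega)]
  exact sum_congr rfl fun d _ => (cast_pow_smul n d _).symm

theorem jet_va (a : D) (t : List D) (z w : D) :
    IsJet (fun n => va a t (z + n * w)) (va a t z) (EE (fun _ => (1 : P)) a t z w) := by
  induction t with
  | nil => exact IsJet.const a
  | cons s t ih =>
    have h := (ih.mul (IsJet.lin z w)).mul (IsJet.const s)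
    have e : va a t z * z * 0 + (va a t z * w + EE (fun _ => (1 : P)) a t z w * z) * s =
        EE (fun _ => (1 : P)) a (s :: t) z w := by
      rw [EE, one_smul]; noncomm_ring
    rw [e] at h
    exact h

theorem jet_EE (c : ℕ → P) (a : D) (t : List D) (z u w : D) :
    IsJet (fun n => EE c a t (z + n * u) w) (EE c a t z w) (L1 c a t z u w + L2 c a t z u w) := by
  induction t with
  | nil => simpa [EE, L1, L2] using IsJet.const (0 : D)
  | cons s t ih =>
    have h := ((ih.mul (IsJet.lin z u)).mul (IsJet.const s)).add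
      ((((jet_va (P := P) a t z u).mul (IsJet.const w)).mul (IsJet.const s)).smul (c t.length))
    have e : (EE c a t z w * z * 0 + (EE c a t z w * u + (L1 c a t z u w + L2 c a t z u w) * z) * s +
        c t.length • (va a t z * w * 0 + (va a t z * 0 + EE (fun _ => (1 : P)) a t z u * w) * s)) =
        L1 c a (s :: t) z u w + L2 c a (s :: t) z u w := by
      rw [L1, L2, mul_zero, mul_zero, zero_add, zero_add, mul_zero, zero_add]
      noncomm_ring
    rw [e] at h
    exact h

/-! ### the theorem -/

include hdiv hcen hinf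

theorem last_letter [CharZero P] {ι : Type} (s : Finset ι) (a : ι → D) (hd : ι → D) (tl : ι → List D) (l : ℕ)
    (hl : ∀ i ∈ s, (tl i).length = l) (h : ∀ z, ∑ i ∈ s, va (a i) (hd i :: tl i) z = 0) (z w : D) :
    ∑ i ∈ s, va (a i) (tl i) z * w * hd i = 0 := by
  -- the set of good weights
  have h1 : ∀ z w, ∑ i ∈ s, EE (fun _ => (1 : P)) (a i) (hd i :: tl i) z w = 0 := fun z w =>
    (IsJet.sum s _ _ _ fun i _ => jet_va (P := P) (a i) (hd i :: tl i) z w).zero (P := P) fun n => h _
  have h2 : ∀ c : ℕ → P, (∀ z w, ∑ i ∈ s, EE c (a i) (hd i :: tl i) z w = 0) →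
      ∀ z w, ∑ i ∈ s, EE (fun j => c j * j) (a i) (hd i :: tl i) z w = 0 := by
    intro c hc z w
    have h3 : ∀ u w, ∑ i ∈ s, (L1 c (a i) (hd i :: tl i) z u w + L2 c (a i) (hd i :: tl i) z u w) = 0 :=
      fun u w => (IsJet.sum s _ _ _ fun i _ => jet_EE c (a i) (hd i :: tl i) z u w).zero (P := P)
        fun n => hc _ _
    have h4 := fun i => exists_L1 c (a i) (hd i :: tl i) z
    have h5 := fun i => exists_L2 c (a i) (hd i :: tl i) z
    choose α hα using h4
    choose β hβ using h5
    have h6 : ∑ i ∈ s, α i = 0 := by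
      refine separate hdiv hcen hinf _ (∑ i ∈ s, β i) fun u w => ?_
      rw [G1_sum, G2_sum, ← sum_add_distrib, ← h3 u w]
      exact sum_congr rfl fun i _ => by rw [hα, hβ]
    have h7 := G1_sum s α z w
    rw [h6, G1_zero] at h7
    rw [h7]
    refine sum_congr rfl fun i _ => ?_
    rw [← hα, L1_self]
  have h3 : ∀ q : Polynomial P, ∀ z w, ∑ i ∈ s, EE (fun j => q.eval (j : P)) (a i) (hd i :: tl i) z w = 0 := by
    intro q
    induction q using Polynomial.induction_on with
    | C r =>
      intro z w
      simp only [Polynomial.eval_C]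
      have h4 := h1 z w
      have h5 : ∀ i, EE (fun _ => r) (a i) (hd i :: tl i) z w = r • EE (fun _ => (1 : P)) (a i) (hd i :: tl i) z w := by
        intro i
        rw [← EE_smul]
        simp only [mul_one]
      rw [sum_congr rfl fun i _ => h5 i, ← smul_sum, h4, smul_zero]
    | add p q hp hq =>
      intro z w
      simp only [Polynomial.eval_add]
      rw [sum_congr rfl fun i _ => EE_add _ _ _ _ _ _, sum_add_distrib, hp, hq, add_zero]
    | monomial n r ih =>
      intro z w
      have h4 := h2 _ ih z w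
      rw [← h4]
      refine sum_congr rfl fun i _ => ?_
      congr 1
      funext j
      simp only [Polynomial.eval_mul, Polynomial.eval_C, Polynomial.eval_pow, Polynomial.eval_X]
      ring
  obtain ⟨q, hq⟩ : ∃ q : Polynomial P, q = ∏ j ∈ range l, (Polynomial.X - Polynomial.C (j : P)) := ⟨_, rfl⟩
  have hq0 : ∀ j < l, q.eval (j : P) = 0 := by
    intro j hj
    rw [hq, Polynomial.eval_prod]
    exact prod_eq_zero (mem_range.2 hj) (by simp)
  have hql : q.eval (l : P) ≠ 0 := by
    rw [hq, Polynomial.eval_prod]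
    refine prod_ne_zero_iff.2 fun j hj => ?_
    rw [mem_range] at hj
    simp only [Polynomial.eval_sub, Polynomial.eval_X, Polynomial.eval_C]
    rw [sub_ne_zero]
    exact_mod_cast hj.ne'
  have h4 := h3 q z w
  have h5 : ∀ i ∈ s, EE (fun j => q.eval (j : P)) (a i) (hd i :: tl i) z w =
      q.eval (l : P) • (va (a i) (tl i) z * w * hd i) := by
    intro i hi
    rw [EE, EE_zero _ _ _ (by rw [hl i hi]; exact hq0), zero_mul, zero_mul, zero_add, hl i hi]
  rw [sum_congr rfl h5, ← smul_sum] at h4
  rcases smul_eq_zero.1 h4 with h | h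
  · exact absurd h hql
  · exact h

omit hdiv hcen hinf

/-- the last letter as a linear map -/
noncomputable def lastL : FreeOver P D Unit ⊗[P] D →ₗ[P] FreeOver P D Unit :=
  TensorProduct.lift (LinearMap.mk₂ P (fun f s => f * var P D Unit () * const P D Unit s)
    (fun a a' b => by rw [add_mul, add_mul])
    (fun c a b => by rw [smul_mul_assoc, smul_mul_assoc])
    (fun a b b' => by rw [map_add, mul_add])
    (fun c a b => by rw [map_smul, mul_smul_comm]))

theorem lastL_tmul (f : FreeOver P D Unit) (s : D) :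
    lastL (f ⊗ₜ[P] s) = f * var P D Unit () * const P D Unit s := by
  simp [lastL]

include hdiv hcen hinf

/-- homogeneous generalized polynomials which vanish as functions are zero -/
theorem homogeneous [CharZero P] (l : ℕ) : ∀ {ι : Type} (s : Finset ι) (a : ι → D) (t : ι → List D),
    (∀ i ∈ s, (t i).length = l) → (∀ z, ∑ i ∈ s, va (a i) (t i) z = 0) →
    ∑ i ∈ s, toF P (a i) (t i) = 0 := by
  induction l with
  | zero =>
    intro ι s a t ht h
    have h1 : ∀ i ∈ s, toF P (a i) (t i) = const P D Unit (a i) := by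
      intro i hi
      rw [List.eq_nil_of_length_eq_zero (ht i hi)]
      rfl
    have h2 : ∀ i ∈ s, va (a i) (t i) 0 = a i := by
      intro i hi
      rw [List.eq_nil_of_length_eq_zero (ht i hi)]
      rfl
    have h3 := h 0
    rw [sum_congr rfl h2] at h3
    rw [sum_congr rfl h1, ← map_sum, h3, map_zero]
  | succ l ih =>
    intro ι s a t ht h
    have h1 : ∀ i ∈ s, ∃ x y, t i = x :: y ∧ y.length = l := by
      intro i hi
      have h2 := ht i hi
      cases hti : t i with
      | nil => rw [hti] at h2; simp at h2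
      | cons x y =>
        rw [hti] at h2
        exact ⟨x, y, rfl, by simpa using h2⟩
    choose! hd tl ht1 ht2 using h1
    have h2 : ∀ z w, ∑ i ∈ s, va (a i) (tl i) z * w * hd i = 0 := by
      refine fun z w => last_letter hdiv hcen hinf s a hd tl l ht2 (fun z => ?_) z w
      rw [← h z]
      exact sum_congr rfl fun i hi => by rw [ht1 i hi]
    have h3 : ∀ z, ∑ i ∈ s, va (a i) (tl i) z ⊗ₜ[P] hd i = 0 := by
      intro z
      apply mu_injective hdiv hcen hinf
      intro w
      rw [map_sum, LinearMap.sum_apply, ← h2 z w]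
      exact sum_congr rfl fun i _ => mu_tmul _ _ _
    have h4 : ∑ i ∈ s, toF P (a i) (tl i) ⊗ₜ[P] hd i = 0 := by
      apply slices
      intro φ
      rw [map_sum]
      have h5 := ih s (fun i => φ (hd i) • a i) tl ht2 (fun z => by
        have h6 := congrArg (sl φ) (h3 z)
        rw [map_sum, map_zero] at h6
        rw [← h6]
        exact sum_congr rfl fun i _ => by rw [sl_tmul, va_smul])
      rw [← h5]
      exact sum_congr rfl fun i _ => by rw [sl_tmul, toF_smul]
    have h5 := congrArg lastL h4
    rw [map_sum, map_zero] at h5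
    rw [← h5]
    refine sum_congr rfl fun i hi => ?_
    rw [lastL_tmul, ht1 i hi]
    rfl

omit hdiv hcen hinf

theorem va_scale (a : D) (t : List D) (z : D) (n : ℕ) : va a t ((n : D) * z) = ((n : P) ^ t.length) • va a t z := by
  induction t with
  | nil => rw [List.length_nil, pow_zero, one_smul]; rfl
  | cons s t ih =>
    rw [va, ih, va, List.length_cons, pow_succ, Algebra.smul_def, Algebra.smul_def, map_mul, map_natCast,
      map_pow, map_natCast]
    have h1 := (Nat.cast_commute n (va a t z)).eq
    simp only [mul_assoc]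
    congr 1
    rw [← mul_assoc (va a t z), ← h1, mul_assoc]

theorem toF_mul_const (a : D) (t : List D) (b : D) : ∃ a' t', toF P a t * const P D Unit b = toF P a' t' := by
  cases t with
  | nil => exact ⟨a * b, [], by rw [toF, toF, map_mul]⟩
  | cons s t => exact ⟨a, (s * b) :: t, by rw [toF, toF, map_mul, mul_assoc]⟩

theorem toF_mul (a : D) (t : List D) (b : D) (t' : List D) :
    ∃ a'' t'', toF P a t * toF P b t' = toF P a'' t'' := by
  induction t' with
  | nil => exact toF_mul_const a t b
  | cons s t' ih =>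
    obtain ⟨a'', t'', h⟩ := ih
    refine ⟨a'', s :: t'', ?_⟩
    rw [toF, toF, ← mul_assoc, ← mul_assoc, h]

/-- every generalized polynomial is a sum of words -/
theorem exists_sum (f : FreeOver P D Unit) :
    f ∈ Submodule.span P (Set.range fun w : D × List D => toF P w.1 w.2) := by
  induction f using induct with
  | hc a => exact Submodule.subset_span ⟨(a, []), rfl⟩
  | hv i => exact Submodule.subset_span ⟨(1, [1]), by simp [toF]⟩
  | hadd f g hf hg => exact Submodule.add_mem _ hf hg
  | hmul f g hf hg =>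
    induction hf using Submodule.span_induction with
    | mem x hx =>
      obtain ⟨⟨a, t⟩, rfl⟩ := hx
      induction hg using Submodule.span_induction with
      | mem y hy =>
        obtain ⟨⟨b, t'⟩, rfl⟩ := hy
        obtain ⟨a'', t'', h⟩ := toF_mul (P := P) a t b t'
        exact Submodule.subset_span ⟨(a'', t''), h.symm⟩
      | zero => rw [mul_zero]; exact Submodule.zero_mem _
      | add y y' _ _ h1 h2 => rw [mul_add]; exact Submodule.add_mem _ h1 h2
      | smul c y _ h1 => rw [mul_smul_comm]; exact Submodule.smul_mem _ _ h1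
    | zero => rw [zero_mul]; exact Submodule.zero_mem _
    | add y y' _ _ h1 h2 => rw [add_mul]; exact Submodule.add_mem _ h1 h2
    | smul c y _ h1 => rw [smul_mul_assoc]; exact Submodule.smul_mem _ _ h1

include hdiv hcen hinf

/-- **No generalized polynomial identities.** A generalized polynomial in one variable over a
division ring of characteristic zero of infinite dimension over its centre which is constant as a
function is a constant. -/
theorem gpi [CharZero P] (f : FreeOver P D Unit)
    (h : ∀ z z' : D, evalAt (fun _ => z) f = evalAt (fun _ => z') f) : f ∈ Set.range (const P D Unit) := by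
  classical
  obtain ⟨c, hc⟩ := (Finsupp.mem_span_range_iff_exists_finsupp).1 (exists_sum f)
  have hf : f = ∑ w ∈ c.support, toF P (c w • w.1) w.2 := by
    rw [← hc, Finsupp.sum]
    exact sum_congr rfl fun w _ => by rw [toF_smul]
  have hval : ∀ z, evalAt (fun _ => z) f = ∑ w ∈ c.support, va (c w • w.1) w.2 z := by
    intro z
    rw [hf, map_sum]
    exact sum_congr rfl fun w _ => eval_toF _ _ _
  obtain ⟨N, hN⟩ : ∃ N : ℕ, ∀ w ∈ c.support, w.2.length ≤ N :=
    ⟨c.support.sup fun w => w.2.length, fun w hw => le_sup (f := fun w : D × List D => w.2.length) hw⟩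
  have hgroup : ∀ {M : Type} [AddCommMonoid M] (g : D × List D → M),
      ∑ w ∈ c.support, g w = ∑ d ∈ range (N + 1), ∑ w ∈ c.support.filter (fun w => w.2.length = d), g w := by
    intro M _ g
    symm
    refine sum_fiberwise_of_maps_to (fun w hw => ?_) g
    exact mem_range.2 (Nat.lt_succ_of_le (hN w hw))
  have hzero : ∀ d, 1 ≤ d → d ≤ N → ∀ z,
      ∑ w ∈ c.support.filter (fun w => w.2.length = d), va (c w • w.1) w.2 z = 0 := by
    intro d hd hdN z
    refine poly_constD (P := P) N (fun d => ∑ w ∈ c.support.filter (fun w => w.2.length = d), va (c w • w.1) w.2 z)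
      (evalAt (fun _ => (0 : D)) f) (fun n => ?_) d hd hdN
    rw [h 0 ((n : D) * z), hval, hgroup]
    refine sum_congr rfl fun e _ => ?_
    rw [smul_sum]
    refine sum_congr rfl fun w hw => ?_
    rw [va_scale (P := P), (mem_filter.1 hw).2]
  have hzero' : ∀ d, 1 ≤ d → d ≤ N →
      ∑ w ∈ c.support.filter (fun w => w.2.length = d), toF P (c w • w.1) w.2 = 0 := by
    intro d hd hdN
    exact homogeneous hdiv hcen hinf d _ (fun w : D × List D => c w • w.1) (fun w => w.2)
      (fun w hw => (mem_filter.1 hw).2) (hzero d hd hdN)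
  have h1 : f = ∑ w ∈ c.support.filter (fun w => w.2.length = 0), toF P (c w • w.1) w.2 := by
    rw [hf, hgroup, sum_eq_single 0]
    · intro d hd hd0
      exact hzero' d (by omega) (by rw [mem_range] at hd; omega)
    · intro h2
      exact absurd (mem_range.2 (Nat.succ_pos N)) h2
  refine ⟨∑ w ∈ c.support.filter (fun w => w.2.length = 0), c w • w.1, ?_⟩
  rw [h1, map_sum]
  refine sum_congr rfl fun w hw => ?_
  rw [List.eq_nil_of_length_eq_zero (mem_filter.1 hw).2]
  rfl

end mu

end Pool.Agent.Q22.AC.Gpi
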