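import Pool.Agent.Q22.AC.Newton
import Pool.Agent.Q22.AC.Gpi

/-!
# Existence of algebraically closed associative algebras
-/

namespace Pool.Agent.Q22.AC

open Finset Polynomial
open Pool.Agent.Results.MP_4b1745_al.OneVariable (FreeOver evalAt const var induct lift_const lift_var AlgClosedIn)

/-- commutation with a polynomial in `q` -/
theorem comm_aeval {P D : Type} [Field P] [Ring D] [Algebra P D] {p q T : D} (h : p * q = q * p + T)
    (hT : ∀ r, Commute r T) (f : P[X]) :
    p * aeval q f = aeval q f * p + T * aeval q (derivative f) := by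
  induction f using Polynomial.induction_on with
  | C a =>
    rw [aeval_C, derivative_C, map_zero, mul_zero, add_zero, Algebra.commutes]
  | add f g hf hg =>
    rw [map_add, mul_add, hf, hg, derivative_add, map_add, add_mul, mul_add]
    abel
  | monomial n a ih =>
    have h1 : (C a * X ^ (n + 1) : P[X]) = (C a * X ^ n) * X := by rw [pow_succ, mul_assoc]
    rw [h1]
    generalize (C a * X ^ n : P[X]) = g at ih ⊢
    have h2 : derivative (g * X) = derivative g * X + g := by
      rw [derivative_mul, derivative_X, mul_one]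
    rw [h2, map_mul, map_add, map_mul, aeval_X, ← mul_assoc, ih, add_mul, mul_assoc (aeval q g) p q, h,
      mul_add, mul_add, (hT (aeval q g)).eq]
    simp only [mul_assoc]
    abel

/-- a ring without zero divisors containing a copy of the Weyl relations has infinite dimension -/
theorem not_finite {P D : Type} [Field P] [CharZero P] [Ring D] [Nontrivial D] [Algebra P D] {p q T : D}
    (h : p * q = q * p + T) (hT : ∀ r, Commute r T) (hT0 : ∀ x, T * x = 0 → x = 0) :
    ¬ Module.Finite P D := by
  intro hfin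
  have hq : IsIntegral P q := IsIntegral.of_finite P q
  have h1 := comm_aeval (P := P) h hT (minpoly P q)
  rw [minpoly.aeval, mul_zero, zero_mul, zero_add] at h1
  have h2 := hT0 _ h1.symm
  have h3 : 0 < (minpoly P q).natDegree := minpoly.natDegree_pos hq
  have h4 : derivative (minpoly P q) ≠ 0 := by
    intro h5
    have := derivative_eq_zero.1 h5
    omega
  have h5 := minpoly.degree_le_of_ne_zero P q h4 h2
  have h6 := natDegree_derivative_lt h3.ne'
  have h7 := natDegree_le_natDegree h5
  omega

variable {A : DFld}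

/-- the Weyl relation -/
theorem weyl {p q : A.K} (h1 : A.D1 p = 1) (h2 : A.D2 p = 0) (h3 : A.D1 q = 0) (h4 : A.D2 q = 1) :
    (mono 0 p : SR A) * mono 0 q = mono 0 q * mono 0 p + mono 1 1 := by
  have hz1 : ∀ n, A.D1^[n] (0 : A.K) = 0 := iter_zero A.h1
  have hz2 : ∀ n, A.D2^[n] (0 : A.K) = 0 := iter_zero A.h2
  have hP2 : ∀ n, 2 ≤ n → P n p = 0 := by
    intro n hn
    obtain ⟨k, rfl⟩ := Nat.exists_eq_add_of_le' hn
    rw [P, Function.iterate_add_apply]
    have : A.D1^[2] p = 0 := by
      change A.D1 (A.D1 p) = 0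
      rw [h1]
      exact iter_one A.h1 1 one_ne_zero
    rw [this, hz1, mul_zero]
  have hPq : ∀ n, 1 ≤ n → P n q = 0 := by
    intro n hn
    obtain ⟨k, rfl⟩ := Nat.exists_eq_add_of_le' hn
    rw [P, Function.iterate_add_apply]
    change _ * A.D1^[k] (A.D1 q) = 0
    rw [h3, hz1, mul_zero]
  have hP1 : P 1 p = 1 := by
    rw [P]
    simp [h1]
  apply SR.ext
  intro β
  obtain ⟨N, hN⟩ := exists_N β 0
  have e1 : co ((mono 0 p : SR A) * mono 0 q) β = ∑ n ∈ range (N + 2), P n p * Q n (co (mono 0 q) (β - n - 0)) := by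
    refine star_single_left (mono 0 q : H A) 0 p (e := 0) ?_ ?_
    · exact lb_single 0 q
    · push_cast
      linarith
  have e2 : co ((mono 0 q : SR A) * mono 0 p) β = ∑ n ∈ range (N + 2), P n q * Q n (co (mono 0 p) (β - n - 0)) := by
    refine star_single_left (mono 0 p : H A) 0 q (e := 0) ?_ ?_
    · exact lb_single 0 p
    · push_cast
      linarith
  have z1 : ∑ n ∈ range (N + 2), P n p * Q n (co (mono 0 q : SR A) (β - n - 0)) =
      P 0 p * Q 0 (co (mono 0 q : SR A) (β - (0 : ℕ) - 0)) + P 1 p * Q 1 (co (mono 0 q : SR A) (β - (1 : ℕ) - 0)) := by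
    rw [sum_range_succ', sum_range_succ', sum_eq_zero, zero_add, add_comm]
    intro n _
    rw [hP2 (n + 1 + 1) (by omega), zero_mul]
  have z2 : ∑ n ∈ range (N + 2), P n q * Q n (co (mono 0 p : SR A) (β - n - 0)) =
      P 0 q * Q 0 (co (mono 0 p : SR A) (β - (0 : ℕ) - 0)) := by
    rw [sum_range_succ', sum_eq_zero, zero_add]
    intro n _
    rw [hPq (n + 1) (by omega), zero_mul]
  rw [co_add, e1, e2, co_mono, z1, z2, P_nil, P_nil, Q_nil, Q_nil, hP1, one_mul]
  simp only [co_mono, Nat.cast_zero, sub_zero, Nat.cast_one]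
  have hQ1 : Q 1 (if β - 1 = 0 then q else 0) = if β = 1 then 1 else 0 := by
    by_cases hb : β = 1
    · rw [if_pos (by linarith), if_pos hb, Q]
      exact h4
    · rw [if_neg (fun h => hb (by linarith)), if_neg hb, Q]
      exact hz2 1
  rw [hQ1]
  by_cases hb : β = 0
  · simp only [if_pos hb]
    rw [mul_comm]
  · simp only [if_neg hb, mul_zero]

instance charZero_SR : CharZero (SR A) := by
  refine ⟨fun m n h => ?_⟩
  have h1 := congrArg (fun f : SR A => co f 0) h
  have h2 : ∀ k : ℕ, co ((k : SR A)) 0 = (k : A.K) := by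
    intro k
    have := co_natCast_mul k (1 : SR A) 0
    rw [mul_one, one_def, co_mono_same, mul_one] at this
    exact this
  simp only [h2] at h1
  have := A.cz
  exact Nat.cast_injective h1

/-- the centre has characteristic zero -/
instance charZero_center : CharZero (Subring.center (SR A)) := by
  refine ⟨fun m n h => ?_⟩
  have h1 := congrArg (Subtype.val) h
  exact Nat.cast_injective (R := SR A) (by simpa using h1)

theorem main (A : DFld) {p q : A.K} (h1 : A.D1 p = 1) (h2 : A.D2 p = 0) (h3 : A.D1 q = 0) (h4 : A.D2 q = 1)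
    (hA : Closed A) : AlgClosedIn (Subring.center (SR A)) (SR A) ℕ := by
  have hw := weyl h1 h2 h3 h4
  have hT : ∀ r : SR A, Commute r (mono 1 1) := fun r => mono_comm r 1
  have hT0 : ∀ x : SR A, mono 1 1 * x = 0 → x = 0 := by
    intro x hx
    by_contra hx0
    refine mul_ne_zero' (f := (mono 1 1 : SR A)) ?_ hx0 hx
    intro h
    have := congrArg (fun f : SR A => co f 1) h
    simp only [co_zero, co_mono_same] at this
    exact one_ne_zero this
  have hinf : ¬ Module.Finite (Subring.center (SR A)) (SR A) := not_finite hw hT hT0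
  rw [Pool.Agent.Results.MP_4b1745_al.OneVariable.result]
  refine ⟨fun hs => ?_, fun f hf => ?_⟩
  · obtain ⟨c, hc⟩ := hs (mono 0 p)
    have h5 := Algebra.commutes c (mono 0 q : SR A)
    rw [hc, hw] at h5
    have h6 : (mono 1 1 : SR A) = 0 := by
      have h7 : (mono 0 q : SR A) * mono 0 p + mono 1 1 = mono 0 q * mono 0 p + 0 := by rw [h5, add_zero]
      exact add_left_cancel h7
    exact one_ne_zero (hT0 1 (by rw [h6, zero_mul]))
  · have hne : ∃ x x', val f x ≠ val f x' := by
      by_contra hcon
      push Not at hcon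
      apply hf
      refine Gpi.gpi ?_ ?_ hinf f hcon
      · intro x hx
        rcases isUnit_or x with ⟨u, rfl⟩ | h
        · exact ⟨↑u⁻¹, by simp, by simp⟩
        · exact absurd h hx
      · intro x hx
        exact ⟨⟨x, Subring.mem_center_iff.2 fun g => (hx g).symm⟩, rfl⟩
    obtain ⟨x, hx⟩ := newton hA f hne
    exact ⟨fun _ => x, hx⟩

end Pool.Agent.Q22.AC
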