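import Pool.Agent.Q22.AC.Ring
import Pool.Agent.Results.MP_4b1745_al.OneVariable

/-!
# Newton's method for equations in one unknown over the ring of Hahn series
-/

namespace Pool.Agent.Q22.AC

open Finset Polynomial
open Pool.Agent.Results.MP_4b1745_al.OneVariable (FreeOver evalAt const var induct lift_const lift_var)

variable {A : DFld} {P : Type} [Field P] [Algebra P (SR A)]

/-- the value of an equation in one unknown -/
noncomputable def val (f : FreeOver P (SR A) Unit) (x : SR A) : SR A := evalAt (fun _ => x) f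

theorem val_const (a x : SR A) : val (const P (SR A) Unit a) x = a := by
  rw [val, evalAt, lift_const]; rfl

theorem val_var (i : Unit) (x : SR A) : val (var P (SR A) Unit i) x = x := by
  rw [val, evalAt, lift_var]

theorem val_add (f g : FreeOver P (SR A) Unit) (x : SR A) : val (f + g) x = val f x + val g x := by
  rw [val, map_add]; rfl

theorem val_sub (f g : FreeOver P (SR A) Unit) (x : SR A) : val (f - g) x = val f x - val g x := by
  rw [val, map_sub]; rfl

theorem val_mul (f g : FreeOver P (SR A) Unit) (x : SR A) : val (f * g) x = val f x * val g x := by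
  rw [val, map_mul]; rfl

/-- the values of an equation at a good family form a good family -/
theorem good_val {X : Type} {D : Set (X → A.K)} (h : DClosed D) {G : X → SR A}
    (hG : Good D (fun x => (G x : H A))) (f : FreeOver P (SR A) Unit) :
    Good D (fun x => (val f (G x) : H A)) := by
  induction f using induct with
  | hc a => simpa only [val_const] using Good.const h (a : H A)
  | hv i => simpa only [val_var] using hG
  | hadd f g hf hg =>
    have h1 := hf.add h hg
    simp only [val_add]
    exact h1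
  | hmul f g hf hg =>
    have h1 := hf.star h hg
    simp only [val_mul]
    exact h1

theorem natCast_central (n : ℕ) (r : SR A) : Commute r (n : SR A) := Nat.commute_cast r n

/-- polynomial dependence on a central parameter -/
theorem exists_poly (f : FreeOver P (SR A) Unit) : ∃ N : ℕ, ∀ x z : SR A, ∃ p : (SR A)[X],
    p.natDegree ≤ N ∧ ∀ τ : SR A, (∀ r, Commute r τ) → val f (x + τ * z) = p.eval τ := by
  induction f using induct with
  | hc a =>
    refine ⟨0, fun x z => ⟨C a, by simp, fun τ _ => ?_⟩⟩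
    rw [val_const, eval_C]
  | hv i =>
    refine ⟨1, fun x z => ⟨C x + C z * X, ?_, fun τ hτ => ?_⟩⟩
    · refine (natDegree_add_le _ _).trans (max_le (by simp) ?_)
      exact natDegree_mul_le.trans (by rw [natDegree_C, zero_add]; exact natDegree_X_le)
    · rw [val_var, eval_add, eval_C, eval_mul_X, eval_C, (hτ z).eq]
  | hadd f g hf hg =>
    obtain ⟨N, hN⟩ := hf
    obtain ⟨M, hM⟩ := hg
    refine ⟨max N M, fun x z => ?_⟩
    obtain ⟨p, hp, hp'⟩ := hN x z
    obtain ⟨q, hq, hq'⟩ := hM x z
    refine ⟨p + q, (natDegree_add_le _ _).trans (max_le_max hp hq), fun τ hτ => ?_⟩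
    rw [val_add, hp' τ hτ, hq' τ hτ, eval_add]
  | hmul f g hf hg =>
    obtain ⟨N, hN⟩ := hf
    obtain ⟨M, hM⟩ := hg
    refine ⟨N + M, fun x z => ?_⟩
    obtain ⟨p, hp, hp'⟩ := hN x z
    obtain ⟨q, hq, hq'⟩ := hM x z
    refine ⟨p * q, natDegree_mul_le.trans (add_le_add hp hq), fun τ hτ => ?_⟩
    rw [val_mul, hp' τ hτ, hq' τ hτ]
    exact (eval₂_mul_noncomm (RingHom.id _) τ fun k => hτ _).symm

theorem central_param (n : ℕ) (c : ℚ) (r : SR A) : Commute r ((n : SR A) * mono c 1) :=
  (natCast_central n r).mul_right (mono_comm r c)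

theorem co_eval {N : ℕ} {p : (SR A)[X]} (hp : p.natDegree ≤ N) (n : ℕ) (c γ : ℚ) :
    co (p.eval ((n : SR A) * mono c 1)) γ =
      ∑ d ∈ range (N + 1), (n : A.K) ^ d * co (p.coeff d) (γ - d * c) := by
  rw [eval_eq_sum_range' (Nat.lt_succ_of_le hp), co_sum]
  refine sum_congr rfl fun d _ => ?_
  have h1 : ((n : SR A) * mono c 1) ^ d = ((n ^ d : ℕ) : SR A) * mono (d * c) 1 := by
    rw [(natCast_central n (mono c 1)).symm.mul_pow, mono_pow]
    push_cast
    rfl
  rw [h1, ← mul_assoc, (natCast_central (n ^ d) (p.coeff d)).eq, mul_assoc, co_natCast_mul, co_mul_mono]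
  push_cast
  rfl

/-- a polynomial which is constant on the natural numbers is constant -/
theorem poly_const (N : ℕ) (c : ℕ → A.K) (v : A.K)
    (h : ∀ n : ℕ, ∑ d ∈ range (N + 1), (n : A.K) ^ d * c d = v) : ∀ d, 1 ≤ d → d ≤ N → c d = 0 := by
  intro d hd hdN
  obtain ⟨q, hq⟩ : ∃ q : A.K[X], q = ∑ d ∈ range (N + 1), C (c d) * X ^ d - C v := ⟨_, rfl⟩
  have h0 : q = 0 := by
    refine eq_zero_of_infinite_isRoot q ?_
    refine (Set.infinite_range_of_injective (Nat.cast_injective (R := A.K))).mono ?_
    rintro _ ⟨n, rfl⟩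
    rw [Set.mem_ofPred_eq, IsRoot.def, hq, eval_sub, eval_C, eval_finsetSum, ← h n, sub_eq_zero]
    refine sum_congr rfl fun d _ => ?_
    rw [eval_mul, eval_C, eval_pow, eval_X, mul_comm]
  have h1 : q.coeff d = c d := by
    rw [hq, coeff_sub, coeff_C, if_neg (by omega), sub_zero, finsetSum_coeff, sum_eq_single d]
    · rw [coeff_C_mul_X_pow, if_pos rfl]
    · intro e _ he
      rw [coeff_C_mul_X_pow, if_neg he.symm]
    · intro he
      rw [mem_range] at he
      omega
  rw [← h1, h0, Polynomial.coeff_zero]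

/-- all values at `x + t ^ s y` have exponents at least `w` -/
def QQ (f : FreeOver P (SR A) Unit) (x : SR A) (s w : ℚ) : Prop :=
  ∀ y : A.K, LB w (val f (x + mono s y))

theorem natCast_mul_mono (n : ℕ) (s : ℚ) (y : A.K) : (n : SR A) * mono s y = mono s ((n : A.K) * y) := by
  apply SR.ext
  intro a
  rw [co_natCast_mul, co_mono, co_mono]
  split <;> simp

theorem QQ_shift {f : FreeOver P (SR A) Unit} {x : SR A} {s w : ℚ} (h : QQ f x s w) {s' : ℚ}
    (hs : s ≤ s') (y1 : A.K) : QQ f (x + mono s' y1) s w := by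
  intro y
  obtain ⟨N, hN⟩ := exists_poly f
  obtain ⟨p, hp, hp'⟩ := hN (x + mono s y) (mono s y1)
  have h1 : ∀ γ, γ < w → ∀ d, d ≤ N → co (p.coeff d) γ = 0 := by
    intro γ hγ
    have h2 : ∀ n : ℕ, ∑ d ∈ range (N + 1), (n : A.K) ^ d * co (p.coeff d) γ = 0 := by
      intro n
      have h3 := hp' ((n : SR A) * mono 0 1) (central_param n 0)
      have h4 : x + mono s y + (n : SR A) * mono 0 1 * mono s y1 = x + mono s (y + (n : A.K) * y1) := by
        rw [mul_assoc, mono_mul_mono, zero_add, natCast_mul_mono, mono_add]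
        abel
      rw [h4] at h3
      have h5 : co _ γ = co _ γ := congrArg (fun g => co g γ) h3
      rw [co_eval hp, (h _).coeff hγ] at h5
      rw [h5]
      refine sum_congr rfl fun d _ => ?_
      rw [mul_zero, sub_zero]
    intro d hd
    rcases Nat.eq_zero_or_pos d with h0 | h0
    · have h3 := h2 0
      rw [sum_range_succ', sum_eq_zero, zero_add] at h3
      · rw [h0]
        simpa using h3
      · intro i _
        rw [Nat.cast_zero, zero_pow (Nat.succ_ne_zero i), zero_mul]
    · exact poly_const N (fun d => co (p.coeff d) γ) 0 h2 d h0 hd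
  have h2 := hp' (((1 : ℕ) : SR A) * mono (s' - s) 1) (central_param 1 (s' - s))
  have h3 : x + mono s y + ((1 : ℕ) : SR A) * mono (s' - s) 1 * mono s y1 = x + mono s' y1 + mono s y := by
    rw [Nat.cast_one, one_mul, mono_mul_mono, sub_add_cancel]
    abel
  rw [h3] at h2
  rw [h2]
  intro γ hγ
  by_contra hlt
  rw [not_le] at hlt
  apply hγ
  rw [co_eval hp]
  refine sum_eq_zero fun d hd => ?_
  rw [h1 _ _ d (Nat.lt_succ_iff.1 (mem_range.1 hd)), mul_zero]
  have : (0 : ℚ) ≤ d * (s' - s) := mul_nonneg (Nat.cast_nonneg d) (sub_nonneg.2 hs)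
  linarith

/-- the restriction to a set of exponents -/
noncomputable def rs (z : SR A) (T : Set ℚ) : SR A := restr (z : H A) T

theorem rs_sum (z : SR A) (s : Finset ℚ) : rs z s = ∑ a ∈ s, mono a (co z a) := by
  apply SR.ext
  intro b
  rw [co_sum]
  have h := restr_finset (z : H A) s
  have h2 := congrArg (fun g : H A => g.coeff b) h
  simp only [HahnSeries.coeff_sum] at h2
  exact h2

/-- **The core lemma.** -/
theorem core {f : FreeOver P (SR A) Unit} {x : SR A} {s w : ℚ} (h : QQ f x s w) {z : SR A}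
    (hz : LB s z) : LB w (val f (x + z)) := by
  classical
  intro γ hγ
  by_contra hlt
  rw [not_le] at hlt
  apply hγ
  have h1 : Good (Cont A) (fun T : Set ℚ => ((x + rs z T : SR A) : H A)) :=
    Good.add Cont_closed (Good.const Cont_closed (x : H A)) (restr_good (z : H A))
  obtain ⟨_, _, _, h2⟩ := good_val (P := P) Cont_closed (G := fun T => x + rs z T) h1 f
  obtain ⟨s0, hs0⟩ := h2 γ
  have h3 : co (val f (x + rs z s0)) γ = co (val f (x + rs z Set.univ)) γ := hs0 s0 (fun _ h => h)
  have h4 : rs z Set.univ = z := restr_univ (z : H A)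
  rw [h4] at h3
  rw [← h3, rs_sum]
  have h6 : ∀ t : Finset ℚ, QQ f (x + ∑ a ∈ t, mono a (co z a)) s w := by
    intro t
    induction t using Finset.induction_on with
    | empty => simpa using h
    | insert a t ha ih =>
      rw [sum_insert ha, add_comm (mono a (co z a)), ← add_assoc]
      by_cases h5 : co z a = 0
      · rw [h5, mono_zero, add_zero]
        exact ih
      · exact QQ_shift ih (hz a h5) _
  have h5 := (h6 s0 0).coeff hlt
  rwa [mono_zero, add_zero] at h5

/-- the slope of the Newton polygon at `x` -/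
def IsSlope (f : FreeOver P (SR A) Unit) (x : SR A) (v s : ℚ) : Prop :=
  (∀ r, s ≤ r → ∀ y : A.K, LB (v + (r - s)) (val f (x + mono r y) - val f x)) ∧
  ∃ y y' : A.K, co (val f (x + mono s y)) v ≠ co (val f (x + mono s y')) v

theorem exists_slope (f : FreeOver P (SR A) Unit) (x : SR A) (v : ℚ)
    (h : ∃ z, val f z ≠ val f x) : ∃ s, IsSlope f x v s := by
  classical
  obtain ⟨N, hN⟩ := exists_poly f
  have hN' := fun y : A.K => hN x (mono 0 y)
  choose p hp hp' using hN'
  -- the formula for the values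
  have hval : ∀ (y : A.K) (n : ℕ) (s β : ℚ), co (val f (x + mono s ((n : A.K) * y))) β =
      ∑ d ∈ range (N + 1), (n : A.K) ^ d * co ((p y).coeff d) (β - d * s) := by
    intro y n s β
    have h1 := hp' y ((n : SR A) * mono s 1) (central_param n s)
    rw [mul_assoc, mono_mul_mono, add_zero, natCast_mul_mono] at h1
    rw [h1, co_eval (hp y)]
  have hval1 : ∀ (y : A.K) (s β : ℚ), co (val f (x + mono s y)) β =
      co (val f x) β + ∑ d ∈ range N, co ((p y).coeff (d + 1)) (β - (d + 1 : ℕ) * s) := by
    intro y s β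
    have h1 := hval y 1 s β
    have h0 := hval y 0 s β
    rw [sum_range_succ'] at h1 h0
    simp only [Nat.cast_one, one_mul, one_pow, Nat.cast_zero, zero_mul, mono_zero, add_zero, pow_zero] at h1 h0
    rw [sum_eq_zero, zero_add] at h0
    · rw [h1, h0, add_comm]
    · intro d _
      rw [zero_pow (Nat.succ_ne_zero d), zero_mul]
  -- the exponents
  have hgood : Good {φ | IsDP A φ} (fun y : A.K => (x + mono 0 y : SR A)) := by
    have hD : DClosed {φ : A.K → A.K | IsDP A φ} := ⟨IsDP.const, IsDP.add, IsDP.mul, IsDP.d1, IsDP.d2⟩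
    refine Good.add hD (Good.const hD (x : H A)) ?_
    refine ⟨{0}, Set.isPWO_singleton 0, fun y => HahnSeries.support_single_subset, fun a => ?_⟩
    by_cases ha : a = 0
    · have : (fun y : A.K => HahnSeries.coeff (mono 0 y : SR A) a) = fun y => y := by
        funext y
        exact (co_mono 0 a y).trans (if_pos ha)
      rw [this]
      exact IsDP.var
    · have : (fun y : A.K => HahnSeries.coeff (mono 0 y : SR A) a) = fun _ => 0 := by
        funext y
        exact (co_mono 0 a y).trans (if_neg ha)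
      rw [this]
      exact IsDP.const 0
  have hD : DClosed {φ : A.K → A.K | IsDP A φ} := ⟨IsDP.const, IsDP.add, IsDP.mul, IsDP.d1, IsDP.d2⟩
  obtain ⟨S, hS, hS1, _⟩ := good_val (P := P) hD hgood f
  have hmem : ∀ y d γ, 1 ≤ d → d ≤ N → co ((p y).coeff d) γ ≠ 0 → γ ∈ S := by
    intro y d γ hd hdN hne
    by_contra hγ
    apply hne
    refine poly_const N (fun d => co ((p y).coeff d) γ) 0 ?_ d hd hdN
    intro n
    have h1 := hval y n 0 γ
    have h2 : co (val f (x + mono 0 ((n : A.K) * y))) γ = 0 := by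
      by_contra h3
      exact hγ (hS1 _ h3)
    rw [h2] at h1
    rw [h1]
    refine sum_congr rfl fun d _ => ?_
    rw [mul_zero, sub_zero]
  -- some exponent occurs
  obtain ⟨Dm, hDm⟩ : ∃ Dm : Finset ℕ, Dm = (Finset.Icc 1 N).filter (fun d => ∃ y γ, co ((p y).coeff d) γ ≠ 0) :=
    ⟨_, rfl⟩
  have hne : Dm.Nonempty := by
    by_contra hemp
    rw [Finset.not_nonempty_iff_eq_empty] at hemp
    obtain ⟨z, hz⟩ := h
    apply hz
    have h1 : ∀ y d γ, 1 ≤ d → d ≤ N → co ((p y).coeff d) γ = 0 := by
      intro y d γ hd hdN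
      by_contra h2
      have : d ∈ Dm := by
        rw [hDm, mem_filter, Finset.mem_Icc]
        exact ⟨⟨hd, hdN⟩, y, γ, h2⟩
      rw [hemp] at this
      exact absurd this (Finset.notMem_empty d)
    obtain ⟨c, hc⟩ := exists_LB (z - x)
    have h2 : ∀ w, QQ (f - const P (SR A) Unit (val f x)) x c w := by
      intro w y γ hγ
      exfalso
      apply hγ
      rw [val_sub, val_const, co_sub, hval1, sum_eq_zero, add_zero, sub_self]
      intro d hd
      exact h1 _ _ _ (by omega) (by rw [mem_range] at hd; omega)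
    apply SR.ext
    intro a
    have h3 := (core (h2 (a + 1)) hc).coeff (lt_add_one a)
    rw [add_sub_cancel, val_sub, val_const, co_sub, sub_eq_zero] at h3
    exact h3
  -- the minimal exponents
  have hmin : ∀ d ∈ Dm, ∃ γ, (∃ y, co ((p y).coeff d) γ ≠ 0) ∧ ∀ y γ', co ((p y).coeff d) γ' ≠ 0 → γ ≤ γ' := by
    intro d hd
    rw [hDm, mem_filter, Finset.mem_Icc] at hd
    have hT : ({γ | ∃ y, co ((p y).coeff d) γ ≠ 0} : Set ℚ).IsPWO :=
      hS.mono fun γ hγ => hγ.elim fun y hy => hmem y d γ hd.1.1 hd.1.2 hy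
    have hTne : ({γ | ∃ y, co ((p y).coeff d) γ ≠ 0} : Set ℚ).Nonempty := by
      obtain ⟨_, y, γ, h⟩ := hd
      exact ⟨γ, y, h⟩
    exact ⟨hT.isWF.min hTne, hT.isWF.min_mem hTne, fun y γ' h => hT.isWF.min_le hTne ⟨y, h⟩⟩
  choose! m hm1 hm2 using hmin
  obtain ⟨d0, hd0, hmax⟩ := Finset.exists_max_image Dm (fun d => (v - m d) / d) hne
  obtain ⟨s, hs⟩ : ∃ s, s = (v - m d0) / d0 := ⟨_, rfl⟩
  have hpos : ∀ d ∈ Dm, (0 : ℚ) < d := by
    intro d hd
    rw [hDm, mem_filter, Finset.mem_Icc] at hd
    exact_mod_cast hd.1.1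
  have hge : ∀ y d γ, 1 ≤ d → d ≤ N → co ((p y).coeff d) γ ≠ 0 → v ≤ γ + d * s := by
    intro y d γ hd hdN hne'
    have hdm : d ∈ Dm := by
      rw [hDm, mem_filter, Finset.mem_Icc]
      exact ⟨⟨hd, hdN⟩, y, γ, hne'⟩
    have h1 : (v - m d) / d ≤ (v - m d0) / d0 := hmax d hdm
    rw [← hs, div_le_iff₀ (hpos d hdm)] at h1
    have h2 := hm2 d hdm y γ hne'
    linarith
  have heq : m d0 = v - d0 * s := by
    have := hpos d0 hd0
    rw [hs]
    field_simp
    ring
  refine ⟨s, ?_, ?_⟩
  · intro r hr y γ hγ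
    by_contra hlt
    rw [not_le] at hlt
    apply hγ
    rw [co_sub, hval1, add_sub_cancel_left]
    refine sum_eq_zero fun d hd => ?_
    rw [mem_range] at hd
    by_contra hne'
    have h1 := hge y (d + 1) _ (by omega) (by omega) hne'
    have h2 : (1 : ℚ) ≤ ((d + 1 : ℕ) : ℚ) := by
      push_cast
      have : (0 : ℚ) ≤ d := Nat.cast_nonneg d
      linarith
    nlinarith
  · by_contra hcon
    push Not at hcon
    obtain ⟨y, hy⟩ := hm1 d0 hd0
    rw [heq] at hy
    apply hy
    have hd0' := hd0
    rw [hDm, mem_filter, Finset.mem_Icc] at hd0'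
    refine poly_const N (fun d => co ((p y).coeff d) (v - d * s)) (co (val f (x + mono s 0)) v) ?_ d0
      hd0'.1.1 hd0'.1.2
    intro n
    rw [← hval y n s v]
    exact hcon _ _

/-- **Equations in one unknown which are not constant as functions have roots.** -/
theorem newton (hA : Closed A) (f : FreeOver P (SR A) Unit) (hf : ∃ x x', val f x ≠ val f x') :
    ∃ x, val f x = 0 := by
  classical
  have hf' : ∀ x, ∃ z, val f z ≠ val f x := by
    intro x
    obtain ⟨a, b, hab⟩ := hf
    by_cases h : val f a = val f x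
    · exact ⟨b, fun h2 => hab (h.trans h2.symm)⟩
    · exact ⟨a, h⟩
  let v : SR A → ℚ := fun x => if h : val f x ≠ 0 then (exists_order h).choose else 0
  have hv : ∀ x, val f x ≠ 0 → LB (v x) (val f x) ∧ co (val f x) (v x) ≠ 0 := by
    intro x hx
    simp only [v]
    rw [dif_pos hx]
    exact (exists_order hx).choose_spec
  let s : SR A → ℚ := fun x => (exists_slope f x (v x) (hf' x)).choose
  have hs : ∀ x, IsSlope f x (v x) (s x) := fun x => (exists_slope f x (v x) (hf' x)).choose_spec
  have hQ : ∀ x, val f x ≠ 0 → QQ f x (s x) (v x) := by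
    intro x hx y
    have h1 := (hs x).1 (s x) le_rfl y
    rw [sub_self, add_zero] at h1
    have := h1.add (hv x hx).1
    rwa [sub_add_cancel] at this
  have hmono : ∀ x x', val f x ≠ 0 → val f x' ≠ 0 → LB (s x) (x' - x) → s x ≤ s x' := by
    intro x x' hx hx' hxx'
    by_contra hlt
    rw [not_le] at hlt
    have h1 : LB (v x) (val f x') := by
      have := core (hQ x hx) hxx'
      rwa [add_sub_cancel] at this
    have h2 : v x ≤ v x' := h1 _ (hv x' hx').2
    have h3 : QQ (f - const P (SR A) Unit (val f x')) x' (s x) (v x + (s x - s x')) := by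
      intro y
      rw [val_sub, val_const]
      exact ((hs x').1 (s x) hlt.le y).mono_le (by linarith)
    have h4 : ∀ y, co (val f (x + mono (s x) y)) (v x) = co (val f x') (v x) := by
      intro y
      have h5 : LB (s x) ((x - x') + mono (s x) y) := by
        refine LB.add ?_ (LB_mono _ _)
        rw [← neg_sub]
        exact hxx'.neg
      have h6 := (core h3 h5).coeff (a := v x) (by linarith)
      rw [val_sub, val_const, co_sub, sub_eq_zero] at h6
      rw [← h6]
      congr 2
      abel
    obtain ⟨y, y', hyy⟩ := (hs x).2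
    exact hyy ((h4 y).trans (h4 y').symm)
  refine zorn_root (val f) s hmono ?_
  intro x hx
  -- the leading coefficient as a differential polynomial function
  have hDP : IsDP A (fun y => co (val f (x + mono (s x) y)) (v x)) := by
    have hD : DClosed {φ : A.K → A.K | IsDP A φ} := ⟨IsDP.const, IsDP.add, IsDP.mul, IsDP.d1, IsDP.d2⟩
    have hgood : Good {φ | IsDP A φ} (fun y : A.K => (x + mono (s x) y : SR A)) := by
      refine Good.add hD (Good.const hD (x : H A)) ?_
      refine ⟨{s x}, Set.isPWO_singleton _, fun y => HahnSeries.support_single_subset, fun a => ?_⟩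
      by_cases ha : a = s x
      · have : (fun y : A.K => HahnSeries.coeff (mono (s x) y : SR A) a) = fun y => y := by
          funext y
          exact (co_mono (s x) a y).trans (if_pos ha)
        rw [this]
        exact IsDP.var
      · have : (fun y : A.K => HahnSeries.coeff (mono (s x) y : SR A) a) = fun _ => 0 := by
          funext y
          exact (co_mono (s x) a y).trans (if_neg ha)
        rw [this]
        exact IsDP.const 0
    obtain ⟨_, _, _, h2⟩ := good_val (P := P) hD hgood f
    exact h2 (v x)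
  obtain ⟨y0, hy0⟩ := hA _ hDP (hs x).2
  refine ⟨x + mono (s x) y0, ?_, ?_⟩
  · rw [add_sub_cancel_left]
    exact LB_mono _ _
  by_cases hx' : val f (x + mono (s x) y0) = 0
  · exact Or.inl hx'
  right
  refine lt_of_le_of_ne (hmono x _ hx hx' ?_) ?_
  · rw [add_sub_cancel_left]
    exact LB_mono _ _
  intro heq
  have h1 := hv _ hx'
  have h2 : v x < v (x + mono (s x) y0) := by
    have h3 := hQ x hx y0 _ h1.2
    refine lt_of_le_of_ne h3 fun h4 => ?_
    rw [← h4] at h1
    exact h1.2 hy0
  have h3 : ∀ y', co (val f (x + mono (s x) (y0 + y'))) (v x) = 0 := by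
    intro y'
    have h4 := hQ _ hx' y'
    rw [← heq, add_assoc, ← mono_add] at h4
    exact h4.coeff h2
  obtain ⟨y, y', hyy⟩ := (hs x).2
  apply hyy
  have h4 := h3 (y - y0)
  have h5 := h3 (y' - y0)
  rw [add_sub_cancel] at h4 h5
  rw [h4, h5]

end Pool.Agent.Q22.AC
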