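import Pool.Agent.Q22.AC.Star

/-!
# The division ring of Hahn series with the star product
-/

namespace Pool.Agent.Q22.AC

open Finset

/-- the ring of Hahn series with the star product -/
def SR (A : DFld) : Type := HahnSeries ℚ A.K

variable {A : DFld}

instance : AddCommGroup (SR A) := inferInstanceAs (AddCommGroup (HahnSeries ℚ A.K))

/-- the coefficient -/
def co (f : SR A) (a : ℚ) : A.K := HahnSeries.coeff f a

/-- monomials -/
noncomputable def mono (a : ℚ) (x : A.K) : SR A := HahnSeries.single a x

theorem SR.ext {f g : SR A} (h : ∀ a, co f a = co g a) : f = g := HahnSeries.ext (funext h)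

theorem co_add (f g : SR A) (a : ℚ) : co (f + g) a = co f a + co g a := HahnSeries.coeff_add

theorem co_zero (a : ℚ) : co (0 : SR A) a = 0 := rfl

theorem co_neg (f : SR A) (a : ℚ) : co (-f) a = -co f a := HahnSeries.coeff_neg

theorem co_sub (f g : SR A) (a : ℚ) : co (f - g) a = co f a - co g a := HahnSeries.coeff_sub

theorem co_sum {ι : Type*} (s : Finset ι) (f : ι → SR A) (a : ℚ) :
    co (∑ i ∈ s, f i) a = ∑ i ∈ s, co (f i) a := by
  classical
  induction s using Finset.induction_on with
  | empty => rfl
  | insert b s hb ih => rw [sum_insert hb, sum_insert hb, co_add, ih]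

theorem co_mono (a b : ℚ) (x : A.K) : co (mono a x) b = if b = a then x else 0 := by
  split
  · next h => rw [h]; exact HahnSeries.coeff_single_same a x
  · next h => exact HahnSeries.coeff_single_of_ne h

theorem co_mono_same (a : ℚ) (x : A.K) : co (mono a x) a = x := HahnSeries.coeff_single_same a x

theorem mono_zero (a : ℚ) : mono a (0 : A.K) = 0 := HahnSeries.single_eq_zero

theorem mono_add (a : ℚ) (x y : A.K) : mono a (x + y) = mono a x + mono a y := by
  apply SR.ext
  intro b
  rw [co_add, co_mono, co_mono, co_mono]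
  split <;> simp

/-- the unit -/
noncomputable def one : SR A := mono 0 1

theorem star_mono_one (f : SR A) (c β : ℚ) : co (star f (mono c 1) : H A) β = co f (β - c) := by
  obtain ⟨e, he⟩ := exists_lb (HahnSeries.isPWO_support (x := (f : H A)))
  obtain ⟨N, hN⟩ := exists_N β (e + c)
  refine (star_single_right f c 1 he (N := N + 1) (by push_cast; linarith)).trans ?_
  rw [sum_range_succ', sum_eq_zero, zero_add]
  · rw [Q_nil, mul_one, P_nil]
    simp [co]
  · intro n _
    rw [Q_one _ (Nat.succ_ne_zero n), mul_zero]

theorem mono_one_star (f : SR A) (c β : ℚ) : co (star (mono c 1) f : H A) β = co f (β - c) := by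
  obtain ⟨e, he⟩ := exists_lb (HahnSeries.isPWO_support (x := (f : H A)))
  obtain ⟨N, hN⟩ := exists_N β (c + e)
  refine (star_single_left f c 1 he (N := N + 1) (by push_cast; linarith)).trans ?_
  rw [sum_range_succ', sum_eq_zero, zero_add]
  · rw [P_nil, one_mul, Q_nil]
    simp [co]
  · intro n _
    rw [P_one _ (Nat.succ_ne_zero n), zero_mul]

noncomputable instance : Ring (SR A) where
  __ := (inferInstance : AddCommGroup (SR A))
  mul := fun f g => star f g
  one := one
  left_distrib := fun f g h => star_add_right f g h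
  right_distrib := fun f g h => star_add_left f g h
  zero_mul := fun f => star_zero_left f
  mul_zero := fun f => star_zero_right f
  mul_assoc := fun f g h => star_assoc f g h
  one_mul := fun f => SR.ext fun a => by
    change co (star one f : H A) a = _
    rw [one, mono_one_star, sub_zero]
  mul_one := fun f => SR.ext fun a => by
    change co (star f one : H A) a = _
    rw [one, star_mono_one, sub_zero]

theorem mul_def (f g : SR A) : f * g = (star f g : H A) := rfl

theorem co_mul_mono (f : SR A) (c β : ℚ) : co (f * mono c 1) β = co f (β - c) := star_mono_one f c β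

theorem co_mono_mul (f : SR A) (c β : ℚ) : co (mono c 1 * f) β = co f (β - c) := mono_one_star f c β

theorem mono_comm (f : SR A) (c : ℚ) : Commute f (mono c 1) :=
  SR.ext fun a => by rw [co_mul_mono, co_mono_mul]

theorem mono_mul_mono (c s : ℚ) (x : A.K) : mono c 1 * mono s x = mono (c + s) x :=
  SR.ext fun a => by
    rw [co_mono_mul, co_mono, co_mono]
    by_cases h : a - c = s
    · rw [if_pos h, if_pos (by linarith)]
    · rw [if_neg h, if_neg (fun h2 => h (by linarith))]

theorem one_def : (1 : SR A) = mono 0 1 := rfl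

theorem mono_pow (c : ℚ) (n : ℕ) : (mono c (1 : A.K)) ^ n = mono (n * c) 1 := by
  induction n with
  | zero => rw [pow_zero, one_def]; simp
  | succ n ih =>
    rw [pow_succ', ih, mono_mul_mono]
    congr 1
    push_cast
    ring

theorem co_natCast_mul (n : ℕ) (f : SR A) (a : ℚ) : co ((n : SR A) * f) a = (n : A.K) * co f a := by
  induction n with
  | zero => rw [Nat.cast_zero, zero_mul, Nat.cast_zero, zero_mul, co_zero]
  | succ n ih =>
    rw [Nat.cast_succ, add_mul, one_mul, co_add, ih, Nat.cast_succ, add_mul, one_mul]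

/-- `c` is a lower bound for the exponents of `f` -/
def LB (c : ℚ) (f : SR A) : Prop := ∀ a, co f a ≠ 0 → c ≤ a

theorem LB.coeff {c : ℚ} {f : SR A} (h : LB c f) {a : ℚ} (ha : a < c) : co f a = 0 := by
  by_contra h2
  exact absurd (h a h2) (not_le.2 ha)

theorem LB.add {c : ℚ} {f g : SR A} (hf : LB c f) (hg : LB c g) : LB c (f + g) := by
  intro a ha
  by_contra h
  rw [not_le] at h
  apply ha
  rw [co_add, hf.coeff h, hg.coeff h, add_zero]

theorem LB.neg {c : ℚ} {f : SR A} (hf : LB c f) : LB c (-f) := by
  intro a ha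
  apply hf
  intro h
  apply ha
  rw [co_neg, h, neg_zero]

theorem LB.sub {c : ℚ} {f g : SR A} (hf : LB c f) (hg : LB c g) : LB c (f - g) := by
  rw [sub_eq_add_neg]
  exact hf.add hg.neg

theorem LB.mono_le {c d : ℚ} {f : SR A} (hf : LB c f) (h : d ≤ c) : LB d f :=
  fun a ha => h.trans (hf a ha)

theorem LB_mono (s : ℚ) (x : A.K) : LB s (mono s x) := lb_single s x

theorem LB.mul {c d : ℚ} {f g : SR A} (hf : LB c f) (hg : LB d g) : LB (c + d) (f * g) :=
  lb_star hf hg

theorem exists_LB (f : SR A) : ∃ c, LB c f := exists_lb (HahnSeries.isPWO_support (x := (f : H A)))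

theorem LB_zero (c : ℚ) : LB c (0 : SR A) := fun a ha => absurd (co_zero a) ha

/-- the leading coefficient of a product -/
theorem lead_mul {c d : ℚ} {f g : SR A} (hf : LB c f) (hg : LB d g) :
    co (f * g) (c + d) = co f c * co g d := by
  have hS := HahnSeries.isPWO_support (x := (f : H A))
  have hT := HahnSeries.isPWO_support (x := (g : H A))
  refine (star_coeff hS hT (fun _ h => h) (fun _ h => h) hf hg (N := 1) (by push_cast; linarith)).trans ?_
  rw [SC, sum_range_one, Nat.cast_zero, sub_zero]
  by_cases h : co f c ≠ 0 ∧ co g d ≠ 0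
  · rw [sum_eq_single (c, d)]
    · rw [P_nil, Q_nil]; rfl
    · rintro ⟨a, b⟩ hp hne
      rw [_root_.Finset.mem_antidiagonal] at hp
      exfalso
      apply hne
      have h1 := hf a hp.1
      have h2 := hg b hp.2.1
      have h3 := hp.2.2
      simp only at h3
      ext
      · simp only; linarith
      · simp only; linarith
    · intro hp
      exfalso
      apply hp
      rw [_root_.Finset.mem_antidiagonal]
      exact ⟨h.1, h.2, rfl⟩
  · have h0 : co f c * co g d = 0 := by
      rw [mul_eq_zero]
      by_contra h2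
      rw [not_or] at h2
      exact h h2
    rw [h0]
    refine sum_eq_zero ?_
    rintro ⟨a, b⟩ hp
    rw [_root_.Finset.mem_antidiagonal] at hp
    have h1 := hf a hp.1
    have h2 := hg b hp.2.1
    have h3 := hp.2.2
    simp only at h3
    have ha : a = c := by linarith
    have hb : b = d := by linarith
    subst ha hb
    rw [P_nil, Q_nil]
    exact h0

/-- the order of a nonzero element -/
theorem exists_order {f : SR A} (hf : f ≠ 0) : ∃ c, LB c f ∧ co f c ≠ 0 := by
  refine ⟨HahnSeries.order (f : H A), fun a ha => order_le (f : H A) a ha, ?_⟩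
  exact fun h => hf (HahnSeries.coeff_order_eq_zero.1 h)

theorem mul_ne_zero' {f g : SR A} (hf : f ≠ 0) (hg : g ≠ 0) : f * g ≠ 0 := by
  obtain ⟨c, hc, hc'⟩ := exists_order hf
  obtain ⟨d, hd, hd'⟩ := exists_order hg
  intro h
  have := lead_mul hc hd
  rw [h, co_zero] at this
  exact mul_ne_zero hc' hd' this.symm

/-- **The Newton-Zorn lemma.** -/
theorem zorn_root (F : SR A → SR A) (s : SR A → ℚ)
    (h1 : ∀ x x', F x ≠ 0 → F x' ≠ 0 → LB (s x) (x' - x) → s x ≤ s x')
    (h2 : ∀ x, F x ≠ 0 → ∃ x', LB (s x) (x' - x) ∧ (F x' = 0 ∨ s x < s x')) : ∃ x, F x = 0 := by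
  classical
  by_contra hcon
  push Not at hcon
  let r : SR A → SR A → Prop := fun x x' => x = x' ∨ (LB (s x) (x' - x) ∧ s x < s x')
  have htrans : ∀ {a b c}, r a b → r b c → r a c := by
    rintro a b c (rfl | ⟨h3, h4⟩) h
    · exact h
    · rcases h with rfl | ⟨h5, h6⟩
      · exact Or.inr ⟨h3, h4⟩
      · refine Or.inr ⟨?_, h4.trans h6⟩
        have := (h5.mono_le h4.le).add h3
        rwa [sub_add_sub_cancel] at this
  obtain ⟨m, hm⟩ := exists_maximal_of_chains_bounded (r := r) (fun c hc => by
    by_cases hmax : ∃ m ∈ c, ∀ a ∈ c, r a m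
    · obtain ⟨m, _, hm⟩ := hmax
      exact ⟨m, hm⟩
    push Not at hmax
    have hup : ∀ x ∈ c, ∃ a ∈ c, LB (s x) (a - x) ∧ s x < s a := by
      intro x hx
      obtain ⟨a, ha, hax⟩ := hmax x hx
      have hne : a ≠ x := fun h => hax (Or.inl h)
      rcases hc ha hx hne with h | h
      · exact absurd h hax
      · rcases h with h | h
        · exact absurd h.symm hne
        · exact ⟨a, ha, h⟩
    have hagree : ∀ x ∈ c, ∀ y ∈ c, ∀ β, β < s x → β < s y → co x β = co y β := by
      intro x hx y hy β hβx hβy
      by_cases hxy : x = y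
      · rw [hxy]
      · rcases hc hx hy hxy with h | h
        · rcases h with h | h
          · exact absurd h hxy
          · have := h.1.coeff hβx
            rw [co_sub, sub_eq_zero] at this
            exact this.symm
        · rcases h with h | h
          · exact absurd h.symm hxy
          · have := h.1.coeff hβy
            rw [co_sub, sub_eq_zero] at this
            exact this
    let cf : ℚ → A.K := fun β => if h : ∃ x ∈ c, β < s x then co h.choose β else 0
    have hcf : ∀ x ∈ c, ∀ β, β < s x → cf β = co x β := by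
      intro x hx β hβ
      have h : ∃ x ∈ c, β < s x := ⟨x, hx, hβ⟩
      simp only [cf]
      rw [dif_pos h]
      exact hagree _ h.choose_spec.1 x hx β h.choose_spec.2 hβ
    have hpwo : (Function.support cf).IsPWO := by
      rw [Set.isPWO_iff_isWF, Set.isWF_iff_no_descending_seq]
      intro u hu hmem
      have h0 := hmem 0
      have hx : ∃ x ∈ c, u 0 < s x := by
        by_contra hx
        apply h0
        simp only [cf]
        exact dif_neg hx
      obtain ⟨x, hx, hux⟩ := hx
      have hwf := Set.isPWO_iff_isWF.1 (HahnSeries.isPWO_support (x := (x : H A)))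
      rw [Set.isWF_iff_no_descending_seq] at hwf
      refine hwf u hu fun n => ?_
      have h3 : u n < s x := lt_of_le_of_lt (hu.antitone (Nat.zero_le n)) hux
      have h4 := hmem n
      rw [Function.mem_support, hcf x hx _ h3] at h4
      exact h4
    let xi : SR A := (⟨cf, hpwo⟩ : H A)
    have hxi : ∀ x ∈ c, LB (s x) (xi - x) := by
      intro x hx a ha
      by_contra h
      rw [not_le] at h
      apply ha
      rw [co_sub]
      change cf a - co x a = 0
      rw [hcf x hx a h, sub_self]
    refine ⟨xi, fun x hx => Or.inr ⟨hxi x hx, ?_⟩⟩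
    obtain ⟨a, ha, _, h3⟩ := hup x hx
    exact h3.trans_le (h1 a xi (hcon a) (hcon xi) (hxi a ha))) htrans
  obtain ⟨x', h3, h4⟩ := h2 m (hcon m)
  have h5 : s m < s x' := h4.resolve_left (hcon x')
  rcases hm x' (Or.inr ⟨h3, h5⟩) with h | h
  · rw [h] at h5
    exact lt_irrefl _ h5
  · exact lt_irrefl _ (h5.trans h.2)

/-- right inverses -/
theorem exists_right_inv {T : SR A} (hT : T ≠ 0) : ∃ S, T * S = 1 := by
  classical
  obtain ⟨t, ht, ht'⟩ := exists_order hT
  let s : SR A → ℚ := fun x => if h : T * x - 1 ≠ 0 then (exists_order h).choose - t else 0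
  have hs : ∀ x, T * x - 1 ≠ 0 → LB (s x + t) (T * x - 1) ∧ co (T * x - 1) (s x + t) ≠ 0 := by
    intro x hx
    simp only [s]
    rw [dif_pos hx, sub_add_cancel]
    exact (exists_order hx).choose_spec
  obtain ⟨S, hS⟩ := zorn_root (fun x => T * x - 1) s (by
    intro x x' hx hx' h
    obtain ⟨h1, h2⟩ := hs x hx
    obtain ⟨h3, h4⟩ := hs x' hx'
    have h5 : LB (s x + t) (T * x' - 1) := by
      have h6 : T * x' - 1 = T * (x' - x) + (T * x - 1) := by
        rw [mul_sub]; abel
      rw [h6]
      refine LB.add ?_ h1
      rw [add_comm]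
      exact ht.mul h
    have := h5 _ h4
    linarith) (by
    intro x hx
    obtain ⟨h1, h2⟩ := hs x hx
    refine ⟨x + mono (s x) (-(co (T * x - 1) (s x + t)) / co T t), ?_, ?_⟩
    · rw [add_sub_cancel_left]
      exact LB_mono _ _
    · by_cases h3 : T * (x + mono (s x) (-(co (T * x - 1) (s x + t)) / co T t)) - 1 = 0
      · exact Or.inl h3
      · right
        obtain ⟨h4, h5⟩ := hs _ h3
        have h6 : T * (x + mono (s x) (-(co (T * x - 1) (s x + t)) / co T t)) - 1 =
            T * mono (s x) (-(co (T * x - 1) (s x + t)) / co T t) + (T * x - 1) := by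
          rw [mul_add]; abel
        have h7 : LB (s x + t) (T * (x + mono (s x) (-(co (T * x - 1) (s x + t)) / co T t)) - 1) := by
          rw [h6]
          refine LB.add ?_ h1
          rw [add_comm]
          exact ht.mul (LB_mono _ _)
        have h8 : co (T * (x + mono (s x) (-(co (T * x - 1) (s x + t)) / co T t)) - 1) (s x + t) = 0 := by
          rw [h6, co_add]
          have h9 := lead_mul ht (LB_mono (s x) (-(co (T * x - 1) (s x + t)) / co T t))
          rw [add_comm t (s x)] at h9
          rw [h9, co_mono_same]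
          field_simp
          ring
        have h10 := h7 _ h5
        rcases lt_or_eq_of_le h10 with h | h
        · linarith
        · exfalso
          rw [← h] at h5
          exact h5 h8)
  exact ⟨S, sub_eq_zero.1 hS⟩

instance : Nontrivial (SR A) := ⟨⟨0, 1, fun h => by
  have := congrArg (fun f => co f 0) h
  simp only [co_zero, one_def, co_mono_same] at this
  exact zero_ne_one this⟩⟩

theorem isUnit_or (f : SR A) : IsUnit f ∨ f = 0 := by
  by_cases hf : f = 0
  · exact Or.inr hf
  · left
    obtain ⟨g, hg⟩ := exists_right_inv hf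
    have hg0 : g * f = 1 := by
      have h1 : f * (g * f - 1) = 0 := by rw [mul_sub, ← mul_assoc, hg, one_mul, mul_one, sub_self]
      by_contra h2
      exact mul_ne_zero' hf (sub_ne_zero.2 h2) h1
    exact ⟨⟨f, g, hg, hg0⟩, rfl⟩

noncomputable instance : DivisionRing (SR A) := DivisionRing.ofIsUnitOrEqZero isUnit_or

end Pool.Agent.Q22.AC
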