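import Pool.Agent.Q22.AC.Chain

/-!
# The star product on Hahn series
-/

namespace Pool.Agent.Q22.AC

open Finset Pointwise

section coeffs

variable {A : DFld}

/-- the divided powers of the first derivation -/
noncomputable def P (n : ℕ) (x : A.K) : A.K := (n.factorial : A.K)⁻¹ * A.D1^[n] x

/-- the powers of the second derivation -/
noncomputable def Q (n : ℕ) (x : A.K) : A.K := A.D2^[n] x

theorem iter_add {D : A.K → A.K} (h : IsDer D) (n : ℕ) (x y : A.K) : D^[n] (x + y) = D^[n] x + D^[n] y := by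
  induction n with
  | zero => rfl
  | succ n ih => rw [Function.iterate_succ_apply', ih, h.add, Function.iterate_succ_apply',
      Function.iterate_succ_apply']

theorem iter_zero {D : A.K → A.K} (h : IsDer D) (n : ℕ) : D^[n] (0 : A.K) = 0 := by
  induction n with
  | zero => rfl
  | succ n ih => rw [Function.iterate_succ_apply', ih, h.zero]

theorem iter_one {D : A.K → A.K} (h : IsDer D) (n : ℕ) (hn : n ≠ 0) : D^[n] (1 : A.K) = 0 := by
  obtain ⟨m, rfl⟩ : ∃ m, n = m + 1 := ⟨n - 1, by omega⟩
  rw [Function.iterate_succ_apply, h.one, iter_zero h]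

theorem P_add (n : ℕ) (x y : A.K) : P n (x + y) = P n x + P n y := by
  rw [P, iter_add A.h1, mul_add]; rfl

theorem Q_add (n : ℕ) (x y : A.K) : Q n (x + y) = Q n x + Q n y := iter_add A.h2 n x y

theorem P_zero (n : ℕ) : P n (0 : A.K) = 0 := by rw [P, iter_zero A.h1, mul_zero]

theorem Q_zero (n : ℕ) : Q n (0 : A.K) = 0 := iter_zero A.h2 n

theorem P_nil (x : A.K) : P 0 x = x := by simp [P]

theorem Q_nil (x : A.K) : Q 0 x = x := rfl

theorem P_one (n : ℕ) (hn : n ≠ 0) : P n (1 : A.K) = 0 := by rw [P, iter_one A.h1 n hn, mul_zero]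

theorem Q_one (n : ℕ) (hn : n ≠ 0) : Q n (1 : A.K) = 0 := iter_one A.h2 n hn

theorem P_sum (n : ℕ) {ι : Type*} (s : Finset ι) (f : ι → A.K) : P n (∑ i ∈ s, f i) = ∑ i ∈ s, P n (f i) := by
  classical
  induction s using Finset.induction_on with
  | empty => rw [sum_empty, sum_empty, P_zero]
  | insert a s ha ih => rw [sum_insert ha, sum_insert ha, P_add, ih]

theorem Q_sum (n : ℕ) {ι : Type*} (s : Finset ι) (f : ι → A.K) : Q n (∑ i ∈ s, f i) = ∑ i ∈ s, Q n (f i) := by
  classical
  induction s using Finset.induction_on with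
  | empty => rw [sum_empty, sum_empty, Q_zero]
  | insert a s ha ih => rw [sum_insert ha, sum_insert ha, Q_add, ih]

theorem Q_Q (i j : ℕ) (x : A.K) : Q i (Q j x) = Q (i + j) x := by
  rw [Q, Q, Q, Function.iterate_add_apply]

theorem D1_smul (c : ℚ) (x : A.K) : A.D1 ((c : A.K) * x) = (c : A.K) * A.D1 x := by
  have h : A.D1 (c : A.K) = 0 := by
    have h1 := A.h1.mul ((c.den : A.K)) (c : A.K)
    have h2 : (c.den : A.K) * (c : A.K) = (c.num : A.K) := by
      have : (c.den : A.K) ≠ 0 := by exact_mod_cast c.den_nz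
      rw [Rat.cast_def]
      field_simp
    rw [h2, A.h1.natCast, mul_zero, add_zero] at h1
    have h3 : A.D1 (c.num : A.K) = 0 := by
      rcases Int.eq_nat_or_neg c.num with ⟨n, hn | hn⟩
      · rw [hn]; push_cast; exact A.h1.natCast n
      · rw [hn]; push_cast; rw [A.h1.neg, A.h1.natCast, neg_zero]
    rw [h3] at h1
    rcases mul_eq_zero.1 h1.symm with h | h
    · exfalso
      have : (c.den : A.K) ≠ 0 := by exact_mod_cast c.den_nz
      exact this h
    · exact h
  rw [A.h1.mul, h, mul_zero, add_zero]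

theorem iter_smul (c : ℚ) (n : ℕ) (x : A.K) : A.D1^[n] ((c : A.K) * x) = (c : A.K) * A.D1^[n] x := by
  induction n with
  | zero => rfl
  | succ n ih => rw [Function.iterate_succ_apply', ih, D1_smul, Function.iterate_succ_apply']

theorem P_P (i j : ℕ) (x : A.K) : P i (P j x) = ((i + j).choose i : A.K) * P (i + j) x := by
  have h1 : ((j.factorial : A.K)⁻¹) = (((j.factorial : ℚ)⁻¹ : ℚ) : A.K) := by push_cast; rfl
  rw [P, P, h1, iter_smul, ← Function.iterate_add_apply, P, ← h1]
  have h2 : (i.factorial : A.K) ≠ 0 := by exact_mod_cast i.factorial_ne_zero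
  have h3 : (j.factorial : A.K) ≠ 0 := by exact_mod_cast j.factorial_ne_zero
  have h4 : ((i + j).factorial : A.K) ≠ 0 := by exact_mod_cast (i + j).factorial_ne_zero
  have h5 : ((i + j).choose i : A.K) * (i.factorial : A.K) * (j.factorial : A.K) = ((i + j).factorial : A.K) := by
    have := Nat.add_choose_mul_factorial_mul_factorial j i
    rw [add_comm j i] at this
    rw [mul_right_comm]
    exact_mod_cast this
  rw [← h5]
  have h6 : ((i + j).choose i : A.K) ≠ 0 := by
    intro h
    rw [h, zero_mul, zero_mul] at h5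
    exact h4 h5.symm
  field_simp

theorem P_Q (i j : ℕ) (x : A.K) : P i (Q j x) = Q j (P i x) := by
  have h1 : ∀ y : A.K, A.D2 (A.D1^[i] y) = A.D1^[i] (A.D2 y) := fun y => comm_iter A i y
  have h3 : ∀ y : A.K, A.D2^[j] ((i.factorial : A.K)⁻¹ * y) = (i.factorial : A.K)⁻¹ * A.D2^[j] y := by
    intro y
    induction j with
    | zero => rfl
    | succ j ih =>
      rw [Function.iterate_succ_apply', ih, A.h2.mul, Function.iterate_succ_apply']
      have h4 : A.D2 ((i.factorial : A.K)⁻¹) = 0 := by
        have h5 : (i.factorial : A.K) ≠ 0 := by exact_mod_cast i.factorial_ne_zero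
        have h6 := A.h2.mul (i.factorial : A.K) ((i.factorial : A.K)⁻¹)
        rw [mul_inv_cancel₀ h5, A.h2.one, A.h2.natCast, mul_zero, add_zero] at h6
        rcases mul_eq_zero.1 h6.symm with h | h
        · exact absurd h h5
        · exact h
      rw [h4, mul_zero, add_zero]
  have h2 : ∀ y : A.K, A.D2^[j] (A.D1^[i] y) = A.D1^[i] (A.D2^[j] y) := by
    clear h3
    intro y
    induction j with
    | zero => rfl
    | succ j ih => rw [Function.iterate_succ_apply', ih, h1, Function.iterate_succ_apply']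
  rw [P, Q, Q, P, h3, h2]

theorem Q_mul (n : ℕ) (x y : A.K) : Q n (x * y) = ∑ p ∈ antidiagonal n, (n.choose p.1 : A.K) * (Q p.1 x * Q p.2 y) := by
  induction n with
  | zero => simp [Q]
  | succ n ih =>
    have h := sum_antidiagonal_choose_succ_mul (R := A.K) (fun i j => Q i x * Q j y) n
    rw [h]
    have h2 : Q (n + 1) (x * y) = A.D2 (Q n (x * y)) := Function.iterate_succ_apply' _ _ _
    rw [h2, ih, A.h2.sum, ← sum_add_distrib]
    refine sum_congr rfl fun p hp => ?_
    have h3 : ∀ i (z : A.K), A.D2 (Q i z) = Q (i + 1) z := fun i z => (Function.iterate_succ_apply' _ _ _).symm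
    rw [A.h2.natMul, A.h2.mul, h3, h3]
    rw [HasAntidiagonal.mem_antidiagonal] at hp
    have h4 : n.choose p.2 = n.choose p.1 := Nat.choose_symm_of_eq_add (by omega)
    rw [h4]
    ring

theorem P_mul (n : ℕ) (x y : A.K) : P n (x * y) = ∑ p ∈ antidiagonal n, P p.1 x * P p.2 y := by
  have h1 : ∀ n : ℕ, A.D1^[n] (x * y) = ∑ p ∈ antidiagonal n, (n.choose p.1 : A.K) * (A.D1^[p.1] x * A.D1^[p.2] y) := by
    intro n
    induction n with
    | zero => simp
    | succ n ih =>
      have h := sum_antidiagonal_choose_succ_mul (R := A.K) (fun i j => A.D1^[i] x * A.D1^[j] y) n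
      rw [h, Function.iterate_succ_apply', ih, A.h1.sum, ← sum_add_distrib]
      refine sum_congr rfl fun p hp => ?_
      rw [A.h1.natMul, A.h1.mul, Function.iterate_succ_apply', Function.iterate_succ_apply']
      rw [HasAntidiagonal.mem_antidiagonal] at hp
      have h4 : n.choose p.2 = n.choose p.1 := Nat.choose_symm_of_eq_add (by omega)
      rw [h4]
      ring
  rw [P, h1, mul_sum]
  refine sum_congr rfl fun p hp => ?_
  rw [HasAntidiagonal.mem_antidiagonal] at hp
  rw [P, P]
  have h2 : (p.1.factorial : A.K) ≠ 0 := by exact_mod_cast p.1.factorial_ne_zero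
  have h3 : (p.2.factorial : A.K) ≠ 0 := by exact_mod_cast p.2.factorial_ne_zero
  have h5 : (n.choose p.1 : A.K) * (p.1.factorial : A.K) * (p.2.factorial : A.K) = (n.factorial : A.K) := by
    have := Nat.add_choose_mul_factorial_mul_factorial p.2 p.1
    rw [add_comm p.2 p.1, hp] at this
    rw [mul_right_comm]
    exact_mod_cast this
  have h4 : (n.factorial : A.K) ≠ 0 := by exact_mod_cast n.factorial_ne_zero
  rw [← h5]
  have h6 : (n.choose p.1 : A.K) ≠ 0 := by
    intro h
    rw [h, zero_mul, zero_mul] at h5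
    exact h4 h5.symm
  field_simp

/-- **the homogeneous identity behind the associativity** -/
theorem hom_id (k : ℕ) (x y z : A.K) :
    ∑ p ∈ antidiagonal k, P p.1 (P p.2 x * Q p.2 y) * Q p.1 z =
      ∑ p ∈ antidiagonal k, P p.2 x * Q p.2 (P p.1 y * Q p.1 z) := by
  have h1 : ∀ p ∈ antidiagonal k, P p.1 (P p.2 x * Q p.2 y) * Q p.1 z =
      ∑ q ∈ antidiagonal p.1, ((p.2 + q.1).choose p.2 : A.K) * (P (p.2 + q.1) x * Q p.2 (P q.2 y) * Q (q.1 + q.2) z) := by
    intro p _
    rw [P_mul, sum_mul]
    refine sum_congr rfl fun q hq => ?_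
    rw [HasAntidiagonal.mem_antidiagonal] at hq
    rw [P_P, P_Q, hq, add_comm q.1 p.2]
    have h4 : (p.2 + q.1).choose q.1 = (p.2 + q.1).choose p.2 := Nat.choose_symm_of_eq_add (by omega)
    rw [h4]
    ring
  have h2 : ∀ p ∈ antidiagonal k, P p.2 x * Q p.2 (P p.1 y * Q p.1 z) =
      ∑ q ∈ antidiagonal p.2, ((q.1 + q.2).choose q.1 : A.K) * (P (q.1 + q.2) x * Q q.1 (P p.1 y) * Q (q.2 + p.1) z) := by
    intro p _
    rw [Q_mul, mul_sum]
    refine sum_congr rfl fun q hq => ?_
    rw [HasAntidiagonal.mem_antidiagonal] at hq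
    rw [Q_Q, hq]
    ring
  rw [sum_congr rfl h1, sum_congr rfl h2, sum_sigma', sum_sigma']
  refine sum_nbij' (fun s => ⟨(s.2.2, s.1.2 + s.2.1), (s.1.2, s.2.1)⟩)
    (fun s => ⟨(s.2.2 + s.1.1, s.2.1), (s.2.2, s.1.1)⟩) ?_ ?_ ?_ ?_ ?_
  · rintro ⟨⟨a, b⟩, ⟨c, d⟩⟩ h
    obtain ⟨h1, h2⟩ := mem_sigma.1 h
    rw [HasAntidiagonal.mem_antidiagonal] at h1 h2
    simp only at h1 h2
    exact mem_sigma.2 ⟨HasAntidiagonal.mem_antidiagonal.2 (by simp only; omega),
      HasAntidiagonal.mem_antidiagonal.2 (by simp only)⟩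
  · rintro ⟨⟨a, b⟩, ⟨c, d⟩⟩ h
    obtain ⟨h1, h2⟩ := mem_sigma.1 h
    rw [HasAntidiagonal.mem_antidiagonal] at h1 h2
    simp only at h1 h2
    exact mem_sigma.2 ⟨HasAntidiagonal.mem_antidiagonal.2 (by simp only; omega),
      HasAntidiagonal.mem_antidiagonal.2 (by simp only)⟩
  · rintro ⟨⟨a, b⟩, ⟨c, d⟩⟩ h
    obtain ⟨h1, h2⟩ := mem_sigma.1 h
    rw [HasAntidiagonal.mem_antidiagonal] at h1 h2
    simp only at h1 h2 ⊢
    subst h2
    rfl
  · rintro ⟨⟨a, b⟩, ⟨c, d⟩⟩ h
    obtain ⟨h1, h2⟩ := mem_sigma.1 h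
    rw [HasAntidiagonal.mem_antidiagonal] at h1 h2
    simp only at h1 h2 ⊢
    subst h2
    rfl
  · rintro ⟨⟨a, b⟩, ⟨c, d⟩⟩ h
    rfl

end coeffs

section star

variable {A : DFld}

/-- Hahn series over the field -/
abbrev H (A : DFld) := HahnSeries ℚ A.K

/-- the sum which defines the coefficients of the star product -/
noncomputable def SC {S T : Set ℚ} (hS : S.IsPWO) (hT : T.IsPWO) (N : ℕ) (f g : ℚ → A.K) (β : ℚ) : A.K :=
  ∑ n ∈ range N, ∑ p ∈ _root_.Finset.antidiagonal hS hT (β - n), P n (f p.1) * Q n (g p.2)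

theorem SC_N {S T : Set ℚ} (hS : S.IsPWO) (hT : T.IsPWO) {c d : ℚ} (hc : ∀ a ∈ S, c ≤ a)
    (hd : ∀ b ∈ T, d ≤ b) {β : ℚ} {N M : ℕ} (hN : β < c + d + N) (hNM : N ≤ M) (f g : ℚ → A.K) :
    SC hS hT M f g β = SC hS hT N f g β := by
  rw [SC, SC]
  symm
  refine sum_subset (range_mono hNM) fun n _ hn => ?_
  rw [mem_range, not_lt] at hn
  refine sum_eq_zero fun p hp => ?_
  rw [_root_.Finset.mem_antidiagonal] at hp
  exfalso
  have h1 := hc p.1 hp.1
  have h2 := hd p.2 hp.2.1
  have h3 : (N : ℚ) ≤ n := by exact_mod_cast hn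
  linarith [hp.2.2]

theorem SC_sets {S T S' T' : Set ℚ} (hS : S.IsPWO) (hT : T.IsPWO) (hS' : S'.IsPWO) (hT' : T'.IsPWO)
    (h1 : S ⊆ S') (h2 : T ⊆ T') {f g : ℚ → A.K} (hf : Function.support f ⊆ S)
    (hg : Function.support g ⊆ T) (N : ℕ) (β : ℚ) : SC hS' hT' N f g β = SC hS hT N f g β := by
  rw [SC, SC]
  refine sum_congr rfl fun n _ => ?_
  symm
  refine sum_subset ?_ ?_
  · intro p hp
    rw [_root_.Finset.mem_antidiagonal] at hp ⊢
    exact ⟨h1 hp.1, h2 hp.2.1, hp.2.2⟩
  · intro p hp hp'
    rw [_root_.Finset.mem_antidiagonal] at hp hp'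
    by_cases h3 : p.1 ∈ S
    · have h4 : p.2 ∉ T := fun h4 => hp' ⟨h3, h4, hp.2.2⟩
      have h5 : g p.2 = 0 := by
        by_contra h
        exact h4 (hg h)
      rw [h5, Q_zero, mul_zero]
    · have h5 : f p.1 = 0 := by
        by_contra h
        exact h3 (hf h)
      rw [h5, P_zero, zero_mul]

/-- the number of terms which matter -/
noncomputable def NN (r : ℚ) : ℕ := ⌊r⌋₊ + 1

theorem lt_NN (r : ℚ) : r < NN r := by
  rw [NN]
  push_cast
  exact Nat.lt_floor_add_one r

theorem natRange_isPWO : (Set.range (fun n : ℕ => (n : ℚ))).IsPWO := by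
  rw [← Set.image_univ]
  exact (Set.isPWO_of_wellQuasiOrderedLE _).image_of_monotone (fun a b h => by exact_mod_cast h)

theorem order_le (f : H A) : ∀ a ∈ Function.support f.coeff, f.order ≤ a :=
  fun _ ha => HahnSeries.order_le_of_coeff_ne_zero ha

/-- the star product -/
noncomputable def star (f g : H A) : H A where
  coeff β := SC f.isPWO_support g.isPWO_support (NN (β - f.order - g.order)) f.coeff g.coeff β
  isPWO_support' := by
    refine ((f.isPWO_support.add g.isPWO_support).add natRange_isPWO).mono ?_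
    intro β hβ
    rw [Function.mem_support] at hβ
    obtain ⟨n, _, hn⟩ := exists_ne_zero_of_sum_ne_zero hβ
    obtain ⟨p, hp, _⟩ := exists_ne_zero_of_sum_ne_zero hn
    rw [_root_.Finset.mem_antidiagonal] at hp
    refine ⟨p.1 + p.2, ⟨p.1, hp.1, p.2, hp.2.1, rfl⟩, n, ⟨n, rfl⟩, ?_⟩
    change p.1 + p.2 + (n : ℚ) = β
    rw [hp.2.2]
    ring

theorem star_coeff {S T : Set ℚ} (hS : S.IsPWO) (hT : T.IsPWO) {f g : H A} (hf : f.support ⊆ S)
    (hg : g.support ⊆ T) {c d : ℚ} (hc : ∀ a ∈ S, c ≤ a) (hd : ∀ b ∈ T, d ≤ b) {β : ℚ} {N : ℕ}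
    (hN : β < c + d + N) : (star f g).coeff β = SC hS hT N f.coeff g.coeff β := by
  change SC f.isPWO_support g.isPWO_support (NN (β - f.order - g.order)) f.coeff g.coeff β = _
  obtain ⟨M, hM⟩ : ∃ M, M = max N (NN (β - f.order - g.order)) := ⟨_, rfl⟩
  rw [← SC_N hS hT hc hd hN (M := M) (hM ▸ le_max_left _ _), SC_sets f.isPWO_support g.isPWO_support
    hS hT hf hg (fun _ h => h) (fun _ h => h)]
  symm
  refine SC_N f.isPWO_support g.isPWO_support (order_le f) (order_le g) ?_ (hM ▸ le_max_right _ _) _ _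
  have := lt_NN (β - f.order - g.order)
  linarith

theorem exists_lb {S : Set ℚ} (hS : S.IsPWO) : ∃ c : ℚ, ∀ a ∈ S, c ≤ a := by
  by_cases h : S.Nonempty
  · exact ⟨hS.isWF.min h, fun a ha => hS.isWF.min_le h ha⟩
  · exact ⟨0, fun a ha => absurd ⟨a, ha⟩ h⟩

theorem SC_add_left {S T : Set ℚ} (hS : S.IsPWO) (hT : T.IsPWO) (N : ℕ) (f f' g : ℚ → A.K) (β : ℚ) :
    SC hS hT N (fun a => f a + f' a) g β = SC hS hT N f g β + SC hS hT N f' g β := by
  rw [SC, SC, SC, ← sum_add_distrib]
  refine sum_congr rfl fun n _ => ?_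
  rw [← sum_add_distrib]
  refine sum_congr rfl fun p _ => ?_
  rw [P_add, add_mul]

theorem SC_add_right {S T : Set ℚ} (hS : S.IsPWO) (hT : T.IsPWO) (N : ℕ) (f g g' : ℚ → A.K) (β : ℚ) :
    SC hS hT N f (fun a => g a + g' a) β = SC hS hT N f g β + SC hS hT N f g' β := by
  rw [SC, SC, SC, ← sum_add_distrib]
  refine sum_congr rfl fun n _ => ?_
  rw [← sum_add_distrib]
  refine sum_congr rfl fun p _ => ?_
  rw [Q_add, mul_add]

theorem exists_N (r c : ℚ) : ∃ N : ℕ, r < c + N := by
  obtain ⟨N, hN⟩ := exists_nat_gt (r - c)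
  exact ⟨N, by linarith⟩

theorem star_add_left (f f' g : H A) : star (f + f') g = star f g + star f' g := by
  ext β
  have hS := f.isPWO_support.union f'.isPWO_support
  have hT := g.isPWO_support
  obtain ⟨c, hc⟩ := exists_lb hS
  obtain ⟨d, hd⟩ := exists_lb hT
  obtain ⟨N, hN⟩ := exists_N β (c + d)
  rw [HahnSeries.coeff_add, star_coeff hS hT (HahnSeries.support_add_subset _ _) (fun _ h => h) hc hd hN,
    star_coeff hS hT Set.subset_union_left (fun _ h => h) hc hd hN,
    star_coeff hS hT Set.subset_union_right (fun _ h => h) hc hd hN]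
  exact SC_add_left hS hT N _ _ _ β

theorem star_add_right (f g g' : H A) : star f (g + g') = star f g + star f g' := by
  ext β
  have hS := f.isPWO_support
  have hT := g.isPWO_support.union g'.isPWO_support
  obtain ⟨c, hc⟩ := exists_lb hS
  obtain ⟨d, hd⟩ := exists_lb hT
  obtain ⟨N, hN⟩ := exists_N β (c + d)
  rw [HahnSeries.coeff_add, star_coeff hS hT (fun _ h => h) (HahnSeries.support_add_subset _ _) hc hd hN,
    star_coeff hS hT (fun _ h => h) Set.subset_union_left hc hd hN,
    star_coeff hS hT (fun _ h => h) Set.subset_union_right hc hd hN]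
  exact SC_add_right hS hT N _ _ _ β

theorem star_zero_left (g : H A) : star 0 g = 0 := by
  have := star_add_left (0 : H A) 0 g
  rw [add_zero] at this
  exact left_eq_add.1 this

theorem star_zero_right (g : H A) : star g 0 = 0 := by
  have := star_add_right g (0 : H A) 0
  rw [add_zero] at this
  exact left_eq_add.1 this

/-- the product with a monomial on the right -/
theorem star_single_right (f : H A) (c : ℚ) (z : A.K) {e β : ℚ} (he : ∀ a, f.coeff a ≠ 0 → e ≤ a) {N : ℕ}
    (hN : β < e + c + N) : (star f (HahnSeries.single c z)).coeff β =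
      ∑ n ∈ range N, P n (f.coeff (β - n - c)) * Q n z := by
  have hT : ({c} : Set ℚ).IsPWO := Set.isPWO_singleton c
  rw [star_coeff f.isPWO_support hT (fun _ h => h) HahnSeries.support_single_subset he
    (fun b hb => (Set.mem_singleton_iff.1 hb).ge) hN, SC]
  refine sum_congr rfl fun n _ => ?_
  by_cases h : β - n - c ∈ f.support
  · rw [sum_eq_single (β - n - c, c)]
    · simp only [HahnSeries.coeff_single_same]
    · rintro ⟨a, b⟩ hp hne
      rw [_root_.Finset.mem_antidiagonal] at hp
      exfalso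
      apply hne
      have h1 : b = c := hp.2.1
      have h2 := hp.2.2
      simp only at h2
      ext
      · simp only; linarith
      · exact h1
    · intro hp
      exfalso
      apply hp
      rw [_root_.Finset.mem_antidiagonal]
      exact ⟨h, rfl, by ring⟩
  · have h1 : f.coeff (β - n - c) = 0 := by
      by_contra h2
      exact h h2
    rw [h1, P_zero, zero_mul]
    refine sum_eq_zero ?_
    rintro ⟨a, b⟩ hp
    rw [_root_.Finset.mem_antidiagonal] at hp
    exfalso
    apply h
    have h2 : b = c := hp.2.1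
    have h3 := hp.2.2
    simp only at h3
    have h4 : a = β - n - c := by linarith
    rw [← h4]
    exact hp.1

/-- the product with a monomial on the left -/
theorem star_single_left (g : H A) (c : ℚ) (z : A.K) {e β : ℚ} (he : ∀ a, g.coeff a ≠ 0 → e ≤ a) {N : ℕ}
    (hN : β < c + e + N) : (star (HahnSeries.single c z) g).coeff β =
      ∑ n ∈ range N, P n z * Q n (g.coeff (β - n - c)) := by
  have hT : ({c} : Set ℚ).IsPWO := Set.isPWO_singleton c
  rw [star_coeff hT g.isPWO_support HahnSeries.support_single_subset (fun _ h => h)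
    (fun b hb => (Set.mem_singleton_iff.1 hb).ge) he hN, SC]
  refine sum_congr rfl fun n _ => ?_
  by_cases h : β - n - c ∈ g.support
  · rw [sum_eq_single (c, β - n - c)]
    · simp only [HahnSeries.coeff_single_same]
    · rintro ⟨a, b⟩ hp hne
      rw [_root_.Finset.mem_antidiagonal] at hp
      exfalso
      apply hne
      have h1 : a = c := hp.1
      have h2 := hp.2.2
      simp only at h2
      ext
      · exact h1
      · simp only; linarith
    · intro hp
      exfalso
      apply hp
      rw [_root_.Finset.mem_antidiagonal]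
      exact ⟨rfl, h, by ring⟩
  · have h1 : g.coeff (β - n - c) = 0 := by
      by_contra h2
      exact h h2
    rw [h1, Q_zero, mul_zero]
    refine sum_eq_zero ?_
    rintro ⟨a, b⟩ hp
    rw [_root_.Finset.mem_antidiagonal] at hp
    exfalso
    apply h
    have h2 : a = c := hp.1
    have h3 := hp.2.2
    simp only at h3
    have h4 : b = β - n - c := by linarith
    rw [← h4]
    exact hp.2.1

theorem lb_single (a : ℚ) (x : A.K) : ∀ b, (HahnSeries.single a x).coeff b ≠ 0 → a ≤ b := by
  intro b hb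
  by_contra h
  apply hb
  exact HahnSeries.coeff_single_of_ne (fun h2 => h h2.ge)

theorem lb_star {f g : H A} {c d : ℚ} (hc : ∀ a, f.coeff a ≠ 0 → c ≤ a) (hd : ∀ a, g.coeff a ≠ 0 → d ≤ a) :
    ∀ a, (star f g).coeff a ≠ 0 → c + d ≤ a := by
  intro β hβ
  by_contra h
  apply hβ
  rw [not_le] at h
  rw [star_coeff f.isPWO_support g.isPWO_support (fun _ h => h) (fun _ h => h) hc hd (N := 0) (by
    push_cast; linarith), SC, range_zero, sum_empty]

open Classical in
theorem double_sum (κ : ℚ) (M : ℕ) (hκ : κ < M) (t : ℕ → ℕ → A.K) :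
    ∑ m ∈ range M, ∑ n ∈ range M, (if κ = m + n then t m n else 0) =
      if h : ∃ k : ℕ, κ = k then ∑ p ∈ antidiagonal h.choose, t p.1 p.2 else 0 := by
  rw [← sum_product', ← sum_filter]
  by_cases h : ∃ k : ℕ, κ = k
  · rw [dif_pos h]
    refine sum_congr ?_ fun _ _ => rfl
    obtain ⟨k, hk⟩ : ∃ k, k = h.choose := ⟨_, rfl⟩
    have hκk : κ = k := hk ▸ h.choose_spec
    rw [← hk]
    ext ⟨m, n⟩
    rw [mem_filter, mem_product, mem_range, mem_range, HasAntidiagonal.mem_antidiagonal]
    simp only
    have h1 : k < M := by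
      rw [hκk] at hκ
      exact_mod_cast hκ
    constructor
    · rintro ⟨_, h2⟩
      rw [hκk] at h2
      have : k = m + n := by exact_mod_cast h2
      exact this.symm
    · intro h2
      refine ⟨⟨by omega, by omega⟩, ?_⟩
      rw [hκk, ← h2]
      push_cast
      rfl
  · rw [dif_neg h]
    refine sum_eq_zero fun p hp => ?_
    rw [mem_filter] at hp
    exfalso
    exact h ⟨p.1 + p.2, by rw [hp.2]; push_cast; rfl⟩

/-- associativity for monomials -/
theorem assoc_single (a b c : ℚ) (x y z : A.K) :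
    star (star (HahnSeries.single a x) (HahnSeries.single b y)) (HahnSeries.single c z) =
      star (HahnSeries.single a x) (star (HahnSeries.single b y) (HahnSeries.single c z)) := by
  ext β
  obtain ⟨M, hM⟩ := exists_N β (a + b + c)
  have hκ : β - (a + b + c) < M := by linarith
  rw [star_single_right _ c z (lb_star (lb_single a x) (lb_single b y)) hM,
    star_single_left _ a x (lb_star (lb_single b y) (lb_single c z)) (N := M) (by linarith)]
  have h1 : ∀ m : ℕ, P m ((star (HahnSeries.single a x) (HahnSeries.single b y)).coeff (β - m - c)) * Q m z =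
      ∑ n ∈ range M, (if β - (a + b + c) = m + n then P m (P n x * Q n y) * Q m z else 0) := by
    intro m
    rw [star_single_right _ b y (lb_single a x) (N := M) (by
      have : (0 : ℚ) ≤ m := Nat.cast_nonneg m
      linarith), P_sum, sum_mul]
    refine sum_congr rfl fun n _ => ?_
    rw [HahnSeries.coeff_single]
    by_cases h : β - (a + b + c) = m + n
    · rw [if_pos h, if_pos (by linarith)]
    · rw [if_neg h, if_neg (fun h2 => h (by linarith)), P_zero, zero_mul, P_zero, zero_mul]
  have h2 : ∀ n : ℕ, P n x * Q n ((star (HahnSeries.single b y) (HahnSeries.single c z)).coeff (β - n - a)) =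
      ∑ m ∈ range M, (if β - (a + b + c) = m + n then P n x * Q n (P m y * Q m z) else 0) := by
    intro n
    rw [star_single_left _ b y (lb_single c z) (N := M) (by
      have : (0 : ℚ) ≤ n := Nat.cast_nonneg n
      linarith), Q_sum, mul_sum]
    refine sum_congr rfl fun m _ => ?_
    rw [HahnSeries.coeff_single]
    by_cases h : β - (a + b + c) = m + n
    · rw [if_pos h, if_pos (by linarith)]
    · rw [if_neg h, if_neg (fun h2 => h (by linarith)), Q_zero, mul_zero, Q_zero, mul_zero]
  rw [sum_congr rfl fun m _ => h1 m, sum_congr rfl fun n _ => h2 n, sum_comm (s := range M) (t := range M)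
    (f := fun n m => if β - (a + b + c) = m + n then P n x * Q n (P m y * Q m z) else 0),
    double_sum _ M hκ (fun m n => P m (P n x * Q n y) * Q m z),
    double_sum _ M hκ (fun m n => P n x * Q n (P m y * Q m z))]
  split
  · exact hom_id _ x y z
  · rfl

end star

section good

variable {A : DFld} {X : Type}

/-- a class of functions which is closed under the operations of differential polynomials -/
structure DClosed (D : Set (X → A.K)) : Prop where
  const : ∀ c : A.K, (fun _ => c) ∈ D
  add : ∀ f g, f ∈ D → g ∈ D → (fun x => f x + g x) ∈ D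
  mul : ∀ f g, f ∈ D → g ∈ D → (fun x => f x * g x) ∈ D
  d1 : ∀ f, f ∈ D → (fun x => A.D1 (f x)) ∈ D
  d2 : ∀ f, f ∈ D → (fun x => A.D2 (f x)) ∈ D

theorem DClosed.P {D : Set (X → A.K)} (h : DClosed D) (n : ℕ) {f : X → A.K} (hf : f ∈ D) :
    (fun x => P n (f x)) ∈ D := by
  refine h.mul (fun _ => (n.factorial : A.K)⁻¹) _ (h.const _) ?_
  induction n with
  | zero => exact hf
  | succ n ih =>
    have := h.d1 _ ih
    simpa only [← Function.iterate_succ_apply' A.D1] using this

theorem DClosed.Q {D : Set (X → A.K)} (h : DClosed D) (n : ℕ) {f : X → A.K} (hf : f ∈ D) :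
    (fun x => Q n (f x)) ∈ D := by
  induction n with
  | zero => exact hf
  | succ n ih =>
    have := h.d2 _ ih
    simpa only [AC.Q, ← Function.iterate_succ_apply' A.D2] using this

theorem DClosed.sum {D : Set (X → A.K)} (h : DClosed D) {ι : Type*} (s : Finset ι) (f : ι → X → A.K)
    (hf : ∀ i ∈ s, f i ∈ D) : (fun x => ∑ i ∈ s, f i x) ∈ D := by
  classical
  induction s using Finset.induction_on with
  | empty => simpa only [sum_empty] using h.const 0
  | insert a s ha ih =>
    simp only [sum_insert ha]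
    exact h.add _ _ (hf a (mem_insert_self a s)) (ih fun i hi => hf i (mem_insert_of_mem hi))

/-- a family of Hahn series with uniform support and coefficients in a class of functions -/
def Good (D : Set (X → A.K)) (F : X → H A) : Prop :=
  ∃ S : Set ℚ, S.IsPWO ∧ (∀ x, (F x).support ⊆ S) ∧ ∀ a, (fun x => (F x).coeff a) ∈ D

theorem Good.const {D : Set (X → A.K)} (h : DClosed D) (f : H A) : Good D (fun _ : X => f) :=
  ⟨f.support, f.isPWO_support, fun _ _ h => h, fun _ => h.const _⟩

theorem Good.add {D : Set (X → A.K)} (h : DClosed D) {F G : X → H A} (hF : Good D F) (hG : Good D G) :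
    Good D (fun x => F x + G x) := by
  obtain ⟨S, hS, hS1, hS2⟩ := hF
  obtain ⟨T, hT, hT1, hT2⟩ := hG
  refine ⟨S ∪ T, hS.union hT, fun x => (HahnSeries.support_add_subset _ _).trans
    (Set.union_subset_union (hS1 x) (hT1 x)), fun a => ?_⟩
  simp only [HahnSeries.coeff_add]
  exact h.add _ _ (hS2 a) (hT2 a)

theorem Good.star {D : Set (X → A.K)} (h : DClosed D) {F G : X → H A} (hF : Good D F) (hG : Good D G) :
    Good D (fun x => star (F x) (G x)) := by
  obtain ⟨S, hS, hS1, hS2⟩ := hF
  obtain ⟨T, hT, hT1, hT2⟩ := hG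
  obtain ⟨c, hc⟩ := exists_lb hS
  obtain ⟨d, hd⟩ := exists_lb hT
  have key : ∀ β : ℚ, ∃ N : ℕ, ∀ x, (AC.star (F x) (G x)).coeff β = SC hS hT N (F x).coeff (G x).coeff β := by
    intro β
    obtain ⟨N, hN⟩ := exists_N β (c + d)
    exact ⟨N, fun x => star_coeff hS hT (hS1 x) (hT1 x) hc hd hN⟩
  refine ⟨(S + T) + Set.range (fun n : ℕ => (n : ℚ)), (hS.add hT).add natRange_isPWO, ?_, ?_⟩
  · intro x β hβ
    obtain ⟨N, hN⟩ := key β
    have hβ' : SC hS hT N (F x).coeff (G x).coeff β ≠ 0 := by
      rw [← hN]; exact hβ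
    obtain ⟨n, _, hn⟩ := exists_ne_zero_of_sum_ne_zero hβ'
    obtain ⟨p, hp, _⟩ := exists_ne_zero_of_sum_ne_zero hn
    rw [_root_.Finset.mem_antidiagonal] at hp
    refine ⟨p.1 + p.2, ⟨p.1, hp.1, p.2, hp.2.1, rfl⟩, n, ⟨n, rfl⟩, ?_⟩
    change p.1 + p.2 + (n : ℚ) = β
    rw [hp.2.2]
    ring
  · intro β
    obtain ⟨N, hN⟩ := key β
    simp only [hN, SC]
    refine h.sum _ _ fun n _ => h.sum _ _ fun p _ => ?_
    exact h.mul _ _ (h.P n (hS2 p.1)) (h.Q n (hT2 p.2))

/-- the class of continuous functions of a set of exponents -/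
def Cont (A : DFld) : Set (Set ℚ → A.K) := {φ | ∃ s : Finset ℚ, ∀ T : Set ℚ, (s : Set ℚ) ⊆ T → φ T = φ Set.univ}

theorem Cont_closed : DClosed (Cont A) := by
  classical
  refine ⟨fun c => ⟨∅, fun _ _ => rfl⟩, ?_, ?_, ?_, ?_⟩
  · rintro f g ⟨s, hs⟩ ⟨t, ht⟩
    refine ⟨s ∪ t, fun T hT => ?_⟩
    rw [coe_union] at hT
    simp only
    rw [hs T (Set.subset_union_left.trans hT), ht T (Set.subset_union_right.trans hT)]
  · rintro f g ⟨s, hs⟩ ⟨t, ht⟩
    refine ⟨s ∪ t, fun T hT => ?_⟩
    rw [coe_union] at hT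
    simp only
    rw [hs T (Set.subset_union_left.trans hT), ht T (Set.subset_union_right.trans hT)]
  · rintro f ⟨s, hs⟩
    exact ⟨s, fun T hT => by simp only; rw [hs T hT]⟩
  · rintro f ⟨s, hs⟩
    exact ⟨s, fun T hT => by simp only; rw [hs T hT]⟩

/-- the restriction of a Hahn series to a set of exponents -/
noncomputable def restr (f : H A) (T : Set ℚ) : H A where
  coeff := T.indicator f.coeff
  isPWO_support' := by
    refine f.isPWO_support.mono ?_
    intro a ha
    rw [HahnSeries.mem_support]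
    intro h
    apply ha
    rw [Set.indicator_apply_eq_zero]
    exact fun _ => h

theorem restr_coeff (f : H A) (T : Set ℚ) (a : ℚ) : (restr f T).coeff a = T.indicator f.coeff a := rfl

theorem restr_univ (f : H A) : restr f Set.univ = f := by
  ext a
  rw [restr_coeff, Set.indicator_univ]

theorem restr_good (f : H A) : Good (Cont A) (fun T => restr f T) := by
  refine ⟨f.support, f.isPWO_support, fun T a ha => ?_, fun a => ⟨{a}, fun T hT => ?_⟩⟩
  · rw [HahnSeries.mem_support] at ha ⊢
    intro h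
    apply ha
    rw [restr_coeff, Set.indicator_apply_eq_zero]
    exact fun _ => h
  · simp only [restr_coeff]
    rw [Set.indicator_of_mem (hT (by simp)), Set.indicator_univ]

theorem restr_finset (f : H A) (s : Finset ℚ) : restr f s = ∑ a ∈ s, HahnSeries.single a (f.coeff a) := by
  classical
  ext b
  rw [HahnSeries.coeff_sum, restr_coeff]
  by_cases h : b ∈ s
  · rw [Set.indicator_of_mem (mem_coe.2 h), sum_eq_single b, HahnSeries.coeff_single_same]
    · intro a _ hab
      exact HahnSeries.coeff_single_of_ne hab.symm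
    · intro h2
      exact absurd h h2
  · rw [Set.indicator_of_notMem (fun h2 => h (mem_coe.1 h2))]
    symm
    refine sum_eq_zero fun a ha => HahnSeries.coeff_single_of_ne ?_
    rintro rfl
    exact h ha

theorem finset_induct {C : H A → Prop} (h0 : C 0) (hadd : ∀ f g, C f → C g → C (f + g))
    (hs : ∀ a x, C (HahnSeries.single a x)) (f : H A) (s : Finset ℚ) : C (restr f s) := by
  classical
  rw [restr_finset]
  induction s using Finset.induction_on with
  | empty => simpa using h0
  | insert a s ha ih =>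
    rw [sum_insert ha]
    exact hadd _ _ (hs _ _) ih

/-- **Associativity of the star product.** -/
theorem star_assoc (f g h : H A) : star (star f g) h = star f (star g h) := by
  classical
  have key : ∀ s s' s'' : Finset ℚ, star (star (restr f s) (restr g s')) (restr h s'') =
      star (restr f s) (star (restr g s') (restr h s'')) := by
    intro s s' s''
    refine finset_induct (C := fun F => star (star F (restr g s')) (restr h s'') =
      star F (star (restr g s') (restr h s''))) ?_ ?_ ?_ f s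
    · simp only [star_zero_left]
    · intro u v hu hv
      simp only [star_add_left, hu, hv]
    intro a x
    refine finset_induct (C := fun F => star (star (HahnSeries.single a x) F) (restr h s'') =
      star (HahnSeries.single a x) (star F (restr h s''))) ?_ ?_ ?_ g s'
    · simp only [star_zero_left, star_zero_right]
    · intro u v hu hv
      simp only [star_add_left, star_add_right, hu, hv]
    intro b y
    refine finset_induct (C := fun F => star (star (HahnSeries.single a x) (HahnSeries.single b y)) F =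
      star (HahnSeries.single a x) (star (HahnSeries.single b y) F)) ?_ ?_ ?_ h s''
    · simp only [star_zero_right]
    · intro u v hu hv
      simp only [star_add_right, hu, hv]
    intro c z
    exact assoc_single a b c x y z
  ext β
  have h1 := ((restr_good f).star Cont_closed (restr_good g)).star Cont_closed (restr_good h)
  have h2 := (restr_good f).star Cont_closed ((restr_good g).star Cont_closed (restr_good h))
  obtain ⟨_, _, _, h1⟩ := h1
  obtain ⟨_, _, _, h2⟩ := h2
  obtain ⟨s, hs⟩ := h1 β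
  obtain ⟨t, ht⟩ := h2 β
  have e1 := hs (s ∪ t : Finset ℚ) (by rw [coe_union]; exact Set.subset_union_left)
  have e2 := ht (s ∪ t : Finset ℚ) (by rw [coe_union]; exact Set.subset_union_right)
  simp only [restr_univ] at e1 e2
  rw [← e1, ← e2, key]

end good

end Pool.Agent.Q22.AC
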