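import Pool.Agent.Q22.AC.Ext

/-!
# Adjoining solutions of differential equations in one unknown function
-/

namespace Pool.Agent.Q22.AC

open Polynomial

/-- the polynomials all of whose coefficients are killed by a derivation -/
def killed {B : Type*} [Field B] {E : B → B} (hE : IsDer E) : Subring B[X] where
  carrier := {p | ∀ i, E (p.coeff i) = 0}
  mul_mem' := by
    intro p q hp hq i
    rw [coeff_mul, hE.sum]
    refine Finset.sum_eq_zero fun x _ => ?_
    rw [hE.mul, hp, hq, mul_zero, mul_zero, add_zero]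
  one_mem' := by
    intro i
    rw [coeff_one]
    split
    · exact hE.one
    · exact hE.zero
  add_mem' := by
    intro p q hp hq i
    rw [coeff_add, hE.add, hp, hq, add_zero]
  zero_mem' := by
    intro i
    rw [coeff_zero, hE.zero]
  neg_mem' := by
    intro p hp i
    rw [coeff_neg, hE.neg, hp, neg_zero]

/-- differential polynomials in one unknown function (two commuting derivations); the variable
`(k, l)` stands for `D1 ^ k (D2 ^ l y)` -/
abbrev DP (K : Type) [Field K] := MvPolynomial (ℕ × ℕ) K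

theorem exists_leader {K : Type} [Field K] (Φ : DP K) (h : Φ.vars.Nonempty) :
    ∃ p ∈ Φ.vars, ∀ v ∈ Φ.vars, v.1 < p.1 ∨ (v.1 = p.1 ∧ v.2 ≤ p.2) := by
  obtain ⟨p, hp, hmax⟩ := Finset.exists_max_image Φ.vars (fun v => toLex v) h
  refine ⟨p, hp, fun v hv => ?_⟩
  have := hmax v hv
  rw [Prod.Lex.toLex_le_toLex] at this
  exact this

/-- the index type: differential polynomials which are not constant -/
abbrev II (K : Type) [Field K] := {Φ : DP K // Φ.vars.Nonempty}

/-- the type of the variables -/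
abbrev SS (K : Type) [Field K] := II K × (ℕ × ℕ)

section

variable {K : Type} [Field K]

/-- the new field -/
abbrev NF (K : Type) [Field K] := BB K (SS K)

/-- the embedding of the old field -/
noncomputable def ii (K : Type) [Field K] : K →+* NF K := (emb K (SS K)).comp MvPolynomial.C

/-- the variables -/
noncomputable def xx (Φ : II K) (p : ℕ × ℕ) : NF K := emb K (SS K) (MvPolynomial.X (Φ, p))

/-- the leader -/
noncomputable def lead (Φ : II K) : ℕ × ℕ := (exists_leader Φ.1 Φ.2).choose

theorem lead_mem (Φ : II K) : lead Φ ∈ Φ.1.vars := (exists_leader Φ.1 Φ.2).choose_spec.1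

theorem lead_max (Φ : II K) : ∀ v ∈ Φ.1.vars, v.1 < (lead Φ).1 ∨ (v.1 = (lead Φ).1 ∧ v.2 ≤ (lead Φ).2) :=
  (exists_leader Φ.1 Φ.2).choose_spec.2

/-- the polynomial for the leader -/
noncomputable def gg (Φ : II K) : (NF K)[X] :=
  MvPolynomial.eval₂Hom (Polynomial.C.comp (ii K))
    (fun p => if p = lead Φ then Polynomial.X else if p.1 ≤ (lead Φ).1 then Polynomial.C (xx Φ p) else 0)
    Φ.1

theorem gg_eval (Φ : II K) (c : NF K) : (gg Φ).eval c = MvPolynomial.eval₂Hom (ii K)
    (fun p => if p = lead Φ then c else xx Φ p) Φ.1 := by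
  have h := MvPolynomial.map_eval₂Hom (Polynomial.C.comp (ii K))
    (fun p => if p = lead Φ then (Polynomial.X : (NF K)[X]) else
      if p.1 ≤ (lead Φ).1 then Polynomial.C (xx Φ p) else 0) (Polynomial.evalRingHom c) Φ.1
  rw [Polynomial.coe_evalRingHom] at h
  refine h.trans ?_
  refine MvPolynomial.eval₂Hom_congr' ?_ ?_ rfl
  · ext a; simp
  · intro p hp _
    have h1 : p.1 ≤ (lead Φ).1 := by
      rcases lead_max Φ p hp with h | h
      · exact h.le
      · exact h.1.le
    by_cases h2 : p = lead Φ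
    · simp [h2]
    · simp [h2, h1]

theorem gg_natDegree (Φ : II K) : (gg Φ).natDegree ≠ 0 := by
  intro h0
  have h1 : (gg Φ).eval (xx Φ (lead Φ)) = (gg Φ).eval 0 := by
    rw [eq_C_of_natDegree_eq_zero h0, eval_C, eval_C]
  rw [gg_eval, gg_eval] at h1
  have h2 : MvPolynomial.eval₂Hom (ii K) (fun p => if p = lead Φ then xx Φ (lead Φ) else xx Φ p) Φ.1 =
      emb K (SS K) (MvPolynomial.rename (fun p => (Φ, p)) Φ.1) := by
    have : (MvPolynomial.eval₂Hom (ii K) (fun p => if p = lead Φ then xx Φ (lead Φ) else xx Φ p)) =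
        (emb K (SS K)).comp (MvPolynomial.rename (fun p => (Φ, p))).toRingHom := by
      apply MvPolynomial.ringHom_ext
      · intro a
        simp [ii]
      · intro p
        by_cases h2 : p = lead Φ
        · simp [h2, xx]
        · simp [h2, xx]
    rw [this]
    rfl
  have h3 : MvPolynomial.eval₂Hom (ii K) (fun p => if p = lead Φ then 0 else xx Φ p) Φ.1 =
      emb K (SS K) (MvPolynomial.rename (fun p => (Φ, p))
        (MvPolynomial.bind₁ (fun p => if p = lead Φ then 0 else MvPolynomial.X p) Φ.1)) := by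
    have : (MvPolynomial.eval₂Hom (ii K) (fun p => if p = lead Φ then 0 else xx Φ p)) =
        ((emb K (SS K)).comp (MvPolynomial.rename (fun p => (Φ, p))).toRingHom).comp
          (MvPolynomial.bind₁ (fun p => if p = lead Φ then (0 : DP K) else MvPolynomial.X p)).toRingHom := by
      apply MvPolynomial.ringHom_ext
      · intro a
        simp [ii]
      · intro p
        by_cases h2 : p = lead Φ
        · simp [h2]
        · simp [h2, xx]
    rw [this]
    rfl
  rw [h2, h3] at h1
  have h4 := emb_injective K (SS K) h1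
  have h5 : Function.Injective (fun p : ℕ × ℕ => (Φ, p)) := fun p q h => (Prod.ext_iff.1 h).2
  have h6 := MvPolynomial.rename_injective _ h5 h4
  have h7 := lead_mem Φ
  rw [h6] at h7
  obtain ⟨q, _, hq⟩ := MvPolynomial.mem_vars_bind₁ _ _ h7
  by_cases h8 : q = lead Φ
  · rw [if_pos h8, MvPolynomial.vars_0] at hq
    exact absurd hq (Finset.notMem_empty _)
  · rw [if_neg h8, MvPolynomial.vars_X, Finset.mem_singleton] at hq
    exact h8 hq.symm

theorem exists_rho (Φ : II K) : ∃ c, (gg Φ).eval c = 0 := by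
  have h : (gg Φ).degree ≠ 0 := by
    intro h
    exact gg_natDegree Φ (natDegree_eq_of_degree_eq_some h)
  obtain ⟨c, hc⟩ := IsAlgClosed.exists_root (gg Φ) h
  exact ⟨c, hc⟩

/-- the leading derivative of the solution -/
noncomputable def rho (Φ : II K) : NF K := (exists_rho Φ).choose

theorem rho_spec (Φ : II K) : (gg Φ).eval (rho Φ) = 0 := (exists_rho Φ).choose_spec

/-- `E` is a derivation which vanishes on `K` and on the variables of level at most the leader -/
def Kills (Φ : II K) (E : NF K → NF K) : Prop :=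
  IsDer E ∧ (∀ a, E (ii K a) = 0) ∧ ∀ p : ℕ × ℕ, p.1 ≤ (lead Φ).1 → E (xx Φ p) = 0

/-- the elements killed by all these derivations -/
def CC (Φ : II K) : Set (NF K) := {b | ∀ E, Kills Φ E → E b = 0}

theorem ii_mem (Φ : II K) (a : K) : ii K a ∈ CC Φ := fun _ hE => hE.2.1 a

theorem xx_mem (Φ : II K) (p : ℕ × ℕ) (hp : p.1 ≤ (lead Φ).1) : xx Φ p ∈ CC Φ :=
  fun _ hE => hE.2.2 p hp

theorem rho_mem [CharZero K] (Φ : II K) : rho Φ ∈ CC Φ := by
  intro E hE
  have : CharZero (NF K) := charZero_BB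
  refine der_eq_zero_of_root hE.1 (rho Φ) _ (gg Φ) le_rfl ?_ ?_ (rho_spec Φ)
  · intro h
    apply gg_natDegree Φ
    rw [h, natDegree_zero]
  · have h : gg Φ ∈ killed hE.1 := by
      refine MvPolynomial.eval₂_mem (subS := Subring (NF K)[X]) ?_ ?_
      · intro i _ j
        simp only [RingHom.comp_apply, coeff_C]
        split
        · exact hE.2.1 _
        · exact hE.1.zero
      · intro p
        split_ifs with h1 h2
        · intro j
          rw [coeff_X]
          split
          · exact hE.1.one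
          · exact hE.1.zero
        · intro j
          rw [coeff_C]
          split
          · exact hE.2.2 p h2
          · exact hE.1.zero
        · exact (killed hE.1).zero_mem
    exact h

/-- the set `CC Φ` is stable under derivations which map the generators to it -/
theorem CC_stable (Φ : II K) {δ : NF K → NF K} (hδ : IsDer δ) (h1 : ∀ a, δ (ii K a) ∈ CC Φ)
    (h2 : ∀ p : ℕ × ℕ, p.1 ≤ (lead Φ).1 → δ (xx Φ p) ∈ CC Φ) {b : NF K} (hb : b ∈ CC Φ) :
    δ b ∈ CC Φ := by
  intro E hE
  have h3 := hb _ (⟨hE.1.comm_der hδ, fun a => by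
    change E (δ _) - δ (E _) = 0
    rw [h1 a E hE, hE.2.1, hδ.zero, sub_zero], fun p hp => by
    change E (δ _) - δ (E _) = 0
    rw [h2 p hp E hE, hE.2.2 p hp, hδ.zero, sub_zero]⟩ : Kills Φ (fun a => E (δ a) - δ (E a)))
  simp only [hb E hE, hδ.zero, sub_zero] at h3
  exact h3

/-- two derivations which agree on the generators agree on `CC Φ` -/
theorem CC_agree (Φ : II K) {δ δ' : NF K → NF K} (hδ : IsDer δ) (hδ' : IsDer δ')
    (h1 : ∀ a, δ (ii K a) = δ' (ii K a))
    (h2 : ∀ p : ℕ × ℕ, p.1 ≤ (lead Φ).1 → δ (xx Φ p) = δ' (xx Φ p)) {b : NF K} (hb : b ∈ CC Φ) :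
    δ b = δ' b := by
  have h3 := hb _ (⟨hδ.sub_der hδ', fun a => by
    change δ _ - δ' _ = 0
    rw [h1, sub_self], fun p hp => by
    change δ _ - δ' _ = 0
    rw [h2 p hp, sub_self]⟩ : Kills Φ (fun a => δ a - δ' a))
  exact sub_eq_zero.1 h3

end

/-- **One step of the construction.** -/
theorem step (K : Type) [Field K] [CharZero K] (D1 D2 : K → K) (h1 : IsDer D1) (h2 : IsDer D2)
    (hc : ∀ x, D1 (D2 x) = D2 (D1 x)) :
    ∃ D1' D2' : NF K → NF K, IsDer D1' ∧ IsDer D2' ∧ (∀ x, D1' (D2' x) = D2' (D1' x)) ∧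
      (∀ x, D1' (ii K x) = ii K (D1 x)) ∧ (∀ x, D2' (ii K x) = ii K (D2 x)) ∧
      ∀ Φ : DP K, Φ.vars.Nonempty → ∃ y : NF K,
        MvPolynomial.eval₂Hom (ii K) (fun p => D1'^[p.1] (D2'^[p.2] y)) Φ = 0 := by
  classical
  -- the auxiliary derivations
  have hE : ∀ Φ : II K, ∃ E : NF K → NF K, IsDer E ∧ (∀ a, E (ii K a) = ii K (D2 a)) ∧
      ∀ k l : ℕ, E (xx Φ (k, l)) = if k = (lead Φ).1 ∧ l + 1 = (lead Φ).2 then rho Φ else xx Φ (k, l + 1) := by
    intro Φ
    obtain ⟨E, hE1, hE2, hE3⟩ := exists_ext h2 (fun i : SS K => if i.1 = Φ then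
      (if i.2.1 = (lead Φ).1 ∧ i.2.2 + 1 = (lead Φ).2 then rho Φ else xx Φ (i.2.1, i.2.2 + 1)) else 0)
    refine ⟨E, hE1, hE2, fun k l => ?_⟩
    refine (hE3 (Φ, (k, l))).trans ?_
    simp
  choose E hE1 hE2 hE3 using hE
  -- the first derivation
  obtain ⟨D1', a1, a2, a3⟩ := exists_ext h1 (fun i : SS K => if i.2.1 + 1 = (lead i.1).1 ∧ (lead i.1).2 ≤ i.2.2
    then (E i.1)^[i.2.2 - (lead i.1).2] (rho i.1) else xx i.1 (i.2.1 + 1, i.2.2))
  have a3' : ∀ Φ k l, D1' (xx Φ (k, l)) = if k + 1 = (lead Φ).1 ∧ (lead Φ).2 ≤ l then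
      (E Φ)^[l - (lead Φ).2] (rho Φ) else xx Φ (k + 1, l) := fun Φ k l => a3 (Φ, (k, l))
  -- the second derivation
  obtain ⟨D2', b1, b2, b3⟩ := exists_ext h2 (fun i : SS K => if (lead i.1).1 ≤ i.2.1 ∧ i.2.2 + 1 = (lead i.1).2
    then D1'^[i.2.1 - (lead i.1).1] (rho i.1) else xx i.1 (i.2.1, i.2.2 + 1))
  have b3' : ∀ Φ k l, D2' (xx Φ (k, l)) = if (lead Φ).1 ≤ k ∧ l + 1 = (lead Φ).2 then
      D1'^[k - (lead Φ).1] (rho Φ) else xx Φ (k, l + 1) := fun Φ k l => b3 (Φ, (k, l))
  have hEmem : ∀ Φ j, (E Φ)^[j] (rho Φ) ∈ CC Φ := by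
    intro Φ j
    induction j with
    | zero => exact rho_mem Φ
    | succ j ih =>
      rw [Function.iterate_succ_apply']
      refine CC_stable Φ (hE1 Φ) ?_ ?_ ih
      · intro a
        rw [hE2]
        exact ii_mem Φ _
      · rintro ⟨k, l⟩ hp
        rw [hE3]
        split
        · exact rho_mem Φ
        · exact xx_mem Φ _ hp
  have hD2E : ∀ Φ j, D2' ((E Φ)^[j] (rho Φ)) = (E Φ)^[j + 1] (rho Φ) := by
    intro Φ j
    rw [Function.iterate_succ_apply']
    refine CC_agree Φ b1 (hE1 Φ) ?_ ?_ (hEmem Φ j)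
    · intro a
      rw [hE2]
      exact b2 a
    · rintro ⟨k, l⟩ hp
      simp only at hp
      rw [b3', hE3]
      by_cases hk : k = (lead Φ).1
      · by_cases hl : l + 1 = (lead Φ).2
        · rw [if_pos ⟨hk.ge, hl⟩, if_pos ⟨hk, hl⟩, hk, Nat.sub_self]
          rfl
        · rw [if_neg (fun h => hl h.2), if_neg (fun h => hl h.2)]
      · rw [if_neg (fun h => hk (le_antisymm hp h.1)), if_neg (fun h => hk h.1)]
  have hcomm : ∀ x, D1' (D2' x) - D2' (D1' x) = 0 := by
    refine der_unique (a1.comm_der b1) ?_ ?_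
    · intro a
      rw [a2, b2, a2, b2, hc, sub_self]
    · rintro ⟨Φ, k, l⟩
      rw [sub_eq_zero]
      change D1' (D2' (xx Φ (k, l))) = D2' (D1' (xx Φ (k, l)))
      have d1 := a3' Φ k l
      have d2 := b3' Φ k l
      have d12 := a3' Φ k (l + 1)
      have d21 := b3' Φ (k + 1) l
      by_cases hk : k + 1 = (lead Φ).1
      · have hk' : ¬ (lead Φ).1 ≤ k := by omega
        rw [if_neg (fun h => hk' h.1)] at d2
        rw [d2, d12]
        by_cases hl : (lead Φ).2 ≤ l
        · rw [if_pos ⟨hk, hl⟩] at d1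
          rw [d1, if_pos ⟨hk, by omega⟩, hD2E]
          congr 2
          omega
        · rw [if_neg (fun h => hl h.2)] at d1
          rw [d1, d21]
          by_cases hl1 : l + 1 = (lead Φ).2
          · rw [if_pos ⟨hk, hl1.ge⟩, if_pos ⟨hk.ge, hl1⟩, hl1, hk, Nat.sub_self, Nat.sub_self]
            rfl
          · rw [if_neg (fun h => by omega), if_neg (fun h => hl1 h.2)]
      · rw [if_neg (fun h => hk h.1)] at d1 d12
        rw [d1, d21]
        by_cases hkl : (lead Φ).1 ≤ k ∧ l + 1 = (lead Φ).2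
        · rw [if_pos hkl] at d2
          rw [d2, if_pos ⟨by omega, hkl.2⟩]
          have : k + 1 - (lead Φ).1 = (k - (lead Φ).1) + 1 := by omega
          rw [this, Function.iterate_succ_apply']
        · rw [if_neg hkl] at d2
          rw [d2, d12, if_neg (fun h => hkl ⟨by omega, h.2⟩)]
  refine ⟨D1', D2', a1, b1, fun x => sub_eq_zero.1 (hcomm x), a2, b2, fun Φ' hΦ => ?_⟩
  obtain ⟨Φ, rfl⟩ : ∃ Φ : II K, Φ.1 = Φ' := ⟨⟨Φ', hΦ⟩, rfl⟩
  obtain ⟨y, hy⟩ : ∃ y : NF K, ∀ v ∈ Φ.1.vars, D1'^[v.1] (D2'^[v.2] y) =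
      if v = lead Φ then rho Φ else xx Φ v := by
    by_cases h0 : lead Φ = (0, 0)
    · refine ⟨rho Φ, fun v hv => ?_⟩
      have h3 := lead_max Φ v hv
      rw [h0] at h3
      have h4 : v = (0, 0) := by
        rcases h3 with h | h
        · exact absurd h (by simp)
        · exact Prod.ext h.1 (Nat.le_zero.1 h.2)
      rw [h4, if_pos h0.symm]
      rfl
    · refine ⟨xx Φ (0, 0), ?_⟩
      rintro ⟨k, l⟩ hv
      have h3 := lead_max Φ _ hv
      simp only at h3
      by_cases ha : (lead Φ).1 = 0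
      · have hb : (lead Φ).2 ≠ 0 := fun hb => h0 (Prod.ext ha hb)
        have h4 : ∀ l, l < (lead Φ).2 → D2'^[l] (xx Φ (0, 0)) = xx Φ (0, l) := by
          intro l
          induction l with
          | zero => intro _; rfl
          | succ l ih =>
            intro hl
            rw [Function.iterate_succ_apply', ih (by omega), b3', if_neg (fun h => by omega)]
        have hk : k = 0 := by omega
        subst hk
        simp only [Function.iterate_zero, id_eq]
        by_cases hl : l = (lead Φ).2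
        · rw [if_pos (Prod.ext ha.symm hl)]
          obtain ⟨m, hm⟩ : ∃ m, l = m + 1 := ⟨l - 1, by omega⟩
          rw [hm, Function.iterate_succ_apply', h4 m (by omega), b3', if_pos ⟨ha.le, by omega⟩, ha]
          rfl
        · rw [if_neg (fun h => hl (congrArg Prod.snd h)), h4 l (by omega)]
      · have h4 : ∀ l, D2'^[l] (xx Φ (0, 0)) = xx Φ (0, l) := by
          intro l
          induction l with
          | zero => rfl
          | succ l ih =>
            rw [Function.iterate_succ_apply', ih, b3', if_neg (fun h => by omega)]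
        have h5 : ∀ k l, k < (lead Φ).1 → D1'^[k] (xx Φ (0, l)) = xx Φ (k, l) := by
          intro k l
          induction k with
          | zero => intro _; rfl
          | succ k ih =>
            intro hk
            rw [Function.iterate_succ_apply', ih (by omega), a3', if_neg (fun h => by omega)]
        simp only [h4]
        by_cases hk : k < (lead Φ).1
        · rw [h5 k l hk, if_neg]
          intro h
          rw [← h] at hk
          exact lt_irrefl _ hk
        · obtain ⟨hk1, hl1⟩ : k = (lead Φ).1 ∧ l ≤ (lead Φ).2 := by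
            rcases h3 with h | h
            · exact absurd h hk
            · exact h
          obtain ⟨m, hm⟩ : ∃ m, k = m + 1 := ⟨k - 1, by omega⟩
          rw [hm, Function.iterate_succ_apply', h5 m l (by omega), a3', ← hm]
          by_cases hl : l = (lead Φ).2
          · rw [if_pos ⟨hk1, hl.ge⟩, if_pos (Prod.ext hk1 hl), hl, Nat.sub_self]
            rfl
          · rw [if_neg (fun h => by omega), if_neg (fun h => hl (congrArg Prod.snd h))]
  refine ⟨y, ?_⟩
  rw [← rho_spec Φ, gg_eval]
  exact MvPolynomial.eval₂Hom_congr' rfl (fun v hv _ => hy v hv) rfl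

end Pool.Agent.Q22.AC
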